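import Pool.Agent.H66.DG.Defs
import Pool.Agent.H10.DG.Main
import Pool.Agent.H95.DL.Defs
import Pool.Agent.H10.DG.Small

/-!
# Assembly, deterministic part

The exceptional events, and `asm_det`: outside of them every graph with the generalized spectrum of
`G` is isomorphic to `G`.
-/

set_option autoImplicit false

namespace Pool.Agent.H66.DG

open Matrix Classical Pool.Agent.H66.SP Pool.Agent.H95.SQ Pool.Agent.H71.DG Pool.Agent.H10.DG
  Pool.Agent.H95.DL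

/-- a complex eigenvector orthogonal to all ones -/
def EvC (n : ℕ) (G : SimpleGraph (Fin n)) : Prop :=
  ∃ μ : ℂ, ∃ w : Fin n → ℂ, w ≠ 0 ∧ adj ℂ G *ᵥ w = μ • w ∧ ∑ v, w v = 0

/-- an isotropic eigenvector orthogonal to all ones modulo a prime `> n ^ 3` -/
def EvL (n : ℕ) (G : SimpleGraph (Fin n)) : Prop :=
  ∃ (p : ℕ) (_ : Fact p.Prime), n ^ 3 < p ∧ ∃ μ : KK p, ∃ w : Fin n → KK p, w ≠ 0 ∧
    adj (KK p) G *ᵥ w = μ • w ∧ w ⬝ᵥ w = 0 ∧ ∑ v, w v = 0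

/-- an eigenvector of large degree orthogonal to all ones modulo an odd prime `≤ n ^ 3` -/
def EvD (n : ℕ) (G : SimpleGraph (Fin n)) : Prop :=
  ∃ (p : ℕ) (_ : Fact p.Prime), p ≠ 2 ∧ p ≤ n ^ 3 ∧ ∃ μ : KK p, 6 * Nat.log 2 n ≤ dg p μ ∧
    ∃ w : Fin n → KK p, w ≠ 0 ∧ adj (KK p) G *ᵥ w = μ • w ∧ ∑ v, w v = 0

/-- an obstruction modulo an odd prime `z < p ≤ n ^ 3` -/
def EvM (n z : ℕ) (G : SimpleGraph (Fin n)) : Prop :=
  ∃ p ∈ Finset.Ioc z (n ^ 3), p.Prime ∧ p ≠ 2 ∧ ∃ d ∈ Finset.Icc 1 (6 * Nat.log 2 n),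
    ∃ U : Submodule (ZMod p) (Fin n → ZMod p), Ob p G U ∧ Module.finrank (ZMod p) U = d

/-- a large obstruction modulo an odd prime `p ≤ z` -/
def EvM2 (n z R : ℕ) (G : SimpleGraph (Fin n)) : Prop :=
  ∃ p ∈ Finset.range (z + 1), p.Prime ∧ p ≠ 2 ∧ ∃ d ∈ Finset.Ico R (R + 6 * Nat.log 2 n),
    ∃ U : Submodule (ZMod p) (Fin n → ZMod p), Ob p G U ∧ Module.finrank (ZMod p) U = d

/-- a large obstruction modulo `2` -/
def EvP (n R : ℕ) (G : SimpleGraph (Fin n)) : Prop :=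
  ∃ U : Submodule (ZMod 2) (Fin n → ZMod 2), Ob2 G U ∧ R ≤ Module.finrank (ZMod 2) U

/-- data modulo `p ^ j` for a prime `p ≤ z` -/
def EvS (n z R j : ℕ) (G : SimpleGraph (Fin n)) : Prop :=
  ∃ p ∈ Finset.range (z + 1), p.Prime ∧ ∃ r ∈ Finset.Ico 1 R, Dat p r j G

/-- a mate of small level -/
def EvK (n : ℕ) (G : SimpleGraph (Fin n)) : Prop :=
  Pool.Agent.H10.DG.HasMateOfLevelLE G (Real.sqrt n / 10)

theorem cg_le_of (n : ℕ) (P : SimpleGraph (Fin n) → Prop) (inst : DecidablePred P) (c : ℝ)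
    (h : ((@Finset.filter _ P inst (Finset.univ : Finset (SimpleGraph (Fin n)))).card : ℝ) ≤ c) :
    cg n P ≤ c := by
  rw [@cg_eq n P inst]
  exact h

theorem asm_adj (n : ℕ) (G : SimpleGraph (Fin n)) (inst : DecidableRel G.Adj) :
    adj ℚ G = @SimpleGraph.adjMatrix ℚ (Fin n) G inst _ _ := by
  ext i j
  simp only [adj, Matrix.of_apply, SimpleGraph.adjMatrix_apply]
  by_cases hG : G.Adj i j
  · rw [if_pos hG, if_pos hG]
  · rw [if_neg hG, if_neg hG]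

theorem asm_det (n z R j : ℕ) (hz2 : 2 ≤ z) (hz : z ≤ n ^ 3) (hj : 1 ≤ j)
    (hd : 1 ≤ 6 * Nat.log 2 n)
    (hL : ((∏ p ∈ (Finset.range (z + 1)).filter Nat.Prime, p ^ (R * j) : ℕ) : ℝ) ≤
      Real.sqrt n / 10) (G : SimpleGraph (Fin n))
    (h1 : ¬ EvC n G) (h2 : ¬ EvL n G) (h3 : ¬ EvD n G) (h4 : ¬ EvM n z G) (h5 : ¬ EvM2 n z R G)
    (h6 : ¬ EvP n R G) (h7 : ¬ EvS n z R j G) (h8 : ¬ EvK n G) (H : SimpleGraph (Fin n))
    (hGH : GenCo G H) : Nonempty (G ≃g H) := by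
  by_contra hne
  rw [not_nonempty_iff] at hne
  obtain ⟨Q, l, hQ, hl, hle⟩ := red_main G H z R j (6 * Nat.log 2 n) hz2
    (by rw [Fintype.card_fin]; exact hz) hj hd
    (by
      intro μ x hx hs
      by_contra hx0
      exact h1 ⟨μ, x, hx0, (mem_eig _ _ _).1 hx, hs⟩)
    (by
      intro p hp hlt μ w hw hwe hww hs
      rw [Fintype.card_fin] at hlt
      exact h2 ⟨p, hp, hlt, μ, w, hw, hwe, hww, hs⟩)
    (by
      intro p hp hp2 hle μ w hdg hw hwe hs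
      rw [Fintype.card_fin] at hle
      exact h3 ⟨p, hp, hp2, hle, μ, hdg, w, hw, hwe, hs⟩)
    (by
      intro p hp hzp hle U hU hf1 hf2
      rw [Fintype.card_fin] at hle
      exact h4 ⟨p, Finset.mem_Ioc.2 ⟨hzp, hle⟩, hp.out, by omega, _,
        Finset.mem_Icc.2 ⟨hf1, hf2⟩, U, hU, rfl⟩)
    (by
      intro p hp hp2 hpz U hU hf1 hf2
      exact h5 ⟨p, Finset.mem_range.2 (by omega), hp.out, hp2, _,
        Finset.mem_Ico.2 ⟨hf1, hf2⟩, U, hU, rfl⟩)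
    (by
      intro U hU
      by_contra hc
      exact h6 ⟨U, hU, not_lt.1 hc⟩)
    (by
      intro p hp hpz r hr1 hr2 hD
      exact h7 ⟨p, Finset.mem_range.2 (by omega), hp, r, Finset.mem_Ico.2 ⟨hr1, hr2⟩, hD⟩)
    hGH
  apply h8
  obtain ⟨M, hM⟩ := hl.int
  refine ⟨H, Q, l, hne, hQ.orth, ?_, hl.pos, fun i k => ⟨M i k, hM i k⟩, ?_⟩
  · have h := hQ.conj
    rw [asm_adj n G (fun a b => Classical.propDecidable _),
      asm_adj n H (fun a b => Classical.propDecidable _)] at h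
    exact h
  · have h9 : (l : ℝ) ≤
        ((∏ p ∈ (Finset.range (z + 1)).filter Nat.Prime, p ^ (R * j) : ℕ) : ℝ) := by
      exact_mod_cast hle
    exact h9.trans hL

end Pool.Agent.H66.DG
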