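import Pool.Agent.H66.DG.Mul

/-!
# DG-S08 DatF: from integral data to dense data over `ZMod (p ^ j)`

`dat_to_gd`: `Dat p r j G`, `1 ≤ j`, and every nonzero vector of an invariant subspace of
`F_p^V` of dimension at most `r` has more than `s` nonzero entries.  Then `Gd (p ^ j) r s G F` for
some `F`.
PROOF.  Let `u` be the data, `F v a = (u a v : ZMod (p ^ j))`.  `Fᵀ F = 0` and `A F = F * θ`
(`θ` transposed) are the congruences modulo `p ^ j` of the data (`ZMod.intCast_zmod_eq_zero_iff_dvd`;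
`(adj ℤ G *ᵥ u a) v` casts to `(adj (ZMod _) G * F) v a`).  Density: let `U ≤ F_p^V` be the span of
the reductions `ū_a` of the `u a` modulo `p`; it is invariant (congruence modulo `p ∣ p ^ j`) and has
dimension `≤ r`.  Let `c ≠ 0`, `c : Fin r → ZMod (p ^ j)`.  Write `c a = p^k c' a` with
`c' : Fin r → ℤ`, not all divisible by `p`, and `k < j` (take lifts of the `c a` to `0 .. p^j - 1`, and
`k` the largest exponent with `p^k ∣` all of them; `k < j` since some lift is nonzero).  If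
`(∑_a c' a * u a v)` is not divisible by `p` then `(F *ᵥ c) v = p^k ∑_a c' a u a v ≠ 0` in
`ZMod (p ^ j)` (`p^(k+1)` does not divide it).  The vector `x = ∑_a c' a ū_a ∈ U` is nonzero by linear
independence, so it has more than `s` nonzero entries, and `s < nz x ≤ nz (F *ᵥ c)`.
-/

set_option autoImplicit false

namespace Pool.Agent.H66.DG

open Matrix Classical Pool.Agent.H66.SP Pool.Agent.H95.SQ Pool.Agent.H71.DG Pool.Agent.H10.DG

theorem DatF_adj {R : Type*} [Ring R] {V : Type*} (G : SimpleGraph V) (v w : V) :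
    ((adj ℤ G v w : ℤ) : R) = adj R G v w := by
  unfold adj
  rw [Matrix.of_apply, Matrix.of_apply]
  split_ifs
  · exact Int.cast_one
  · exact Int.cast_zero

theorem DatF_mulVec {R : Type*} [CommRing R] {V : Type*} [Fintype V] (G : SimpleGraph V)
    (u : V → ℤ) (v : V) :
    (((adj ℤ G *ᵥ u) v : ℤ) : R) = (adj R G *ᵥ fun w => ((u w : ℤ) : R)) v := by
  unfold Matrix.mulVec dotProduct
  rw [Int.cast_sum]
  refine Finset.sum_congr rfl fun w _ => ?_
  rw [Int.cast_mul, DatF_adj]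

theorem DatF_nz {K L : Type*} [Zero K] [Zero L] {V : Type*} [Fintype V] (x : V → K)
    (y : V → L) (h : ∀ v, x v ≠ 0 → y v ≠ 0) : nz x ≤ nz y := by
  unfold nz
  refine Finset.card_le_card fun v hv => ?_
  rw [Finset.mem_filter] at hv ⊢
  exact ⟨Finset.mem_univ _, h v hv.2⟩

/-- a nonzero vector over `ZMod (p ^ j)` is `p ^ k` times a vector which is nonzero modulo `p` -/
theorem DatF_lift (p j r : ℕ) [Fact p.Prime] [NeZero (p ^ j)] (c : Fin r → ZMod (p ^ j))
    (hc : c ≠ 0) : ∃ (k : ℕ) (c' : Fin r → ℕ), k < j ∧ (∀ a, (c a).val = p ^ k * c' a) ∧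
      ¬ ∀ a, p ∣ c' a := by
  have hp : p.Prime := Fact.out
  obtain ⟨a0, ha0⟩ : ∃ a, c a ≠ 0 := by
    by_contra h
    push Not at h
    exact hc (funext h)
  have hval : (c a0).val ≠ 0 := fun h => ha0 ((ZMod.val_eq_zero _).1 h)
  obtain ⟨e, he1, he2⟩ := Finset.extract_gcd (s := (Finset.univ : Finset (Fin r)))
    (fun a => (c a).val) ⟨a0, Finset.mem_univ _⟩
  set D := Finset.univ.gcd (fun a => (c a).val) with hD
  have hD0 : D ≠ 0 := by
    intro h
    apply hval
    rw [he1 a0 (Finset.mem_univ _), h, zero_mul]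
  obtain ⟨k, D', hD', hDk⟩ := Nat.exists_eq_pow_mul_and_not_dvd hD0 p hp.ne_one
  refine ⟨k, fun a => D' * e a, ?_, fun a => ?_, fun h => ?_⟩
  · have h1 : (c a0).val < p ^ j := ZMod.val_lt _
    have h2 : p ^ k ≤ (c a0).val := by
      refine Nat.le_of_dvd (Nat.pos_of_ne_zero hval) ?_
      rw [he1 a0 (Finset.mem_univ _), hDk, mul_assoc]
      exact dvd_mul_right _ _
    exact (Nat.pow_lt_pow_iff_right hp.one_lt).1 (h2.trans_lt h1)
  · rw [he1 a (Finset.mem_univ _), hDk, mul_assoc]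
  · have h1 : ∀ a ∈ (Finset.univ : Finset (Fin r)), p ∣ e a := fun a _ =>
      (hp.dvd_mul.1 (h a)).resolve_left hD'
    have h2 := Finset.dvd_gcd h1
    rw [he2] at h2
    exact hp.one_lt.ne' (Nat.dvd_one.1 h2)

theorem dat_to_gd (p r j s : ℕ) [Fact p.Prime] (hj : 1 ≤ j) {V : Type*} [Fintype V]
    [DecidableEq V] (G : SimpleGraph V)
    (hs : ∀ U : Submodule (ZMod p) (V → ZMod p), (∀ x ∈ U, adj (ZMod p) G *ᵥ x ∈ U) →
      Module.finrank (ZMod p) U ≤ r → ∀ x ∈ U, x ≠ 0 → s < nz x)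
    (hD : Dat p r j G) : ∃ F : Matrix V (Fin r) (ZMod (p ^ j)), Gd (p ^ j) r s G F := by
  have hp : p.Prime := Fact.out
  have : NeZero (p ^ j) := ⟨pow_ne_zero _ hp.ne_zero⟩
  obtain ⟨u, hli, ⟨θ, hθ⟩, hiso⟩ := hD
  set F : Matrix V (Fin r) (ZMod (p ^ j)) := fun v a => ((u a v : ℤ) : ZMod (p ^ j)) with hF
  have hcast : ∀ z : ℤ, (p : ℤ) ^ j ∣ z → ((z : ℤ) : ZMod (p ^ j)) = 0 := by
    intro z hz
    rw [ZMod.intCast_zmod_eq_zero_iff_dvd]
    push_cast
    exact hz
  refine ⟨F, ?_, ?_, fun b a => ((θ a b : ℤ) : ZMod (p ^ j)), ?_⟩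
  · -- density
    intro c hc
    obtain ⟨k, c', hk, hval, hnd⟩ := DatF_lift p j r c hc
    set ub : Fin r → V → ZMod p := fun a v => ((u a v : ℤ) : ZMod p) with hub
    set U : Submodule (ZMod p) (V → ZMod p) := Submodule.span (ZMod p) (Set.range ub) with hU
    have hinv : ∀ x ∈ U, adj (ZMod p) G *ᵥ x ∈ U := by
      have h1 : U ≤ U.comap (adj (ZMod p) G).mulVecLin := by
        rw [hU, Submodule.span_le]
        rintro _ ⟨a, rfl⟩
        show (adj (ZMod p) G) *ᵥ ub a ∈ Submodule.span (ZMod p) (Set.range ub)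
        have h2 : (adj (ZMod p) G) *ᵥ ub a = ∑ b, ((θ a b : ℤ) : ZMod p) • ub b := by
          funext v
          rw [← DatF_mulVec, Finset.sum_apply]
          have h3 : (p : ℤ) ∣ (adj ℤ G *ᵥ u a) v - ∑ b, θ a b * u b v :=
            (dvd_pow_self (p : ℤ) (by omega)).trans (hθ a v)
          have h4 := (ZMod.intCast_zmod_eq_zero_iff_dvd _ p).2 h3
          rw [Int.cast_sub, sub_eq_zero, Int.cast_sum] at h4
          rw [h4]
          refine Finset.sum_congr rfl fun b _ => ?_
          rw [Int.cast_mul]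
          rfl
        rw [h2]
        exact Submodule.sum_mem _ fun b _ =>
          Submodule.smul_mem _ _ (Submodule.subset_span ⟨b, rfl⟩)
      exact fun x hx => h1 hx
    have hrank : Module.finrank (ZMod p) U ≤ r := by
      have h1 := finrank_range_le_card (R := ZMod p) ub
      rw [Fintype.card_fin] at h1
      exact h1
    set x : V → ZMod p := ∑ a, ((c' a : ℕ) : ZMod p) • ub a with hx
    have hxU : x ∈ U := Submodule.sum_mem _ fun b _ =>
      Submodule.smul_mem _ _ (Submodule.subset_span ⟨b, rfl⟩)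
    have hx0 : x ≠ 0 := by
      intro h
      apply hnd
      intro a
      have h1 := Fintype.linearIndependent_iff.1 hli (fun a => ((c' a : ℕ) : ZMod p)) h a
      exact (ZMod.natCast_eq_zero_iff _ _).1 h1
    refine (hs U hinv hrank x hxU hx0).trans_le ?_
    refine DatF_nz x (F *ᵥ c) fun v hv h0 => hv ?_
    have h1 : (F *ᵥ c) v =
        (((p : ℤ) ^ k * ∑ a, (c' a : ℤ) * u a v : ℤ) : ZMod (p ^ j)) := by
      unfold Matrix.mulVec dotProduct
      rw [Int.cast_mul, Int.cast_sum, Finset.mul_sum]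
      refine Finset.sum_congr rfl fun a _ => ?_
      have h2 : c a = ((p ^ k * c' a : ℕ) : ZMod (p ^ j)) := by
        rw [← hval a, ZMod.natCast_zmod_val]
      rw [h2, hF]
      push_cast
      ring
    rw [h1, ZMod.intCast_zmod_eq_zero_iff_dvd] at h0
    have h2 : (p : ℤ) ^ k * p ∣ (p : ℤ) ^ k * ∑ a, (c' a : ℤ) * u a v := by
      refine dvd_trans ?_ h0
      rw [← pow_succ]
      push_cast
      exact pow_dvd_pow _ hk
    have h3 : (p : ℤ) ∣ ∑ a, (c' a : ℤ) * u a v :=
      (mul_dvd_mul_iff_left (pow_ne_zero _ (by exact_mod_cast hp.ne_zero))).1 h2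
    have h4 := (ZMod.intCast_zmod_eq_zero_iff_dvd _ p).2 h3
    rw [Int.cast_sum] at h4
    rw [hx, Finset.sum_apply, ← h4]
    refine Finset.sum_congr rfl fun a _ => ?_
    rw [Int.cast_mul, Int.cast_natCast]
    rfl
  · ext a b
    have h1 := hcast _ (hiso a b)
    rw [Matrix.mul_apply, Matrix.zero_apply, ← h1]
    unfold dotProduct
    rw [Int.cast_sum]
    refine Finset.sum_congr rfl fun v _ => ?_
    rw [Int.cast_mul]
    rfl
  · ext v a
    have h1 := hcast _ (hθ a v)
    rw [Int.cast_sub, sub_eq_zero, Int.cast_sum, DatF_mulVec] at h1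
    show ∑ w, adj (ZMod (p ^ j)) G v w * F w a = ∑ b, F v b * ((θ a b : ℤ) : ZMod (p ^ j))
    refine Eq.trans h1 ?_
    refine Finset.sum_congr rfl fun b _ => ?_
    rw [Int.cast_mul, mul_comm]

end Pool.Agent.H66.DG
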