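import Pool.Agent.H66.DG.KryC

/-!
# DG-K4 Spa: no sparse vectors in small invariant subspaces, `p` and the dimension fixed

`card_sparse_le`: for `a ≥ 1` real the number of `x : Fin n → ZMod p` with `nz x ≤ s` is at most
`a^s * (1 + p / a)^n` (`∑_x a^(-nz x) = (1 + (p-1)/a)^n`, `Finset.prod_univ_sum`, and
`1 ≤ a^s a^(-nz x)` if `nz x ≤ s`).
`sparse_excl`: for fixed `p, r` there is `δ > 0` such that for every `ε > 0` and `n ≥ n₀` the proportion
of the graphs which have an invariant `U` of dimension at most `r` with a vector `0 ≠ x ∈ U`,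
`nz x ≤ δ n`, is at most `ε`.
PROOF.  Let `a = 8 p`, `δ = 1 / (16 * log_2 (8 p) )` (so `a^(δ n) = 2^(n/16)`); the number of `x` with
`nz x ≤ δ n` is at most `2^(n/16) * (1 + 1/8)^n ≤ 2^(n/4)` (`9/8 ≤ 2^(0.17)`; `(9/8)^n ≤ 2^(3 n/16)`
as `(9/8)^16 ≤ 2^3`).  A bad graph is not `MultOK L' (m+1)` or satisfies `KP p r (m+1) G x` for one
of these `x ≠ 0`.  With `L = Nat.log 2 n + 1` (`n < 2^L ≤ 2 n`), `t = 3 L`, `m = 14 L` the number of
graphs which are not `MultOK t (m+1)` is at most `n (n / 2^t + 2 n^4 / 2^(m+1)) ng n ≤ (2 / n) ng n`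
(`card_not_multOK_le`; its condition `n 2^m 3^t < 3^m` follows from `n < 2^L` and
`2 * 27 * 2^14 ≤ 3^14`).  By `kry_count` (`n ≥ 1`, replace `n` by `n' + 1`) the number of `G` with
`KP p r (m+1) G x` is at most `p^(2r+1) * 2^((r-1)(m+2)) / 2^(n-1) * ng n`; `2^(m+2) = 4 * 2^(14 L) ≤
4 (2 n)^14`.  So the total proportion is at most
`2 / n + 2^(n/4) * p^(2r+1) * (4 (2n)^14)^r * 2 / 2^n → 0`.
-/

set_option autoImplicit false

namespace Pool.Agent.H66.DG

open Matrix Classical Pool.Agent.H66.SP Pool.Agent.H95.SQ Pool.Agent.H71.DG Polynomial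

theorem card_sparse_le (p n s : ℕ) [NeZero p] (a : ℝ) (ha : 1 ≤ a) :
    (((Finset.univ : Finset (Fin n → ZMod p)).filter (fun x => nz x ≤ s)).card : ℝ) ≤
      a ^ s * (1 + p / a) ^ n := by
  have ha0 : (0 : ℝ) < a := lt_of_lt_of_le one_pos ha
  have h1 : ∑ x : Fin n → ZMod p, ∏ i, (if x i ≠ 0 then a⁻¹ else 1) =
      (∑ c : ZMod p, (if c ≠ 0 then a⁻¹ else 1)) ^ n := by
    have h := Finset.prod_univ_sum (fun _ : Fin n => (Finset.univ : Finset (ZMod p)))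
      (fun _ c => if c ≠ 0 then a⁻¹ else 1)
    rw [Finset.prod_const, Finset.card_univ, Fintype.card_fin] at h
    rw [h, Fintype.piFinset_univ]
  have h2 : (∑ c : ZMod p, (if c ≠ 0 then a⁻¹ else 1)) ≤ 1 + p / a := by
    have h3 : (∑ c : ZMod p, (if c ≠ 0 then a⁻¹ else 1)) ≤
        ∑ c : ZMod p, ((if c = 0 then 1 else 0) + a⁻¹) := by
      refine Finset.sum_le_sum fun c _ => ?_
      by_cases hc : c = 0
      · rw [if_neg (by simpa using hc), if_pos hc]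
        have : 0 ≤ a⁻¹ := by positivity
        linarith
      · rw [if_pos hc, if_neg hc]
        linarith
    refine h3.trans (le_of_eq ?_)
    rw [Finset.sum_add_distrib, Finset.sum_ite_eq' Finset.univ (0 : ZMod p) (fun _ => (1 : ℝ)),
      if_pos (Finset.mem_univ _), Finset.sum_const, Finset.card_univ, ZMod.card, nsmul_eq_mul]
    rfl
  have h20 : 0 ≤ ∑ c : ZMod p, (if c ≠ 0 then a⁻¹ else 1) := by
    refine Finset.sum_nonneg fun c _ => ?_
    split_ifs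
    · positivity
    · exact zero_le_one
  have h4 : ∀ x : Fin n → ZMod p, ∏ i, (if x i ≠ 0 then a⁻¹ else 1) = a⁻¹ ^ (nz x) := by
    intro x
    rw [Finset.prod_ite, Finset.prod_const, Finset.prod_const_one, mul_one]
    unfold nz
    congr
  have h5 : (((Finset.univ : Finset (Fin n → ZMod p)).filter (fun x => nz x ≤ s)).card : ℝ) ≤
      ∑ x : Fin n → ZMod p, a ^ s * a⁻¹ ^ (nz x) := by
    rw [Finset.card_eq_sum_ones]
    push_cast
    rw [Finset.sum_filter]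
    refine Finset.sum_le_sum fun x _ => ?_
    split_ifs with hx
    · rw [inv_pow, ← div_eq_mul_inv, one_le_div (by positivity)]
      exact pow_le_pow_right₀ ha hx
    · positivity
  refine h5.trans ?_
  rw [← Finset.mul_sum]
  refine mul_le_mul_of_nonneg_left ?_ (by positivity)
  have h6 : ∑ x : Fin n → ZMod p, a⁻¹ ^ (nz x) =
      (∑ c : ZMod p, (if c ≠ 0 then a⁻¹ else 1)) ^ n := by
    rw [← h1]
    exact Finset.sum_congr rfl fun x _ => (h4 x).symm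
  rw [h6]
  exact pow_le_pow_left₀ h20 h2 n

theorem multOK_large (ε : ℝ) (hε : 0 < ε) : ∃ n₀ : ℕ, ∀ n : ℕ, n₀ ≤ n →
    cg n (fun G => ¬ MultOK (3 * (Nat.log 2 n + 1)) (14 * (Nat.log 2 n + 1) + 1) G) ≤
      ε * ng n := by
  obtain ⟨n₀, hn₀⟩ := exists_nat_ge (2 / ε)
  refine ⟨n₀ + 1, fun n hn => ?_⟩
  set L := Nat.log 2 n + 1 with hL
  have hn1 : 1 ≤ n := by omega
  have hnL : n < 2 ^ L := Nat.lt_pow_succ_log_self (by norm_num) n
  have hcond : n * (2 ^ (14 * L) * 3 ^ (3 * L)) < 3 ^ (14 * L) := by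
    calc n * (2 ^ (14 * L) * 3 ^ (3 * L)) < 2 ^ L * (2 ^ (14 * L) * 3 ^ (3 * L)) :=
          Nat.mul_lt_mul_of_pos_right hnL (by positivity)
      _ = (2 * (2 ^ 14 * 3 ^ 3)) ^ L := by
          rw [mul_pow, mul_pow, ← pow_mul, ← pow_mul]
      _ ≤ (3 ^ 14) ^ L := Nat.pow_le_pow_left (by norm_num) L
      _ = 3 ^ (14 * L) := (pow_mul 3 14 L).symm
  have h1 := card_not_multOK_le n (3 * L) (14 * L) (by omega) hcond
  have h2 : cg n (fun G => ¬ MultOK (3 * L) (14 * L + 1) G) ≤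
      n * ((n : ℝ) / 2 ^ (3 * L) + 2 * (n : ℝ) ^ 4 / 2 ^ (14 * L + 1)) * ng n := by
    rw [cg_eq]
    exact h1
  refine h2.trans (mul_le_mul_of_nonneg_right ?_ (ng_pos n).le)
  have hn1' : (1 : ℝ) ≤ n := by exact_mod_cast hn1
  have hn0' : (0 : ℝ) < n := lt_of_lt_of_le one_pos hn1'
  have hnL' : (n : ℝ) ≤ 2 ^ L := by exact_mod_cast hnL.le
  have h3 : (n : ℝ) ^ 3 ≤ 2 ^ (3 * L) := by
    calc (n : ℝ) ^ 3 ≤ (2 ^ L) ^ 3 := pow_le_pow_left₀ hn0'.le hnL' 3
      _ = 2 ^ (3 * L) := by rw [← pow_mul, mul_comm]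
  have h4 : (n : ℝ) ^ 14 ≤ 2 ^ (14 * L) := by
    calc (n : ℝ) ^ 14 ≤ (2 ^ L) ^ 14 := pow_le_pow_left₀ hn0'.le hnL' 14
      _ = 2 ^ (14 * L) := by rw [← pow_mul, mul_comm]
  have h5 : (n : ℝ) * ((n : ℝ) / 2 ^ (3 * L)) ≤ 1 / n := by
    rw [← mul_div_assoc, div_le_div_iff₀ (by positivity) hn0']
    calc (n : ℝ) * n * n = (n : ℝ) ^ 3 := by ring
      _ ≤ 1 * 2 ^ (3 * L) := by rw [one_mul]; exact h3
  have h6 : (n : ℝ) * (2 * (n : ℝ) ^ 4 / 2 ^ (14 * L + 1)) ≤ 1 / n := by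
    rw [← mul_div_assoc, div_le_div_iff₀ (by positivity) hn0', pow_succ (2 : ℝ) (14 * L)]
    have h7 : (n : ℝ) ^ 6 ≤ (n : ℝ) ^ 14 := pow_le_pow_right₀ hn1' (by norm_num)
    calc (n : ℝ) * (2 * (n : ℝ) ^ 4) * n = 2 * (n : ℝ) ^ 6 := by ring
      _ ≤ 2 * 2 ^ (14 * L) := mul_le_mul_of_nonneg_left (h7.trans h4) (by norm_num)
      _ = 1 * (2 ^ (14 * L) * 2) := by ring
  have h8 : 2 / ε ≤ n := hn₀.trans (by exact_mod_cast (by omega : n₀ ≤ n))
  have h9 : 2 / (n : ℝ) ≤ ε := by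
    rw [div_le_iff₀ hε] at h8
    rw [div_le_iff₀ hn0']
    linarith
  calc (n : ℝ) * ((n : ℝ) / 2 ^ (3 * L) + 2 * (n : ℝ) ^ 4 / 2 ^ (14 * L + 1))
      = (n : ℝ) * ((n : ℝ) / 2 ^ (3 * L)) + (n : ℝ) * (2 * (n : ℝ) ^ 4 / 2 ^ (14 * L + 1)) := by
        ring
    _ ≤ 1 / (n : ℝ) + 1 / (n : ℝ) := add_le_add h5 h6
    _ = 2 / (n : ℝ) := by ring
    _ ≤ ε := h9

theorem sparse_excl (p r : ℕ) [Fact p.Prime] : ∃ δ : ℝ, 0 < δ ∧ ∀ ε : ℝ, 0 < ε →
    ∃ n₀ : ℕ, ∀ n : ℕ, n₀ ≤ n →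
      cg n (fun G => ∃ U : Submodule (ZMod p) (Fin n → ZMod p),
        (∀ x ∈ U, adj (ZMod p) G *ᵥ x ∈ U) ∧ Module.finrank (ZMod p) U ≤ r ∧
        ∃ x ∈ U, x ≠ 0 ∧ (nz x : ℝ) ≤ δ * n) ≤ ε * ng n := by
  have hp0 : 0 < p := (Fact.out : p.Prime).pos
  set c := Nat.clog 2 (8 * p) with hc
  have hc0 : 0 < c := Nat.clog_pos (by norm_num) (by omega)
  have hc0' : (0 : ℝ) < c := by exact_mod_cast hc0
  have hcp : 8 * p ≤ 2 ^ c := Nat.le_pow_clog (by norm_num) _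
  refine ⟨1 / (16 * c), by positivity, fun ε hε => ?_⟩
  obtain ⟨n₁, hn₁⟩ := multOK_large (ε / 2) (half_pos hε)
  set C : ℝ := 2 * p ^ (3 * r) * (4 * 2 ^ 14) ^ r with hC
  have hp0' : (0 : ℝ) < p := by exact_mod_cast hp0
  have hC0 : 0 < C := by positivity
  have hlim := tendsto_pow_const_mul_const_pow_of_abs_lt_one (14 * r)
    (by rw [abs_of_pos (by norm_num)]; norm_num : |(27 / 32 : ℝ)| < 1)
  have hev := hlim.eventually (gt_mem_nhds (by positivity : 0 < ε / (2 * C)))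
  obtain ⟨n₂, hn₂⟩ := Filter.eventually_atTop.1 hev
  refine ⟨n₁ + n₂ + 1, fun n hn => ?_⟩
  set L := Nat.log 2 n + 1 with hL
  set s := n / (16 * c) with hs
  set S : Finset (Fin n → ZMod p) :=
    (Finset.univ : Finset (Fin n → ZMod p)).filter (fun x => nz x ≤ s) with hS
  have hn0 : (0 : ℝ) < n := by exact_mod_cast (by omega : 0 < n)
  -- the number of sparse vectors
  have hScard : (S.card : ℝ) ≤ (27 / 16) ^ n := by
    have h1 := card_sparse_le p n s (8 * p) (by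
      have : (1 : ℝ) ≤ p := by exact_mod_cast hp0
      linarith)
    have h2 : (1 + (p : ℝ) / (8 * p)) = 9 / 8 := by
      field_simp
      norm_num
    have h3 : ((8 : ℝ) * p) ^ s ≤ (3 / 2) ^ n := by
      calc ((8 : ℝ) * p) ^ s ≤ (2 ^ c) ^ s :=
            pow_le_pow_left₀ (by positivity) (by exact_mod_cast hcp) s
        _ = 2 ^ (c * s) := (pow_mul 2 c s).symm
        _ ≤ ((3 / 2) ^ 2) ^ (c * s) := pow_le_pow_left₀ (by norm_num) (by norm_num) _
        _ = (3 / 2) ^ (2 * (c * s)) := (pow_mul _ 2 (c * s)).symm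
        _ ≤ (3 / 2) ^ n := by
            refine pow_le_pow_right₀ (by norm_num) ?_
            have h4 : 16 * c * s ≤ n := Nat.mul_div_le n (16 * c)
            nlinarith
    calc (S.card : ℝ) ≤ ((8 : ℝ) * p) ^ s * (1 + (p : ℝ) / (8 * p)) ^ n := h1
      _ ≤ (3 / 2) ^ n * (9 / 8) ^ n := by
          rw [h2]
          exact mul_le_mul_of_nonneg_right h3 (by positivity)
      _ = (27 / 16) ^ n := by
          rw [← mul_pow]
          norm_num
  -- one vector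
  have hone : ∀ x : Fin n → ZMod p, x ≠ 0 →
      cg n (fun G => KP p r (14 * L + 1) G x) ≤
        2 * p ^ (3 * r) * (4 * (2 * n) ^ 14) ^ r / 2 ^ n * ng n := by
    obtain ⟨k, rfl⟩ : ∃ k, n = k + 1 := ⟨n - 1, by omega⟩
    intro x hx
    have h1 := kry_count p r (14 * L + 1) k x hx
    have h2 : cg (k + 1) (fun G => KP p r (14 * L + 1) G x) * 2 ^ k ≤
        (p : ℝ) ^ (3 * r) * 2 ^ ((r - 1) * (14 * L + 1 + 1)) * ng (k + 1) := by
      rw [cg_eq]
      unfold ng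
      exact_mod_cast h1
    have h3 : (2 : ℝ) ^ ((r - 1) * (14 * L + 1 + 1)) ≤ (4 * (2 * ((k + 1 : ℕ) : ℝ)) ^ 14) ^ r := by
      have h4 : (2 : ℝ) ^ L ≤ 2 * ((k + 1 : ℕ) : ℝ) := by
        have h5 : 2 ^ (Nat.log 2 (k + 1)) ≤ k + 1 := Nat.pow_log_le_self 2 (by omega)
        have h6 : 2 ^ L ≤ 2 * (k + 1) := by
          rw [hL, pow_succ]
          omega
        exact_mod_cast h6
      have h7 : (2 : ℝ) ^ (14 * L + 1 + 1) ≤ 4 * (2 * ((k + 1 : ℕ) : ℝ)) ^ 14 := by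
        have h8 : (2 : ℝ) ^ (14 * L + 1 + 1) = 4 * (2 ^ L) ^ 14 := by
          rw [pow_succ, pow_succ, mul_comm 14 L, pow_mul]
          ring
        rw [h8]
        exact mul_le_mul_of_nonneg_left (pow_le_pow_left₀ (by positivity) h4 14) (by norm_num)
      calc (2 : ℝ) ^ ((r - 1) * (14 * L + 1 + 1)) ≤ 2 ^ (r * (14 * L + 1 + 1)) :=
            pow_le_pow_right₀ (by norm_num) (Nat.mul_le_mul_right _ (Nat.sub_le r 1))
        _ = (2 ^ (14 * L + 1 + 1)) ^ r := by rw [mul_comm, pow_mul]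
        _ ≤ _ := pow_le_pow_left₀ (by positivity) h7 r
    have h9 : cg (k + 1) (fun G => KP p r (14 * L + 1) G x) * 2 ^ k ≤
        (p : ℝ) ^ (3 * r) * (4 * (2 * ((k + 1 : ℕ) : ℝ)) ^ 14) ^ r * ng (k + 1) :=
      h2.trans (mul_le_mul_of_nonneg_right (mul_le_mul_of_nonneg_left h3 (by positivity))
        (ng_pos _).le)
    have h10 : (0 : ℝ) < 2 ^ k := by positivity
    rw [← le_div_iff₀ h10] at h9
    refine h9.trans (le_of_eq ?_)
    have key : ∀ A B N T : ℝ, T ≠ 0 → A * B * N / T = 2 * A * B / (T * 2) * N := by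
      intro A B N T hT
      field_simp
    rw [pow_succ (2 : ℝ) k]
    exact key _ _ _ _ h10.ne'
  -- all together
  have hsub : cg n (fun G => ∃ U : Submodule (ZMod p) (Fin n → ZMod p),
        (∀ x ∈ U, adj (ZMod p) G *ᵥ x ∈ U) ∧ Module.finrank (ZMod p) U ≤ r ∧
        ∃ x ∈ U, x ≠ 0 ∧ (nz x : ℝ) ≤ 1 / (16 * c) * n) ≤
      cg n (fun G => ¬ MultOK (3 * L) (14 * L + 1) G ∨
        ∃ x ∈ S.filter (fun x => x ≠ 0), KP p r (14 * L + 1) G x) := by
    refine cg_mono n fun G hG => ?_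
    obtain ⟨U, hU, hr, x, hxU, hx0, hxs⟩ := hG
    by_cases hm : MultOK (3 * L) (14 * L + 1) G
    · right
      refine ⟨x, ?_, ?_, U, hU, hr, hxU⟩
      · rw [Finset.mem_filter, hS, Finset.mem_filter]
        refine ⟨⟨Finset.mem_univ _, ?_⟩, hx0⟩
        rw [hs, Nat.le_div_iff_mul_le (by omega)]
        have h1 : (nz x : ℝ) * (16 * c) ≤ n := by
          have h2 : (1 : ℝ) / (16 * c) * n = n / (16 * c) := by ring
          rw [h2, le_div_iff₀ (by positivity)] at hxs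
          exact hxs
        exact_mod_cast h1
      · exact fun μ => hm.2 p μ
    · left
      exact hm
  refine hsub.trans ((cg_or n _ _).trans ?_)
  have hA := hn₁ n (by omega)
  have hB : cg n (fun G => ∃ x ∈ S.filter (fun x => x ≠ 0), KP p r (14 * L + 1) G x) ≤
      ε / 2 * ng n := by
    refine (cg_exists n _ _).trans ?_
    have h1 : ∑ x ∈ S.filter (fun x => x ≠ 0), cg n (fun G => KP p r (14 * L + 1) G x) ≤
        ∑ x ∈ S.filter (fun x => x ≠ 0),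
          (2 * p ^ (3 * r) * (4 * (2 * n) ^ 14) ^ r / 2 ^ n * ng n) :=
      Finset.sum_le_sum fun x hx => hone x (Finset.mem_filter.1 hx).2
    refine h1.trans ?_
    rw [Finset.sum_const, nsmul_eq_mul, ← mul_assoc]
    refine mul_le_mul_of_nonneg_right ?_ (ng_pos n).le
    have h2 : ((S.filter (fun x => x ≠ 0)).card : ℝ) ≤ (27 / 16) ^ n := by
      refine le_trans ?_ hScard
      exact_mod_cast Finset.card_le_card (Finset.filter_subset _ _)
    calc ((S.filter (fun x => x ≠ 0)).card : ℝ) *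
          (2 * p ^ (3 * r) * (4 * (2 * n) ^ 14) ^ r / 2 ^ n)
        ≤ (27 / 16) ^ n * (2 * p ^ (3 * r) * (4 * (2 * n) ^ 14) ^ r / 2 ^ n) :=
          mul_le_mul_of_nonneg_right h2 (by positivity)
      _ = C * ((n : ℝ) ^ (14 * r) * (27 / 32) ^ n) := by
          have h3 : (27 / 32 : ℝ) ^ n = (27 / 16) ^ n / 2 ^ n := by
            rw [← div_pow]
            norm_num
          have h4 : (4 * (2 * (n : ℝ)) ^ 14) ^ r = (4 * 2 ^ 14) ^ r * (n : ℝ) ^ (14 * r) := by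
            rw [pow_mul, ← mul_pow]
            congr 1
            ring
          rw [h3, h4, hC]
          ring
      _ ≤ C * (ε / (2 * C)) :=
          mul_le_mul_of_nonneg_left (hn₂ n (by omega)).le hC0.le
      _ = ε / 2 := by
          field_simp
  calc _ ≤ ε / 2 * ng n + ε / 2 * ng n := add_le_add hA hB
    _ = ε * ng n := by ring

end Pool.Agent.H66.DG
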