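import Pool.Agent.H66.DG.Exp
import Pool.Agent.H66.DG.Spa
import Pool.Agent.H66.DG.DatF

/-!
# DG-S09 IS: interface theorem I-S (fixed prime, large exponent)

`interface_S`: for every prime `p`, `r ≥ 1` and `ε > 0` there is `j₀` such that for every `j ≥ j₀` and
`n ≥ n₀(j)` the proportion of the graphs with `Dat p r j G` is at most `ε`.
PROOF.  Let `δ` be as in `sparse_excl p r`; `j₀ ≥ 1` with
`p^(r^2) * 2^(r+3) / (p^j)^r ≤ ε / 2` for `j ≥ j₀` (`r ≥ 1`, `p ≥ 2`).  For given `j ≥ j₀` take `n₀` as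
the maximum of the one in `sparse_excl` (with `ε / 2`), the one in `exp_bound p j r (δ / 2)`, and
`2 / δ`, and `s = ⌊δ n⌋₊ ≥ (δ / 2) n`.  If `Dat p r j G` then either `G` is in the exceptional set of
`sparse_excl` or all nonzero vectors of the invariant subspaces of dimension at most `r` have more
than `δ n ≥ s` nonzero entries, and `dat_to_gd` gives `F` with `Gd (p ^ j) r s G F`.
-/

set_option autoImplicit false

namespace Pool.Agent.H66.DG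

open Matrix Classical Pool.Agent.H66.SP Pool.Agent.H95.SQ Pool.Agent.H71.DG Pool.Agent.H10.DG

theorem interface_S (p r : ℕ) (hp : p.Prime) (hr : 1 ≤ r) (ε : ℝ) (hε : 0 < ε) :
    ∃ j₀ : ℕ, ∀ j : ℕ, j₀ ≤ j → ∃ n₀ : ℕ, ∀ n : ℕ, n₀ ≤ n →
      cg n (fun G => Dat p r j G) ≤ ε * ng n := by
  haveI : Fact p.Prime := ⟨hp⟩
  obtain ⟨δ, hδ, hsp⟩ := sparse_excl p r
  obtain ⟨j1, hj1⟩ := pow_unbounded_of_one_lt ((p : ℝ) ^ (r ^ 2) * 2 ^ (r + 3) * (2 / ε))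
    (by norm_num : (1 : ℝ) < 2)
  refine ⟨max j1 1, fun j hj => ?_⟩
  have hjj : j1 ≤ j := (le_max_left _ _).trans hj
  have hj0 : 1 ≤ j := (le_max_right _ _).trans hj
  obtain ⟨n1, h1⟩ := hsp (ε / 2) (by positivity)
  obtain ⟨n2, h2⟩ := exp_bound p j r hj0 (δ / 2) (by positivity)
  obtain ⟨n3, h3⟩ := exists_nat_ge (2 / δ)
  refine ⟨max n1 (max n2 n3), fun n hn => ?_⟩
  have hn1 : n1 ≤ n := (le_max_left _ _).trans hn
  have hn2 : n2 ≤ n := (le_max_left _ _).trans ((le_max_right _ _).trans hn)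
  have hn3 : n3 ≤ n := (le_max_right _ _).trans ((le_max_right _ _).trans hn)
  have hδn : (0 : ℝ) ≤ δ * n := by positivity
  have hs1 : ((⌊δ * (n : ℝ)⌋₊ : ℕ) : ℝ) ≤ δ * n := Nat.floor_le hδn
  have hs2 : δ * (n : ℝ) < ((⌊δ * (n : ℝ)⌋₊ : ℕ) : ℝ) + 1 := Nat.lt_floor_add_one _
  have hs3 : δ / 2 * (n : ℝ) ≤ ((⌊δ * (n : ℝ)⌋₊ : ℕ) : ℝ) := by
    have h4 : (2 / δ : ℝ) ≤ n := h3.trans (by exact_mod_cast hn3)
    rw [div_le_iff₀ hδ] at h4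
    linarith
  have e1 := h1 n hn1
  have e2 := h2 n hn2 ⌊δ * (n : ℝ)⌋₊ hs3
  have hg := ng_pos n
  have e3 : cg n (fun G => Dat p r j G) ≤
      cg n (fun G => (∃ U : Submodule (ZMod p) (Fin n → ZMod p),
        (∀ x ∈ U, adj (ZMod p) G *ᵥ x ∈ U) ∧ Module.finrank (ZMod p) U ≤ r ∧
        ∃ x ∈ U, x ≠ 0 ∧ (nz x : ℝ) ≤ δ * n) ∨
        ∃ F : Matrix (Fin n) (Fin r) (ZMod (p ^ j)), Gd (p ^ j) r ⌊δ * (n : ℝ)⌋₊ G F) := by
    refine cg_mono n fun G hG => ?_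
    by_cases hU : ∃ U : Submodule (ZMod p) (Fin n → ZMod p),
        (∀ x ∈ U, adj (ZMod p) G *ᵥ x ∈ U) ∧ Module.finrank (ZMod p) U ≤ r ∧
        ∃ x ∈ U, x ≠ 0 ∧ (nz x : ℝ) ≤ δ * n
    · exact Or.inl hU
    · refine Or.inr (dat_to_gd p r j ⌊δ * (n : ℝ)⌋₊ hj0 G ?_ hG)
      intro U hU1 hU2 x hx hx0
      by_contra hcon
      rw [not_lt] at hcon
      refine hU ⟨U, hU1, hU2, x, hx, hx0, ?_⟩
      exact (by exact_mod_cast hcon : (nz x : ℝ) ≤ ((⌊δ * (n : ℝ)⌋₊ : ℕ) : ℝ)).trans hs1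
  have e4 := cg_or n (fun G => (∃ U : Submodule (ZMod p) (Fin n → ZMod p),
        (∀ x ∈ U, adj (ZMod p) G *ᵥ x ∈ U) ∧ Module.finrank (ZMod p) U ≤ r ∧
        ∃ x ∈ U, x ≠ 0 ∧ (nz x : ℝ) ≤ δ * n))
        (fun G => ∃ F : Matrix (Fin n) (Fin r) (ZMod (p ^ j)), Gd (p ^ j) r ⌊δ * (n : ℝ)⌋₊ G F)
  have hp1 : (1 : ℝ) ≤ p := by exact_mod_cast hp.one_lt.le
  have hp2 : (2 : ℝ) ≤ p := by exact_mod_cast hp.two_le
  have e5 : (p : ℝ) ^ (r ^ 2) * 2 ^ (r + 3) / ((p ^ j : ℕ) : ℝ) ^ r ≤ ε / 2 := by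
    have hb : (2 : ℝ) ^ j1 ≤ ((p ^ j : ℕ) : ℝ) ^ r := by
      push_cast
      have a1 : (2 : ℝ) ^ j1 ≤ 2 ^ j := pow_le_pow_right₀ (by norm_num) hjj
      have a2 : (2 : ℝ) ^ j ≤ (p : ℝ) ^ j := pow_le_pow_left₀ (by norm_num) hp2 j
      have a3 : (p : ℝ) ^ j ≤ ((p : ℝ) ^ j) ^ r := by
        have h0 : (1 : ℝ) ≤ (p : ℝ) ^ j := one_le_pow₀ hp1
        calc (p : ℝ) ^ j = ((p : ℝ) ^ j) ^ 1 := (pow_one _).symm
          _ ≤ ((p : ℝ) ^ j) ^ r := pow_le_pow_right₀ h0 hr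
      exact a1.trans (a2.trans a3)
    have hpos : (0 : ℝ) < ((p ^ j : ℕ) : ℝ) ^ r := lt_of_lt_of_le (by positivity) hb
    rw [div_le_iff₀ hpos]
    have h5 : (p : ℝ) ^ (r ^ 2) * 2 ^ (r + 3) * (2 / ε) ≤ ((p ^ j : ℕ) : ℝ) ^ r := hj1.le.trans hb
    calc (p : ℝ) ^ (r ^ 2) * 2 ^ (r + 3)
        = (ε / 2) * ((p : ℝ) ^ (r ^ 2) * 2 ^ (r + 3) * (2 / ε)) := by
          field_simp
      _ ≤ (ε / 2) * ((p ^ j : ℕ) : ℝ) ^ r := by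
          exact mul_le_mul_of_nonneg_left h5 (by positivity)
  have e6 : (p : ℝ) ^ (r ^ 2) * 2 ^ (r + 3) / ((p ^ j : ℕ) : ℝ) ^ r * ng n ≤ ε / 2 * ng n :=
    mul_le_mul_of_nonneg_right e5 hg.le
  have e7 := e3.trans e4
  linarith [e7, e1, e2, e6]

end Pool.Agent.H66.DG
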