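import Pool.Agent.H66.DG.AsmD
import Pool.Agent.H66.DG.IS
import Pool.Agent.H10.DG.P2Fin
import Pool.Agent.H10.DG.Gr

/-!
# Assembly: the fixed primes, the events over pairs, the mates of small level

PROOF.  `ev_S`: for every prime `p ≤ z` and `1 ≤ r < R` `interface_S` (with `ε / ((z + 1) * R)`) gives
`j₀(p, r)`; let `j ≥ 1` be at least all of them, `n₀` at least all the `n₀(p, r, j)`; union bound
(`cg_exists` twice; `cg = 0` for `p` not prime).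
`ev_P`: `ip2`, and `EvP n R' → EvP n R` for `R ≤ R'`.
`ev_K`: `small_result`, and `2^(-n/50) → 0`.
`ev_D`: `id_graph`.  `ev_L`, `ev_C`: `graph_of_pair` with `hL_of`, `hC_of`.
-/

set_option autoImplicit false

namespace Pool.Agent.H66.DG

open Matrix Classical Pool.Agent.H66.SP Pool.Agent.H95.SQ Pool.Agent.H71.DG Pool.Agent.H10.DG
  Pool.Agent.H95.DL

theorem ev_S_zero (n : ℕ) (P : SimpleGraph (Fin n) → Prop) (h : ∀ G, ¬ P G) : cg n P = 0 := by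
  rw [cg_eq, Finset.filter_false_of_mem (fun G _ => h G)]
  simp

/-- one exponent for finitely many data -/
theorem ev_S_fin {ι : Type*} (s : Finset ι) (P : ι → ℕ → ℕ → ℝ → Prop)
    (hP : ∀ i ∈ s, ∀ δ : ℝ, 0 < δ → ∃ j₀ : ℕ, ∀ j : ℕ, j₀ ≤ j → ∃ n₀ : ℕ, ∀ n : ℕ, n₀ ≤ n →
      P i j n δ) (δ : ℝ) (hδ : 0 < δ) :
    ∃ j₀ : ℕ, ∀ j : ℕ, j₀ ≤ j → ∃ n₀ : ℕ, ∀ n : ℕ, n₀ ≤ n → ∀ i ∈ s, P i j n δ := by
  classical
  induction s using Finset.induction_on with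
  | empty => exact ⟨0, fun j _ => ⟨0, fun n _ i hi => absurd hi (Finset.notMem_empty i)⟩⟩
  | insert a s ha ih =>
    obtain ⟨j₁, h1⟩ := ih (fun i hi => hP i (Finset.mem_insert_of_mem hi))
    obtain ⟨j₂, h2⟩ := hP a (Finset.mem_insert_self a s) δ hδ
    refine ⟨j₁ + j₂, fun j hj => ?_⟩
    obtain ⟨n₁, h3⟩ := h1 j (by omega)
    obtain ⟨n₂, h4⟩ := h2 j (by omega)
    refine ⟨n₁ + n₂, fun n hn i hi => ?_⟩
    rcases Finset.mem_insert.1 hi with rfl | hi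
    · exact h4 n (by omega)
    · exact h3 n (by omega) i hi

theorem ev_S (z R : ℕ) (ε : ℝ) (hε : 0 < ε) : ∃ j : ℕ, 1 ≤ j ∧ ∃ n₀ : ℕ, ∀ n : ℕ, n₀ ≤ n →
    cg n (EvS n z R j) ≤ ε * ng n := by
  have hδ : 0 < ε / ((z + 1) * (R + 1)) := by positivity
  obtain ⟨j₀, h⟩ := ev_S_fin (Finset.range (z + 1) ×ˢ Finset.Ico 1 R)
    (fun x j n δ => cg n (fun G => x.1.Prime ∧ Dat x.1 x.2 j G) ≤ δ * ng n) (by
      rintro ⟨p, r⟩ hx δ hδ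
      rw [Finset.mem_product, Finset.mem_Ico] at hx
      by_cases hp : p.Prime
      · obtain ⟨j₀, h⟩ := interface_S p r hp hx.2.1 δ hδ
        refine ⟨j₀, fun j hj => ?_⟩
        obtain ⟨n₀, h1⟩ := h j hj
        exact ⟨n₀, fun n hn => (cg_mono n (fun G hG => hG.2)).trans (h1 n hn)⟩
      · refine ⟨0, fun j _ => ⟨0, fun n _ => ?_⟩⟩
        show cg n (fun G => p.Prime ∧ Dat p r j G) ≤ δ * ng n
        rw [ev_S_zero n _ (fun G hG => hp hG.1)]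
        exact mul_nonneg hδ.le (ng_pos n).le) (ε / ((z + 1) * (R + 1))) hδ
  obtain ⟨n₀, h1⟩ := h (j₀ + 1) (by omega)
  refine ⟨j₀ + 1, by omega, n₀, fun n hn => ?_⟩
  have h2 := h1 n hn
  have h3 : cg n (EvS n z R (j₀ + 1)) ≤ cg n (fun G => ∃ x ∈ Finset.range (z + 1) ×ˢ
      Finset.Ico 1 R, x.1.Prime ∧ Dat x.1 x.2 (j₀ + 1) G) := by
    refine cg_mono n ?_
    rintro G ⟨p, hp, hp2, r, hr, hD⟩
    exact ⟨(p, r), Finset.mem_product.2 ⟨hp, hr⟩, hp2, hD⟩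
  refine h3.trans ((cg_exists n _ _).trans ((Finset.sum_le_sum h2).trans ?_))
  rw [Finset.sum_const, nsmul_eq_mul, Finset.card_product, Finset.card_range, Nat.card_Ico]
  have h4 : (((z + 1) * (R - 1) : ℕ) : ℝ) ≤ (z + 1) * (R + 1) := by
    have : ((R - 1 : ℕ) : ℝ) ≤ R + 1 := by
      have : ((R - 1 : ℕ) : ℝ) ≤ R := by exact_mod_cast Nat.sub_le R 1
      linarith
    push_cast
    exact mul_le_mul_of_nonneg_left this (by positivity)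
  have h5 : 0 ≤ ε / ((z + 1) * (R + 1)) * ng n := mul_nonneg hδ.le (ng_pos n).le
  refine (mul_le_mul_of_nonneg_right h4 h5).trans (le_of_eq ?_)
  have h6 : ((z : ℝ) + 1) * (R + 1) ≠ 0 := by positivity
  field_simp

theorem ev_P (ε : ℝ) (hε : 0 < ε) : ∃ R₀ : ℕ, ∀ R : ℕ, R₀ ≤ R → ∃ n₀ : ℕ, ∀ n : ℕ, n₀ ≤ n →
    cg n (EvP n R) ≤ ε * ng n := by
  obtain ⟨R, n₀, h⟩ := ip2 ε hε
  refine ⟨R, fun R' hR => ⟨n₀, fun n hn => ?_⟩⟩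
  refine (cg_mono n (Q := EvP n R) ?_).trans ?_
  · rintro G ⟨U, hU, h2⟩
    exact ⟨U, hU, hR.trans h2⟩
  · exact cg_le_of n _ _ _ (h n hn)

theorem ev_K (ε : ℝ) (hε : 0 < ε) : ∃ n₀ : ℕ, ∀ n : ℕ, n₀ ≤ n → cg n (EvK n) ≤ ε * ng n := by
  obtain ⟨N, hN⟩ := Pool.Agent.H10.DG.small_result
  have hr : |(2 : ℝ) ^ (-(1 : ℝ) / 50)| < 1 := by
    rw [abs_of_pos (by positivity)]
    exact Real.rpow_lt_one_of_one_lt_of_neg (by norm_num) (by norm_num)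
  obtain ⟨M, hM⟩ := Filter.eventually_atTop.1
    ((tendsto_pow_atTop_nhds_zero_of_abs_lt_one hr).eventually_lt_const hε)
  refine ⟨N + M, fun n hn => ?_⟩
  have h1 := hN n (by omega)
  have h2 := hM n (by omega)
  rw [← Real.rpow_natCast, ← Real.rpow_mul (by norm_num)] at h2
  have h3 : (-(1 : ℝ) / 50 * (n : ℝ)) = -(n : ℝ) / 50 := by ring
  rw [h3] at h2
  have h4 : (Nat.card (SimpleGraph (Fin n)) : ℝ) = ng n := by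
    unfold ng
    rw [Nat.card_eq_fintype_card]
  rw [h4] at h1
  exact h1.trans (mul_le_mul_of_nonneg_right h2.le (ng_pos n).le)

theorem ev_D (ε : ℝ) (hε : 0 < ε) : ∃ n₀ : ℕ, ∀ n : ℕ, n₀ ≤ n → cg n (EvD n) ≤ ε * ng n := by
  obtain ⟨n₀, h⟩ := id_graph ε hε
  refine ⟨n₀, fun n hn => ?_⟩
  exact cg_le_of n _ _ _ (h n hn)

/-- interface I-L -/
def StL : Prop := ∀ ε : ℝ, 0 < ε → ∃ n₀ : ℕ, ∀ n : ℕ, n₀ ≤ n →
  (((Finset.univ : Finset (SimpleGraph (Fin n) × (Fin n → Bool))).filter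
    (fun x => ∃ (p : ℕ) (_ : Fact p.Prime), n ^ 3 < p ∧ ∃ μ : KK p, ∃ w : Fin n → KK p,
      w ≠ 0 ∧ sei (KK p) x.1 *ᵥ w = μ • w ∧ w ⬝ᵥ w = 0 ∧ sv (KK p) x.2 ⬝ᵥ w = 0)).card : ℝ) ≤
    ε * 2 ^ n * (Fintype.card (SimpleGraph (Fin n)) : ℝ)

/-- interface I-L over the complex numbers -/
def StLC : Prop := ∀ ε : ℝ, 0 < ε → ∃ n₀ : ℕ, ∀ n : ℕ, n₀ ≤ n →
  (((Finset.univ : Finset (SimpleGraph (Fin n) × (Fin n → Bool))).filter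
    (fun x => ∃ μ : ℂ, ∃ w : Fin n → ℂ,
      w ≠ 0 ∧ sei ℂ x.1 *ᵥ w = μ • w ∧ sv ℂ x.2 ⬝ᵥ w = 0)).card : ℝ) ≤
    ε * 2 ^ n * (Fintype.card (SimpleGraph (Fin n)) : ℝ)

theorem ev_L (hL : StL) (ε : ℝ) (hε : 0 < ε) : ∃ n₀ : ℕ, ∀ n : ℕ, n₀ ≤ n →
    cg n (EvL n) ≤ ε * ng n := by
  obtain ⟨n₀, h⟩ := hL ε hε
  refine ⟨n₀, fun n hn => ?_⟩
  have h1 := graph_of_pair n (EvL n) (fun G b => ∃ (p : ℕ) (_ : Fact p.Prime), n ^ 3 < p ∧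
    ∃ μ : KK p, ∃ w : Fin n → KK p, w ≠ 0 ∧ sei (KK p) G *ᵥ w = μ • w ∧ w ⬝ᵥ w = 0 ∧
      sv (KK p) b ⬝ᵥ w = 0) (fun G b hG => hL_of (n ^ 3) G b hG) ε (h n hn)
  exact cg_le_of n _ _ _ h1

theorem ev_C (hC : StLC) (ε : ℝ) (hε : 0 < ε) : ∃ n₀ : ℕ, ∀ n : ℕ, n₀ ≤ n →
    cg n (EvC n) ≤ ε * ng n := by
  obtain ⟨n₀, h⟩ := hC ε hε
  refine ⟨n₀, fun n hn => ?_⟩
  have h1 := graph_of_pair n (EvC n) (fun G b => ∃ μ : ℂ, ∃ w : Fin n → ℂ,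
    w ≠ 0 ∧ sei ℂ G *ᵥ w = μ • w ∧ sv ℂ b ⬝ᵥ w = 0) (fun G b hG => hC_of G b hG) ε (h n hn)
  exact cg_le_of n _ _ _ h1

end Pool.Agent.H66.DG
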