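import Pool.Agent.H66.DG.AsmM
import Pool.Agent.H66.DG.AsmS

/-!
# Assembly: almost all graphs are determined by their generalized spectrum
-/

set_option autoImplicit false

namespace Pool.Agent.H66.DG

open Matrix Classical Pool.Agent.H66.SP Pool.Agent.H95.SQ Pool.Agent.H71.DG Pool.Agent.H10.DG
  Pool.Agent.H95.DL

theorem cg_or8 (n : ℕ) (P₁ P₂ P₃ P₄ P₅ P₆ P₇ P₈ : SimpleGraph (Fin n) → Prop) (δ : ℝ)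
    (h1 : cg n P₁ ≤ δ) (h2 : cg n P₂ ≤ δ) (h3 : cg n P₃ ≤ δ) (h4 : cg n P₄ ≤ δ)
    (h5 : cg n P₅ ≤ δ) (h6 : cg n P₆ ≤ δ) (h7 : cg n P₇ ≤ δ) (h8 : cg n P₈ ≤ δ) :
    cg n (fun G => P₁ G ∨ P₂ G ∨ P₃ G ∨ P₄ G ∨ P₅ G ∨ P₆ G ∨ P₇ G ∨ P₈ G) ≤ 8 * δ := by
  have e1 := cg_or n P₁ (fun G => P₂ G ∨ P₃ G ∨ P₄ G ∨ P₅ G ∨ P₆ G ∨ P₇ G ∨ P₈ G)
  have e2 := cg_or n P₂ (fun G => P₃ G ∨ P₄ G ∨ P₅ G ∨ P₆ G ∨ P₇ G ∨ P₈ G)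
  have e3 := cg_or n P₃ (fun G => P₄ G ∨ P₅ G ∨ P₆ G ∨ P₇ G ∨ P₈ G)
  have e4 := cg_or n P₄ (fun G => P₅ G ∨ P₆ G ∨ P₇ G ∨ P₈ G)
  have e5 := cg_or n P₅ (fun G => P₆ G ∨ P₇ G ∨ P₈ G)
  have e6 := cg_or n P₆ (fun G => P₇ G ∨ P₈ G)
  have e7 := cg_or n P₇ (fun G => P₈ G)
  have e8 : cg n (fun G => P₈ G) = cg n P₈ := rfl
  linarith

theorem almost_all (hL : StL) (hC : StLC) (ε : ℝ) (hε : 0 < ε) : ∃ n₀ : ℕ, ∀ n : ℕ, n₀ ≤ n →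
    cg n (fun G => ¬ ∀ H : SimpleGraph (Fin n), GenCo G H → Nonempty (G ≃g H)) ≤ ε * ng n := by
  have hδ : 0 < ε / 8 := by positivity
  obtain ⟨n₁, h1⟩ := ev_C hC (ε / 8) hδ
  obtain ⟨n₂, h2⟩ := ev_L hL (ε / 8) hδ
  obtain ⟨n₃, h3⟩ := ev_D (ε / 8) hδ
  obtain ⟨z, hz, n₄, h4⟩ := ev_M (ε / 8) hδ
  obtain ⟨R₅, hR₅, h5'⟩ := ev_M2 z (ε / 8) hδ
  obtain ⟨R₆, h6'⟩ := ev_P (ε / 8) hδ
  obtain ⟨n₅, h5⟩ := h5' (max R₅ R₆) (le_max_left _ _)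
  obtain ⟨n₆, h6⟩ := h6' (max R₅ R₆) (le_max_right _ _)
  obtain ⟨j, hj, n₇, h7⟩ := ev_S z (max R₅ R₆) (ε / 8) hδ
  obtain ⟨n₈, h8⟩ := ev_K (ε / 8) hδ
  set B : ℕ := ∏ p ∈ (Finset.range (z + 1)).filter Nat.Prime, p ^ (max R₅ R₆ * j) with hB
  refine ⟨n₁ + n₂ + n₃ + n₄ + n₅ + n₆ + n₇ + n₈ + z + 2 + (10 * B) ^ 2, fun n hn => ?_⟩
  have hB2 : (10 * B) ^ 2 ≤ n := by omega
  have hlog : 1 ≤ Nat.log 2 n := Nat.le_log_of_pow_le (by norm_num) (by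
    have : 2 ≤ n := by omega
    simpa using this)
  have hcube : n ≤ n ^ 3 := Nat.le_self_pow (by norm_num) n
  refine (cg_mono n (Q := fun G => EvC n G ∨ EvL n G ∨ EvD n G ∨ EvM n z G ∨
    EvM2 n z (max R₅ R₆) G ∨ EvP n (max R₅ R₆) G ∨ EvS n z (max R₅ R₆) j G ∨ EvK n G) ?_).trans ?_
  · intro G hG
    by_contra hc
    push Not at hc
    obtain ⟨a1, a2, a3, a4, a5, a6, a7, a8⟩ := hc
    apply hG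
    intro H hGH
    refine asm_det n z (max R₅ R₆) j hz (by omega) hj (by omega) ?_ G a1 a2 a3 a4 a5 a6 a7 a8 H hGH
    rw [← hB, le_div_iff₀ (by norm_num)]
    apply Real.le_sqrt_of_sq_le
    have : (((10 * B) ^ 2 : ℕ) : ℝ) ≤ n := by exact_mod_cast hB2
    push_cast at this
    nlinarith
  · have h := cg_or8 n _ _ _ _ _ _ _ _ (ε / 8 * ng n) (h1 n (by omega)) (h2 n (by omega))
      (h3 n (by omega)) (h4 n (by omega)) (h5 n (by omega)) (h6 n (by omega)) (h7 n (by omega))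
      (h8 n (by omega))
    refine h.trans (le_of_eq ?_)
    ring

end Pool.Agent.H66.DG
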