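import Pool.Agent.H66.DG.AsmD
import Pool.Agent.H10.DG.EvMle
import Pool.Agent.H10.DG.EvRle

/-!
# Assembly: sums over the odd primes `≤ n ^ 3`

`ev_M`, `ev_M2` from `evM_le`, `evR_le` of helper10.
-/

set_option autoImplicit false

namespace Pool.Agent.H66.DG

open Matrix Classical Pool.Agent.H66.SP Pool.Agent.H95.SQ

open Pool.Agent.H10.DG (Ob evM_le evR_le)

theorem ev_M (ε : ℝ) (hε : 0 < ε) : ∃ z : ℕ, 2 ≤ z ∧ ∃ n₀ : ℕ, ∀ n : ℕ, n₀ ≤ n →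
    cg n (EvM n z) ≤ ε * ng n := by
  obtain ⟨z, hz, n₀, h⟩ := evM_le ε hε
  refine ⟨z, hz, n₀, fun n hn => (cg_mono n ?_).trans (h n hn)⟩
  rintro G ⟨p, hp, hpp, -, d, hd, U, hU, hUd⟩
  rw [Finset.mem_Ioc] at hp
  rw [Finset.mem_Icc] at hd
  exact ⟨p, ⟨hpp⟩, hp.1, hp.2, U, hU, by omega, by omega⟩

theorem ev_M2 (z : ℕ) (ε : ℝ) (hε : 0 < ε) : ∃ R₀ : ℕ, 1 ≤ R₀ ∧ ∀ R : ℕ, R₀ ≤ R →
    ∃ n₀ : ℕ, ∀ n : ℕ, n₀ ≤ n → cg n (EvM2 n z R) ≤ ε * ng n := by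
  obtain ⟨R₀, h⟩ := evR_le z ε hε
  refine ⟨R₀ + 1, by omega, fun R hRR => ?_⟩
  obtain ⟨n₀, h1⟩ := h R (by omega)
  refine ⟨n₀, fun n hn => (cg_mono n ?_).trans (h1 n hn)⟩
  rintro G ⟨p, hp, hpp, hp2, d, hd, U, hU, hUd⟩
  rw [Finset.mem_range] at hp
  rw [Finset.mem_Ico] at hd
  exact ⟨p, ⟨hpp⟩, hp2, by omega, U, hU, by omega, by omega⟩

end Pool.Agent.H66.DG
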