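import Pool.Agent.H66.DG.Defs
import Pool.Agent.H71.DG.Four

/-!
# DG-S01 Cos: the local bound in terms of the number of bad pairs

`kap N = exp (-2 / N ^ 2)`.  For `x ≠ 0` in `ZMod N`: `nn x ≥ 1 / N ^ 2` (`x.valMinAbs ≠ 0`), so
`exp (-2 nn x) ≤ kap N`.  `graph_kap`: from `four_le` (`cnt` is the number of graphs; `cg_eq`): the
factors of the product over `nd V` with `pr F X e = 0` are at most `1` and the `nbu X F` other ones
are at most `kap N`.
-/

set_option autoImplicit false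

namespace Pool.Agent.H66.DG

open Matrix Classical Pool.Agent.H66.SP Pool.Agent.H95.SQ Pool.Agent.H71.DG

/-- `exp (-2 / N ^ 2)` -/
noncomputable def kap (N : ℕ) : ℝ := Real.exp (-2 / (N : ℝ) ^ 2)

theorem kap_pos (N : ℕ) : 0 < kap N := Real.exp_pos _

theorem kap_lt_one (N : ℕ) (hN : 1 ≤ N) : kap N < 1 := by
  unfold kap
  rw [Real.exp_lt_one_iff]
  have h : (0 : ℝ) < N := by exact_mod_cast hN
  have h2 : (0 : ℝ) < 2 / (N : ℝ) ^ 2 := by positivity
  rw [neg_div]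
  linarith

theorem exp_nn_le_kap (N : ℕ) [NeZero N] (x : ZMod N) (hx : x ≠ 0) :
    Real.exp (-2 * nn x) ≤ kap N := by
  unfold kap
  rw [Real.exp_le_exp]
  have hN : (0 : ℝ) < N := by exact_mod_cast Nat.pos_of_ne_zero (NeZero.ne N)
  have h1 : 1 ≤ x.valMinAbs.natAbs := by
    rw [Nat.one_le_iff_ne_zero, Ne, Int.natAbs_eq_zero, ZMod.valMinAbs_eq_zero]
    exact hx
  have h2 : (1 : ℝ) ≤ (x.valMinAbs.natAbs : ℝ) := by exact_mod_cast h1
  rw [nn_eq_natAbs, div_pow]
  have h3 : (1 : ℝ) / (N : ℝ) ^ 2 ≤ (x.valMinAbs.natAbs : ℝ) ^ 2 / (N : ℝ) ^ 2 := by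
    apply div_le_div_of_nonneg_right _ (by positivity)
    nlinarith
  have h4 : (-2 : ℝ) / (N : ℝ) ^ 2 = -2 * (1 / (N : ℝ) ^ 2) := by ring
  rw [h4]
  linarith

theorem Cos_card {T : Type*} (i1 : Fintype T) (P : T → Prop) (d : DecidablePred P) :
    (@Finset.filter T P d (@Finset.univ T i1)).card = Nat.card {x // P x} := by
  rw [Nat.card_eq_fintype_card, Fintype.card_subtype]

theorem Cos_inst {T : Type*} (i1 i2 : Fintype T) :
    @Fintype.card T i1 = @Fintype.card T i2 := by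
  rw [Subsingleton.elim i1 i2]

theorem Cos_cg (N r n : ℕ) (F Y : Matrix (Fin n) (Fin r) (ZMod N)) :
    cg n (fun G => adj (ZMod N) G * F = Y) = (cnt F Y : ℝ) := by
  unfold cg cnt
  rw [Cos_card]

theorem graph_kap (N r n : ℕ) [NeZero N] (F Y : Matrix (Fin n) (Fin r) (ZMod N)) :
    cg n (fun G => adj (ZMod N) G * F = Y) ≤
      ng n / (N : ℝ) ^ (r * n) * ∑ X : Matrix (Fin n) (Fin r) (ZMod N), kap N ^ (nbu X F) := by
  have hN : (0 : ℝ) < N := by exact_mod_cast Nat.pos_of_ne_zero (NeZero.ne N)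
  have h1 := Cos_cg N r n F Y
  have h2 := four_le F Y
  rw [Fintype.card_fin, ← pow_mul] at h2
  have h3 : ∀ X : Matrix (Fin n) (Fin r) (ZMod N),
      ∏ e ∈ nd (Fin n), Real.exp (-2 * nn (pr F X e)) ≤ kap N ^ (nbu X F) := by
    intro X
    have h4 : kap N ^ (nbu X F) =
        ∏ e ∈ nd (Fin n), (if pr F X e ≠ 0 then kap N else 1) := by
      unfold nbu
      rw [← Finset.prod_filter, Finset.prod_const]
    rw [h4]
    refine Finset.prod_le_prod (fun e _ => (Real.exp_pos _).le) (fun e _ => ?_)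
    by_cases he : pr F X e = 0
    · rw [if_neg (not_not.2 he), he, nn_zero, mul_zero, Real.exp_zero]
    · rw [if_pos he]
      exact exp_nn_le_kap N _ he
  rw [h1]
  have h5 : (0 : ℝ) < (N : ℝ) ^ (r * n) := by positivity
  rw [div_mul_eq_mul_div, le_div_iff₀ h5]
  refine h2.trans ?_
  unfold ng
  refine (mul_le_mul_of_nonneg_left (Finset.sum_le_sum fun X _ => h3 X) (Nat.cast_nonneg _)).trans
    (le_of_eq ?_)
  exact congrArg (fun k : ℕ => (k : ℝ) *
    ∑ X : Matrix (Fin n) (Fin r) (ZMod N), kap N ^ (nbu X F)) (Cos_inst _ _)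

end Pool.Agent.H66.DG
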