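import Pool.Agent.H71.DG.Defs
import Pool.Agent.H10.DG.Defs

/-!
# Almost all graphs are determined by their generalized spectrum: definitions for the fixed primes

(The base definitions are those of `H71/DG/Defs` : `nn`, `cnt`, `pr`, `nd`, `anti`, and of
`H10/DG/Defs` : `Ob`, `Ob2`, `Dat`.)
`DenseF N r s F`: every nontrivial combination of the `r` columns of `F` has more than `s` nonzero
entries.  `nbu X F`: the number of unordered pairs `{u, v}` of different vertices with
`X u . F v + X v . F u ≠ 0`; `nbo X F`: the number of ordered ones.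
`Anti N r`: the matrices with `L + Lᵀ = 0`.  `ng n` the number of all graphs on `n` vertices,
`cg n P` the number of those with property `P`, as real numbers.
-/

set_option autoImplicit false

namespace Pool.Agent.H66.DG

open Matrix Classical Pool.Agent.H66.SP Pool.Agent.H95.SQ Pool.Agent.H71.DG

/-- every nontrivial combination of the columns of `F` has more than `s` nonzero entries -/
def DenseF (N r s : ℕ) {V : Type*} [Fintype V] (F : Matrix V (Fin r) (ZMod N)) : Prop :=
  ∀ c : Fin r → ZMod N, c ≠ 0 → s < nz (F *ᵥ c)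

/-- number of ordered pairs of different vertices with `X u . F v + X v . F u ≠ 0` -/
noncomputable def nbo {N r : ℕ} {V : Type*} [Fintype V] (X F : Matrix V (Fin r) (ZMod N)) : ℕ :=
  ((Finset.univ : Finset (V × V)).filter
    (fun e => e.1 ≠ e.2 ∧ X e.1 ⬝ᵥ F e.2 + X e.2 ⬝ᵥ F e.1 ≠ 0)).card

/-- number of unordered pairs of different vertices with `X u . F v + X v . F u ≠ 0` -/
noncomputable def nbu {N r : ℕ} {V : Type*} [Fintype V] (X F : Matrix V (Fin r) (ZMod N)) : ℕ :=
  ((nd V).filter (fun e => pr F X e ≠ 0)).card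

/-- the matrices with `L + Lᵀ = 0` -/
noncomputable def Anti (N r : ℕ) [NeZero N] : Finset (Matrix (Fin r) (Fin r) (ZMod N)) :=
  Finset.univ.filter (fun L => L + Lᵀ = 0)

/-- the number of labelled graphs on `n` vertices -/
noncomputable def ng (n : ℕ) : ℝ := (Fintype.card (SimpleGraph (Fin n)) : ℝ)

/-- the number of labelled graphs on `n` vertices with property `P` -/
noncomputable def cg (n : ℕ) (P : SimpleGraph (Fin n) → Prop) : ℝ :=
  (Nat.card {G : SimpleGraph (Fin n) // P G} : ℝ)

/-- `cg` as the cardinality of a filtered finset, for every decidability instance -/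
theorem cg_eq (n : ℕ) (P : SimpleGraph (Fin n) → Prop) [DecidablePred P] :
    cg n P = (((Finset.univ : Finset (SimpleGraph (Fin n))).filter P).card : ℝ) := by
  unfold cg
  rw [Nat.card_eq_fintype_card, Fintype.card_subtype]

theorem cg_nonneg (n : ℕ) (P : SimpleGraph (Fin n) → Prop) : 0 ≤ cg n P := Nat.cast_nonneg _

theorem ng_pos (n : ℕ) : 0 < ng n := by
  unfold ng
  exact_mod_cast Fintype.card_pos

theorem cg_mono (n : ℕ) {P Q : SimpleGraph (Fin n) → Prop} (h : ∀ G, P G → Q G) :
    cg n P ≤ cg n Q := by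
  rw [cg_eq, cg_eq]
  exact_mod_cast Finset.card_le_card (fun G hG => by
    rw [Finset.mem_filter] at hG ⊢
    exact ⟨hG.1, h G hG.2⟩)

theorem cg_le_ng (n : ℕ) (P : SimpleGraph (Fin n) → Prop) : cg n P ≤ ng n := by
  rw [cg_eq]
  unfold ng
  exact_mod_cast Finset.card_le_univ _

theorem cg_exists (n : ℕ) {ι : Type*} (s : Finset ι) (P : ι → SimpleGraph (Fin n) → Prop) :
    cg n (fun G => ∃ i ∈ s, P i G) ≤ ∑ i ∈ s, cg n (P i) := by
  rw [cg_eq]
  have h : ((Finset.univ : Finset (SimpleGraph (Fin n))).filter
      (fun G => ∃ i ∈ s, P i G)).card ≤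
      (s.biUnion (fun i => (Finset.univ : Finset (SimpleGraph (Fin n))).filter (P i))).card := by
    refine Finset.card_le_card fun G hG => ?_
    rw [Finset.mem_filter] at hG
    obtain ⟨i, hi, h⟩ := hG.2
    rw [Finset.mem_biUnion]
    exact ⟨i, hi, by rw [Finset.mem_filter]; exact ⟨hG.1, h⟩⟩
  have h2 : (((Finset.univ : Finset (SimpleGraph (Fin n))).filter
      (fun G => ∃ i ∈ s, P i G)).card : ℝ) ≤
      ((∑ i ∈ s, ((Finset.univ : Finset (SimpleGraph (Fin n))).filter (P i)).card : ℕ) : ℝ) := by
    exact_mod_cast h.trans Finset.card_biUnion_le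
  refine h2.trans (le_of_eq ?_)
  push_cast
  exact Finset.sum_congr rfl fun i _ => (cg_eq n (P i)).symm

theorem cg_or (n : ℕ) (P Q : SimpleGraph (Fin n) → Prop) :
    cg n (fun G => P G ∨ Q G) ≤ cg n P + cg n Q := by
  have h := cg_exists n (Finset.univ : Finset Bool) (fun i G => if i = true then P G else Q G)
  have h2 : cg n (fun G => P G ∨ Q G) ≤
      cg n (fun G => ∃ i ∈ (Finset.univ : Finset Bool), if i = true then P G else Q G) := by
    refine cg_mono n fun G hG => ?_
    rcases hG with h | h
    · exact ⟨true, Finset.mem_univ _, by simpa using h⟩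
    · exact ⟨false, Finset.mem_univ _, by simpa using h⟩
  refine (h2.trans h).trans (le_of_eq ?_)
  simp

end Pool.Agent.H66.DG
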