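import Pool.Agent.H66.DG.Defs

/-!
# DG-S06 Mul: every bad graph has many `F`

`Gd G F` (good data): `F` dense with parameter `s`, `Fᵀ F = 0` and `A F = F θ` for some `θ`.
`card_good_ge`: if `Gd` holds for one `F` then the number of `F'` with `Gd` is at least
`p ^ ((j - 1) r ^ 2)`.
PROOF.  `R = ZMod (p ^ j)`.  For a matrix `h` over `R` put `g = 1 + p h` (`p • h`).  `p h` is
nilpotent (`(p h) ^ j = p ^ j h ^ j = 0`, scalar matrices commute), so `g` is invertible
(`IsNilpotent.isUnit_one_add`).  `F g` is again good: `(F g) c = F (g c)` and `g c ≠ 0` if `c ≠ 0`;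
`(F g)ᵀ (F g) = gᵀ (Fᵀ F) g = 0`; `A (F g) = F θ g = (F g) (g⁻¹ θ g)`.  `F g = F g'` implies
`F ((g - g') e_a) = 0` for all unit vectors `e_a`, so `g = g'` by density.  The number of matrices
of the form `1 + p h` is the number of different `p h`, that is `(p ^ (j - 1)) ^ (r ^ 2)`: the
elements `p x` of `ZMod (p ^ j)`, `j ≥ 1`, are the classes of `p k`, `0 ≤ k < p ^ (j - 1)`, all
different; use the injection `(Fin r → Fin r → Fin (p ^ (j - 1))) → Matrix`,
`k ↦ F * (1 + fun a b => ((p * k a b : ℕ) : R))`.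
-/

set_option autoImplicit false

namespace Pool.Agent.H66.DG

open Matrix Classical Pool.Agent.H66.SP Pool.Agent.H95.SQ Pool.Agent.H71.DG

/-- good data -/
def Gd (N r s : ℕ) {V : Type*} [Fintype V] (G : SimpleGraph V) (F : Matrix V (Fin r) (ZMod N)) :
    Prop :=
  DenseF N r s F ∧ Fᵀ * F = 0 ∧ ∃ θ : Matrix (Fin r) (Fin r) (ZMod N), adj (ZMod N) G * F = F * θ

theorem Mul_unit (p j r : ℕ) [NeZero (p ^ j)] (M : Matrix (Fin r) (Fin r) (ZMod (p ^ j))) :
    IsUnit (1 + (p : ZMod (p ^ j)) • M) := by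
  apply IsNilpotent.isUnit_one_add
  refine ⟨j, ?_⟩
  rw [smul_pow]
  have h : (p : ZMod (p ^ j)) ^ j = 0 := by
    rw [← Nat.cast_pow, ZMod.natCast_self]
  rw [h, zero_smul]

theorem Mul_good {N r s : ℕ} {V : Type*} [Fintype V] [DecidableEq V] (G : SimpleGraph V)
    (F : Matrix V (Fin r) (ZMod N)) (hF : Gd N r s G F) (g : Matrix (Fin r) (Fin r) (ZMod N))
    (hg : IsUnit g) : Gd N r s G (F * g) := by
  obtain ⟨h1, h2, θ, h3⟩ := hF
  obtain ⟨u, rfl⟩ := hg
  have hu1 : ((u⁻¹ : (Matrix (Fin r) (Fin r) (ZMod N))ˣ) : Matrix (Fin r) (Fin r) (ZMod N)) *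
      (u : Matrix (Fin r) (Fin r) (ZMod N)) = 1 := Units.inv_mul u
  have hu2 : (u : Matrix (Fin r) (Fin r) (ZMod N)) *
      ((u⁻¹ : (Matrix (Fin r) (Fin r) (ZMod N))ˣ) : Matrix (Fin r) (Fin r) (ZMod N)) = 1 :=
    Units.mul_inv u
  refine ⟨fun c hc => ?_, ?_,
    ((u⁻¹ : (Matrix (Fin r) (Fin r) (ZMod N))ˣ) : Matrix (Fin r) (Fin r) (ZMod N)) * (θ * u), ?_⟩
  · rw [← Matrix.mulVec_mulVec]
    apply h1
    intro h
    apply hc
    have h4 : ((u⁻¹ : (Matrix (Fin r) (Fin r) (ZMod N))ˣ) : Matrix (Fin r) (Fin r) (ZMod N)) *ᵥ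
        ((u : Matrix (Fin r) (Fin r) (ZMod N)) *ᵥ c) = 0 := by
      rw [h, Matrix.mulVec_zero]
    rwa [Matrix.mulVec_mulVec, hu1, Matrix.one_mulVec] at h4
  · rw [Matrix.transpose_mul, Matrix.mul_assoc, ← Matrix.mul_assoc Fᵀ F, h2, Matrix.zero_mul,
      Matrix.mul_zero]
  · rw [← Matrix.mul_assoc, h3, Matrix.mul_assoc F θ, Matrix.mul_assoc F,
      ← Matrix.mul_assoc (u : Matrix (Fin r) (Fin r) (ZMod N)), hu2, Matrix.one_mul]

theorem card_good_ge (p j r s : ℕ) [Fact p.Prime] [NeZero (p ^ j)] (hj : 1 ≤ j) {V : Type*}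
    [Fintype V] [DecidableEq V] (G : SimpleGraph V) (F : Matrix V (Fin r) (ZMod (p ^ j)))
    (hF : Gd (p ^ j) r s G F) :
    (p ^ (j - 1)) ^ (r ^ 2) ≤
      ((Finset.univ : Finset (Matrix V (Fin r) (ZMod (p ^ j)))).filter
        (fun F' => Gd (p ^ j) r s G F')).card := by
  have hpp : p.Prime := Fact.out
  set Hk : (Fin r → Fin r → Fin (p ^ (j - 1))) → Matrix (Fin r) (Fin r) (ZMod (p ^ j)) :=
    fun k => fun a b => ((k a b : ℕ) : ZMod (p ^ j)) with hHk
  have hcard : (p ^ (j - 1)) ^ (r ^ 2) =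
      (Finset.univ : Finset (Fin r → Fin r → Fin (p ^ (j - 1)))).card := by
    rw [Finset.card_univ, Fintype.card_fun, Fintype.card_fun, Fintype.card_fin, Fintype.card_fin,
      ← pow_mul, ← pow_mul, ← pow_mul, sq]
  rw [hcard]
  apply Finset.card_le_card_of_injOn (fun k => F * (1 + (p : ZMod (p ^ j)) • Hk k))
  · intro k _
    simp only [Finset.coe_filter, Finset.mem_univ, true_and, Set.mem_ofPred_eq]
    exact Mul_good G F hF _ (Mul_unit p j r (Hk k))
  · intro k _ k' _ h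
    have h1 : F * (1 + (p : ZMod (p ^ j)) • Hk k) = F * (1 + (p : ZMod (p ^ j)) • Hk k') := h
    have h2 : F * ((p : ZMod (p ^ j)) • Hk k - (p : ZMod (p ^ j)) • Hk k') = 0 := by
      rw [Matrix.mul_add, Matrix.mul_add] at h1
      rw [Matrix.mul_sub, sub_eq_zero]
      exact add_left_cancel h1
    have h3 : ∀ b, (fun a => ((p : ZMod (p ^ j)) • Hk k - (p : ZMod (p ^ j)) • Hk k') a b) = 0 := by
      intro b
      by_contra hb
      have h4 := hF.1 _ hb
      have h5 : F *ᵥ (fun a => ((p : ZMod (p ^ j)) • Hk k - (p : ZMod (p ^ j)) • Hk k') a b) =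
          0 := by
        funext v
        have h6 := congrFun (congrFun h2 v) b
        rw [Matrix.mul_apply] at h6
        exact h6
      rw [h5, nz_zero] at h4
      omega
    funext a b
    have h4 := congrFun (h3 b) a
    have h5 : (p : ZMod (p ^ j)) * ((k a b : ℕ) : ZMod (p ^ j)) =
        (p : ZMod (p ^ j)) * ((k' a b : ℕ) : ZMod (p ^ j)) := by
      have h6 : (p : ZMod (p ^ j)) * ((k a b : ℕ) : ZMod (p ^ j)) -
        (p : ZMod (p ^ j)) * ((k' a b : ℕ) : ZMod (p ^ j)) = 0 := h4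
      exact sub_eq_zero.1 h6
    have hlt : ∀ x : Fin (p ^ (j - 1)), p * (x : ℕ) < p ^ j := by
      intro x
      have hj2 : p ^ j = p * p ^ (j - 1) := by
        rw [← pow_succ']
        congr 1
        omega
      rw [hj2]
      exact Nat.mul_lt_mul_of_pos_left x.2 hpp.pos
    have h7 : ((p * (k a b : ℕ) : ℕ) : ZMod (p ^ j)) = ((p * (k' a b : ℕ) : ℕ) : ZMod (p ^ j)) := by
      rw [Nat.cast_mul, Nat.cast_mul]
      exact h5
    have h8 := (ZMod.natCast_eq_natCast_iff' _ _ _).1 h7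
    rw [Nat.mod_eq_of_lt (hlt _), Nat.mod_eq_of_lt (hlt _)] at h8
    exact Fin.ext (Nat.eq_of_mul_eq_mul_left hpp.pos h8)

end Pool.Agent.H66.DG
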