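import Pool.Agent.H66.DG.Defs
import Pool.Agent.H95.SQ.HalB

/-!
# DG-S05 Quad: the number of isotropic `F : V → (Z / N)^r`, `N, r` fixed

`quad_count`: for fixed `N ≥ 1`, `r` and `n ≥ n₀`:
`#{F | Fᵀ F = 0} ≤ 2 (N ^ r) ^ n / N ^ ((r + 1).choose 2)`.
PROOF.  Let `ψ = ZMod.stdAddChar`.  `Fᵀ F = 0` is the set of equations `∑_v F v a * F v b = 0` for
the pairs `a ≤ b` (the other ones are symmetric); there are `(r + 1).choose 2` of them.  For
coefficients `c` on the pairs `a ≤ b` put `q_c(x) = ∑_{a ≤ b} c a b * x a * x b`,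
`x : Fin r → ZMod N`.  Orthogonality of characters gives
`N ^ ((r + 1).choose 2) * #{F | Fᵀ F = 0} = ∑_c (∑_x ψ (q_c x)) ^ n`.
The term `c = 0` is `(N ^ r) ^ n`.  For `c ≠ 0` the function `q_c` is not identically zero: if
`c a a ≠ 0` take `x = e_a`; if all `c a a = 0` and `c a b ≠ 0`, `a < b`, take `x = e_a + e_b`.  As
`q_c 0 = 0`, not all the `ψ (q_c x)` are equal (`ZMod.stdAddChar` is injective), so
`|∑_x ψ (q_c x)| < N ^ r` (two unit vectors which are different have a sum of absolute value `< 2`;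
or use strict convexity).  As there are finitely many `c`, there is `ρ < N ^ r` with
`|∑_x ψ (q_c x)| ≤ ρ` for all `c ≠ 0`, so the sum over `c ≠ 0` is at most
`N ^ ((r + 1).choose 2) ρ ^ n ≤ (N ^ r) ^ n` for large `n`.
-/

set_option autoImplicit false

namespace Pool.Agent.H66.DG

open Matrix Classical Pool.Agent.H66.SP Pool.Agent.H95.SQ Pool.Agent.H71.DG

theorem norm_sum_unit_lt {ι : Type*} [Fintype ι] (f : ι → ℂ) (hf : ∀ i, ‖f i‖ = 1) (i j : ι)
    (hij : f i ≠ f j) : ‖∑ k, f k‖ < Fintype.card ι := by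
  have hne : j ≠ i := fun h => hij (by rw [h])
  have hlt : ‖f i + f j‖ < 2 := by
    have h := norm_add_lt_of_not_sameRay
      ((not_sameRay_iff_of_norm_eq ((hf i).trans (hf j).symm)).mpr hij)
    rw [hf i, hf j] at h
    linarith
  have hsum : ∑ k, f k = (f i + f j) + ∑ k ∈ (Finset.univ.erase i).erase j, f k := by
    rw [add_assoc, Finset.add_sum_erase _ _ (Finset.mem_erase.mpr ⟨hne, Finset.mem_univ j⟩),
      Finset.add_sum_erase _ _ (Finset.mem_univ i)]
  have hcard : ((Finset.univ.erase i).erase j).card + 2 = Fintype.card ι := by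
    rw [Finset.card_erase_of_mem (Finset.mem_erase.mpr ⟨hne, Finset.mem_univ j⟩),
      Finset.card_erase_of_mem (Finset.mem_univ i), Finset.card_univ]
    have h2 : 1 < Fintype.card ι := Fintype.one_lt_card_iff.mpr ⟨j, i, hne⟩
    omega
  have hrest : ‖∑ k ∈ (Finset.univ.erase i).erase j, f k‖ ≤
      (((Finset.univ.erase i).erase j).card : ℝ) := by
    refine (norm_sum_le _ _).trans (le_of_eq ?_)
    rw [Finset.sum_congr rfl fun k _ => hf k]
    simp
  have hc : (Fintype.card ι : ℝ) = (((Finset.univ.erase i).erase j).card : ℝ) + 2 := by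
    exact_mod_cast hcard.symm
  rw [hsum, hc]
  have := norm_add_le (f i + f j) (∑ k ∈ (Finset.univ.erase i).erase j, f k)
  linarith

/-- orthogonality of characters -/
theorem quad_char_sum (N : ℕ) [NeZero N] {ι : Type*} [Fintype ι] [DecidableEq ι]
    (z : ι → ZMod N) :
    ∑ ξ : ι → ZMod N, (ZMod.stdAddChar (N := N)) (∑ a, ξ a * z a) =
      if ∀ a, z a = 0 then (N : ℂ) ^ (Fintype.card ι) else 0 := by
  have h1 : ∀ ξ : ι → ZMod N, (ZMod.stdAddChar (N := N)) (∑ a, ξ a * z a) =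
      ∏ a, (ZMod.stdAddChar (N := N)) (ξ a * z a) := by
    intro ξ
    exact halB_map_sum N Finset.univ _
  have h2 : ∑ ξ : ι → ZMod N, ∏ a, (ZMod.stdAddChar (N := N)) (ξ a * z a) =
      ∏ a, ∑ y : ZMod N, (ZMod.stdAddChar (N := N)) (y * z a) := by
    rw [Finset.prod_univ_sum, Fintype.piFinset_univ]
  rw [Finset.sum_congr rfl fun ξ _ => h1 ξ, h2]
  have h3 : ∀ a, ∑ y : ZMod N, (ZMod.stdAddChar (N := N)) (y * z a) =
      if z a = 0 then (N : ℂ) else 0 := by
    intro a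
    rw [AddChar.sum_mulShift (z a) (ZMod.isPrimitive_stdAddChar N)]
    rw [ZMod.card]
    split_ifs <;> simp
  rw [Finset.prod_congr rfl fun a _ => h3 a]
  split_ifs with h
  · rw [Finset.prod_congr rfl fun a _ => if_pos (h a)]
    simp
  · push Not at h
    obtain ⟨a, ha⟩ := h
    exact Finset.prod_eq_zero (Finset.mem_univ a) (if_neg ha)

theorem quad_card_pairs (r : ℕ) :
    Fintype.card {e : Fin r × Fin r // e.1 ≤ e.2} = (r + 1).choose 2 := by
  have h := Fintype.card_congr (Sym2.sortEquiv (α := Fin r))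
  rw [Sym2.card, Fintype.card_fin] at h
  rw [h]

theorem quad_iff {N r n : ℕ} (F : Matrix (Fin n) (Fin r) (ZMod N)) :
    Fᵀ * F = 0 ↔ ∀ e : {e : Fin r × Fin r // e.1 ≤ e.2}, ∑ v, F v e.1.1 * F v e.1.2 = 0 := by
  constructor
  · intro h e
    have h1 := congrFun (congrFun h e.1.1) e.1.2
    rw [Matrix.mul_apply] at h1
    exact h1
  · intro h
    ext a b
    rw [Matrix.mul_apply]
    show ∑ v, F v a * F v b = 0
    rcases le_total a b with hab | hab
    · exact h ⟨(a, b), hab⟩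
    · rw [← h ⟨(b, a), hab⟩]
      exact Finset.sum_congr rfl fun v _ => mul_comm _ _

theorem quad_fourier (N r n : ℕ) [NeZero N] :
    (((Finset.univ : Finset (Matrix (Fin n) (Fin r) (ZMod N))).filter
        (fun F => Fᵀ * F = 0)).card : ℂ) * (N : ℂ) ^ ((r + 1).choose 2) =
      ∑ c : {e : Fin r × Fin r // e.1 ≤ e.2} → ZMod N,
        (∑ x : Fin r → ZMod N,
          (ZMod.stdAddChar (N := N)) (∑ e, c e * (x e.1.1 * x e.1.2))) ^ n := by
  have h1 : ∀ F : Matrix (Fin n) (Fin r) (ZMod N),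
      ∑ c : {e : Fin r × Fin r // e.1 ≤ e.2} → ZMod N,
        (ZMod.stdAddChar (N := N)) (∑ e, c e * ∑ v, F v e.1.1 * F v e.1.2) =
      if Fᵀ * F = 0 then (N : ℂ) ^ ((r + 1).choose 2) else 0 := by
    intro F
    rw [quad_char_sum N (fun e : {e : Fin r × Fin r // e.1 ≤ e.2} =>
      ∑ v, F v e.1.1 * F v e.1.2), quad_card_pairs]
    by_cases h : Fᵀ * F = 0
    · rw [if_pos h, if_pos ((quad_iff F).mp h)]
    · rw [if_neg h, if_neg fun h' => h ((quad_iff F).mpr h')]
  have h2 : (((Finset.univ : Finset (Matrix (Fin n) (Fin r) (ZMod N))).filter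
        (fun F => Fᵀ * F = 0)).card : ℂ) * (N : ℂ) ^ ((r + 1).choose 2) =
      ∑ F : Matrix (Fin n) (Fin r) (ZMod N),
        if Fᵀ * F = 0 then (N : ℂ) ^ ((r + 1).choose 2) else 0 := by
    rw [← Finset.sum_filter, Finset.sum_const, nsmul_eq_mul]
  rw [h2, ← Finset.sum_congr rfl fun F _ => h1 F, Finset.sum_comm]
  refine Finset.sum_congr rfl fun c _ => ?_
  have h3 : ∀ F : Matrix (Fin n) (Fin r) (ZMod N),
      (ZMod.stdAddChar (N := N)) (∑ e : {e : Fin r × Fin r // e.1 ≤ e.2},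
        c e * ∑ v, F v e.1.1 * F v e.1.2) =
      ∏ v, (ZMod.stdAddChar (N := N)) (∑ e : {e : Fin r × Fin r // e.1 ≤ e.2},
        c e * (F v e.1.1 * F v e.1.2)) := by
    intro F
    rw [← halB_map_sum N Finset.univ]
    congr 1
    simp only [Finset.mul_sum]
    exact Finset.sum_comm
  rw [Finset.sum_congr rfl fun F _ => h3 F]
  have h4 : ∏ _v : Fin n, (∑ x : Fin r → ZMod N,
      (ZMod.stdAddChar (N := N)) (∑ e : {e : Fin r × Fin r // e.1 ≤ e.2},
        c e * (x e.1.1 * x e.1.2))) =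
      (∑ x : Fin r → ZMod N,
        (ZMod.stdAddChar (N := N)) (∑ e : {e : Fin r × Fin r // e.1 ≤ e.2},
          c e * (x e.1.1 * x e.1.2))) ^ n := by
    rw [Finset.prod_const, Finset.card_univ, Fintype.card_fin]
  rw [← h4, Finset.prod_univ_sum, Fintype.piFinset_univ]
  rfl

/-- a nonzero quadratic form takes a nonzero value -/
theorem quad_ne {N r : ℕ} (c : {e : Fin r × Fin r // e.1 ≤ e.2} → ZMod N) (hc : c ≠ 0) :
    ∃ x : Fin r → ZMod N, ∑ e, c e * (x e.1.1 * x e.1.2) ≠ 0 := by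
  by_cases hd : ∃ a : Fin r, c ⟨(a, a), le_rfl⟩ ≠ 0
  · obtain ⟨a, ha⟩ := hd
    refine ⟨Pi.single a 1, ?_⟩
    rw [Finset.sum_eq_single ⟨(a, a), le_rfl⟩]
    · simpa using ha
    · rintro ⟨⟨b, d⟩, hbd⟩ _ hne
      by_cases h1 : b = a
      · by_cases h2 : d = a
        · exact absurd (Subtype.ext (Prod.ext h1 h2)) hne
        · simp [Pi.single_eq_of_ne h2]
      · simp [Pi.single_eq_of_ne h1]
    · intro h
      exact absurd (Finset.mem_univ _) h
  · push Not at hd
    have hex : ∃ e, c e ≠ 0 := by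
      by_contra h
      push Not at h
      exact hc (funext h)
    obtain ⟨⟨⟨a, b⟩, hab⟩, he⟩ := hex
    have hne : a ≠ b := by
      rintro rfl
      exact he (hd a)
    have hlt : a < b := lt_of_le_of_ne hab hne
    refine ⟨Pi.single a 1 + Pi.single b 1, ?_⟩
    rw [Finset.sum_eq_single ⟨(a, b), hab⟩]
    · simpa [Pi.single_eq_of_ne hne, Pi.single_eq_of_ne hne.symm] using he
    · rintro ⟨⟨u, v⟩, huv⟩ _ hne'
      by_cases h1 : u = v
      · subst h1
        rw [hd u, zero_mul]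
      · have huv' : u < v := lt_of_le_of_ne huv h1
        by_cases h2 : u = a
        · by_cases h3 : v = b
          · exact absurd (Subtype.ext (Prod.ext h2 h3)) hne'
          · have h4 : v ≠ a := fun h => h1 (h2.trans h.symm)
            simp [Pi.single_eq_of_ne h3, Pi.single_eq_of_ne h4]
        · by_cases h3 : u = b
          · have h4 : v ≠ a := by
              rintro rfl
              rw [h3] at huv'
              exact absurd (hlt.trans huv') (lt_irrefl _)
            have h5 : v ≠ b := fun h => h1 (h3.trans h.symm)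
            simp [Pi.single_eq_of_ne h4, Pi.single_eq_of_ne h5]
          · simp [Pi.single_eq_of_ne h2, Pi.single_eq_of_ne h3]
    · intro h
      exact absurd (Finset.mem_univ _) h

theorem quad_lt (N r : ℕ) [NeZero N] (c : {e : Fin r × Fin r // e.1 ≤ e.2} → ZMod N)
    (hc : c ≠ 0) : ‖∑ x : Fin r → ZMod N,
      (ZMod.stdAddChar (N := N)) (∑ e, c e * (x e.1.1 * x e.1.2))‖ < (N : ℝ) ^ r := by
  obtain ⟨x, hx⟩ := quad_ne c hc
  have h := norm_sum_unit_lt (fun x : Fin r → ZMod N =>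
    (ZMod.stdAddChar (N := N)) (∑ e, c e * (x e.1.1 * x e.1.2)))
    (fun x => AddChar.norm_apply _ _) x 0 (by
      intro h
      have h1 := ZMod.injective_stdAddChar h
      apply hx
      rw [h1]
      simp)
  have h2 : (Fintype.card (Fin r → ZMod N) : ℝ) = (N : ℝ) ^ r := by
    rw [Fintype.card_fun, ZMod.card, Fintype.card_fin]
    push_cast
    rfl
  rw [h2] at h
  exact h

theorem quad_count (N r : ℕ) [NeZero N] : ∃ n₀ : ℕ, ∀ n : ℕ, n₀ ≤ n →
    (((Finset.univ : Finset (Matrix (Fin n) (Fin r) (ZMod N))).filter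
        (fun F => Fᵀ * F = 0)).card : ℝ) ≤
      2 * ((N : ℝ) ^ r) ^ n / (N : ℝ) ^ ((r + 1).choose 2) := by
  have hN : (0 : ℝ) < N := by
    exact_mod_cast NeZero.pos N
  set M : ℝ := (N : ℝ) ^ ((r + 1).choose 2) with hM
  have hMpos : 0 < M := pow_pos hN _
  have hR : (0 : ℝ) < (N : ℝ) ^ r := pow_pos hN _
  let S : ({e : Fin r × Fin r // e.1 ≤ e.2} → ZMod N) → ℂ := fun c =>
    ∑ x : Fin r → ZMod N, (ZMod.stdAddChar (N := N)) (∑ e, c e * (x e.1.1 * x e.1.2))
  have hcardc : ((Finset.univ : Finset ({e : Fin r × Fin r // e.1 ≤ e.2} → ZMod N)).card : ℝ)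
      = M := by
    rw [Finset.card_univ, Fintype.card_fun, ZMod.card, quad_card_pairs]
    push_cast
    rfl
  have hev : ∀ᶠ n : ℕ in Filter.atTop, ∀ c : {e : Fin r × Fin r // e.1 ≤ e.2} → ZMod N,
      c ≠ 0 → ‖S c‖ ^ n ≤ ((N : ℝ) ^ r) ^ n / M := by
    rw [Filter.eventually_all]
    intro c
    by_cases hc : c = 0
    · exact Filter.Eventually.of_forall fun n h => absurd hc h
    · have hlt := quad_lt N r c hc
      have hq : ‖S c‖ / (N : ℝ) ^ r < 1 := (div_lt_one hR).mpr hlt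
      have hq0 : 0 ≤ ‖S c‖ / (N : ℝ) ^ r := div_nonneg (norm_nonneg _) hR.le
      have ht := tendsto_pow_atTop_nhds_zero_of_lt_one hq0 hq
      have he := ht.eventually (gt_mem_nhds (show (0 : ℝ) < 1 / M by positivity))
      filter_upwards [he] with n hn _
      rw [div_pow, div_lt_iff₀ (pow_pos hR n)] at hn
      calc ‖S c‖ ^ n ≤ 1 / M * ((N : ℝ) ^ r) ^ n := hn.le
        _ = ((N : ℝ) ^ r) ^ n / M := by ring
  obtain ⟨n₀, hn₀⟩ := Filter.eventually_atTop.mp hev
  refine ⟨n₀, fun n hn => ?_⟩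
  have hb := hn₀ n hn
  rw [le_div_iff₀ hMpos]
  have hid := quad_fourier N r n
  have hnorm : (((Finset.univ : Finset (Matrix (Fin n) (Fin r) (ZMod N))).filter
        (fun F => Fᵀ * F = 0)).card : ℝ) * M = ‖∑ c, S c ^ n‖ := by
    show _ = ‖∑ c : {e : Fin r × Fin r // e.1 ≤ e.2} → ZMod N,
        (∑ x : Fin r → ZMod N,
          (ZMod.stdAddChar (N := N)) (∑ e, c e * (x e.1.1 * x e.1.2))) ^ n‖
    rw [← hid, norm_mul, norm_pow, Complex.norm_natCast, Complex.norm_natCast]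
  rw [hnorm]
  have hterm : ∀ c : {e : Fin r × Fin r // e.1 ≤ e.2} → ZMod N,
      ‖S c ^ n‖ ≤ (if c = 0 then ((N : ℝ) ^ r) ^ n else 0) + ((N : ℝ) ^ r) ^ n / M := by
    intro c
    rw [norm_pow]
    by_cases hc : c = 0
    · rw [if_pos hc]
      have h1 : ‖S c‖ ≤ (N : ℝ) ^ r := by
        refine (norm_sum_le _ _).trans (le_of_eq ?_)
        rw [Finset.sum_congr rfl fun x _ => AddChar.norm_apply _ _]
        rw [Finset.sum_const, Finset.card_univ, Fintype.card_fun, ZMod.card, Fintype.card_fin]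
        simp
      have h2 : ‖S c‖ ^ n ≤ ((N : ℝ) ^ r) ^ n := pow_le_pow_left₀ (norm_nonneg _) h1 n
      have h3 : 0 ≤ ((N : ℝ) ^ r) ^ n / M := by positivity
      linarith
    · rw [if_neg hc, zero_add]
      exact hb c hc
  calc ‖∑ c, S c ^ n‖ ≤ ∑ c, ‖S c ^ n‖ := norm_sum_le _ _
    _ ≤ ∑ c : {e : Fin r × Fin r // e.1 ≤ e.2} → ZMod N,
        ((if c = 0 then ((N : ℝ) ^ r) ^ n else 0) + ((N : ℝ) ^ r) ^ n / M) :=
      Finset.sum_le_sum fun c _ => hterm c
    _ = 2 * ((N : ℝ) ^ r) ^ n := by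
      rw [Finset.sum_add_distrib, Finset.sum_ite_eq' Finset.univ
        (0 : {e : Fin r × Fin r // e.1 ≤ e.2} → ZMod N), if_pos (Finset.mem_univ _),
        Finset.sum_const, nsmul_eq_mul, hcardc]
      field_simp
      ring

end Pool.Agent.H66.DG
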