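import Pool.Agent.H66.DG.Loc
import Pool.Agent.H66.DG.Quad
import Pool.Agent.H66.DG.Mul

/-!
# DG-S07 Exp: the first moment for dense data over `Z / p ^ j`

`exp_bound`: for fixed `p, j, r, δ` and `n ≥ n₀`, `s ≥ δ n`: the number of graphs which have good
data `F` (`Gd`) with parameter `s` is at most `p ^ (r ^ 2) * 2 ^ (r + 3) / (p ^ j) ^ r * ng n`.
PROOF.  `N = p ^ j`.  Double counting: let `B` be the set of graphs with good data.
`#B * (p ^ (j - 1)) ^ (r ^ 2) ≤ #{(G, F) | Gd G F} ≤ ∑_{F dense, Fᵀ F = 0} ∑_θ #{G | A F = F θ}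
≤ #{F | Fᵀ F = 0} * N ^ (r ^ 2) * (4 #Anti ng n / N ^ (r n))`
`≤ (2 N ^ (r n) / N ^ ((r+1).choose 2)) * N ^ (r ^ 2) * 4 * 2 ^ r * N ^ (r.choose 2) * ng n
/ N ^ (r n)` (`card_good_ge`, `loc_bound`, `quad_count`, `card_anti_le`).  As
`(r + 1).choose 2 = r.choose 2 + r` this is `2 ^ (r + 3) * N ^ (r ^ 2) / N ^ r * ng n`, and
`N ^ (r ^ 2) / (p ^ (j - 1)) ^ (r ^ 2) = p ^ (r ^ 2)`.
-/

set_option autoImplicit false

namespace Pool.Agent.H66.DG

open Matrix Classical Pool.Agent.H66.SP Pool.Agent.H95.SQ Pool.Agent.H71.DG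

theorem exp_cg_false (n : ℕ) {P : SimpleGraph (Fin n) → Prop} (h : ∀ G, ¬ P G) : cg n P = 0 := by
  rw [cg_eq, Finset.filter_false_of_mem (fun G _ => h G), Finset.card_empty, Nat.cast_zero]

/-- the number of graphs for which a given `F` is good -/
theorem exp_one (p j r s n : ℕ) [Fact p.Prime] [NeZero (p ^ j)]
    (F : Matrix (Fin n) (Fin r) (ZMod (p ^ j))) (K : ℝ)
    (hK : ∀ Y : Matrix (Fin n) (Fin r) (ZMod (p ^ j)), DenseF (p ^ j) r s F →
      cg n (fun G => adj (ZMod (p ^ j)) G * F = Y) ≤ K) (hK0 : 0 ≤ K) :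
    cg n (fun G => Gd (p ^ j) r s G F) ≤
      (((p ^ j : ℕ) : ℝ) ^ (r ^ 2)) * K := by
  by_cases hd : DenseF (p ^ j) r s F
  · have h1 : cg n (fun G => Gd (p ^ j) r s G F) ≤
        cg n (fun G => ∃ θ ∈ (Finset.univ : Finset (Matrix (Fin r) (Fin r) (ZMod (p ^ j)))),
          adj (ZMod (p ^ j)) G * F = F * θ) := by
      refine cg_mono n fun G hG => ?_
      obtain ⟨-, -, θ, hθ⟩ := hG
      exact ⟨θ, Finset.mem_univ _, hθ⟩
    refine (h1.trans (cg_exists n _ _)).trans ?_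
    have h2 : ∑ θ : Matrix (Fin r) (Fin r) (ZMod (p ^ j)),
        cg n (fun G => adj (ZMod (p ^ j)) G * F = F * θ) ≤
        ∑ _θ : Matrix (Fin r) (Fin r) (ZMod (p ^ j)), K :=
      Finset.sum_le_sum fun θ _ => hK (F * θ) hd
    refine h2.trans (le_of_eq ?_)
    rw [Finset.sum_const, nsmul_eq_mul, Finset.card_univ]
    congr 1
    have h3 : Fintype.card (Matrix (Fin r) (Fin r) (ZMod (p ^ j))) = (p ^ j) ^ (r ^ 2) := by
      have : Fintype.card (Fin r → Fin r → ZMod (p ^ j)) = (p ^ j) ^ (r ^ 2) := by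
        rw [Fintype.card_fun, Fintype.card_fun, ZMod.card, Fintype.card_fin, ← pow_mul, pow_two]
      rw [← this]
      exact Fintype.card_congr (Equiv.refl _)
    rw [h3]
    push_cast
    rfl
  · rw [exp_cg_false n (fun G hG => hd hG.1)]
    positivity

theorem exp_bound (p j r : ℕ) [Fact p.Prime] [NeZero (p ^ j)] (hj : 1 ≤ j) (δ : ℝ) (hδ : 0 < δ) :
    ∃ n₀ : ℕ, ∀ n : ℕ, n₀ ≤ n → ∀ s : ℕ, δ * n ≤ s →
      cg n (fun G => ∃ F : Matrix (Fin n) (Fin r) (ZMod (p ^ j)), Gd (p ^ j) r s G F) ≤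
        (p : ℝ) ^ (r ^ 2) * 2 ^ (r + 3) / ((p ^ j : ℕ) : ℝ) ^ r * ng n := by
  obtain ⟨n1, h1⟩ := loc_bound p j r hj δ hδ
  obtain ⟨n2, h2⟩ := quad_count (p ^ j) r
  refine ⟨max n1 n2, fun n hn s hs => ?_⟩
  have hn1 : n1 ≤ n := (le_max_left _ _).trans hn
  have hn2 : n2 ≤ n := (le_max_right _ _).trans hn
  have hp0 : (0 : ℝ) < p := by exact_mod_cast (Fact.out : p.Prime).pos
  have hN : (0 : ℝ) < ((p ^ j : ℕ) : ℝ) := by
    push_cast
    positivity
  have hg := ng_pos n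
  set N : ℝ := ((p ^ j : ℕ) : ℝ) with hNdef
  set K : ℝ := 4 * ((Anti (p ^ j) r).card : ℝ) * ng n / N ^ (r * n) with hK
  have hK0 : 0 ≤ K := by positivity
  set B : Finset (SimpleGraph (Fin n)) := Finset.univ.filter
    (fun G => ∃ F : Matrix (Fin n) (Fin r) (ZMod (p ^ j)), Gd (p ^ j) r s G F) with hB
  set Q : Finset (Matrix (Fin n) (Fin r) (ZMod (p ^ j))) := Finset.univ.filter
    (fun F => Fᵀ * F = 0) with hQ
  rw [cg_eq]
  -- double counting
  have d1 : (B.card : ℝ) * (p ^ (j - 1)) ^ (r ^ 2) ≤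
      ∑ G ∈ B, (((Finset.univ : Finset (Matrix (Fin n) (Fin r) (ZMod (p ^ j)))).filter
        (fun F' => Gd (p ^ j) r s G F')).card : ℝ) := by
    rw [← nsmul_eq_mul, ← Finset.sum_const]
    apply Finset.sum_le_sum
    intro G hG
    rw [hB, Finset.mem_filter] at hG
    obtain ⟨F, hF⟩ := hG.2
    exact_mod_cast card_good_ge p j r s hj G F hF
  have d2 : ∑ G ∈ B, (((Finset.univ : Finset (Matrix (Fin n) (Fin r) (ZMod (p ^ j)))).filter
        (fun F' => Gd (p ^ j) r s G F')).card : ℝ) ≤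
      ∑ G : SimpleGraph (Fin n),
        (((Finset.univ : Finset (Matrix (Fin n) (Fin r) (ZMod (p ^ j)))).filter
        (fun F' => Gd (p ^ j) r s G F')).card : ℝ) :=
    Finset.sum_le_sum_of_subset_of_nonneg (Finset.subset_univ _) (fun _ _ _ => Nat.cast_nonneg _)
  have d3 : ∑ G : SimpleGraph (Fin n),
        (((Finset.univ : Finset (Matrix (Fin n) (Fin r) (ZMod (p ^ j)))).filter
        (fun F' => Gd (p ^ j) r s G F')).card : ℝ) =
      ∑ F : Matrix (Fin n) (Fin r) (ZMod (p ^ j)), cg n (fun G => Gd (p ^ j) r s G F) := by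
    have e1 : ∀ F : Matrix (Fin n) (Fin r) (ZMod (p ^ j)),
        cg n (fun G => Gd (p ^ j) r s G F) =
        (((Finset.univ : Finset (SimpleGraph (Fin n))).filter
          (fun G => Gd (p ^ j) r s G F)).card : ℝ) := fun F => cg_eq n _
    simp only [e1]
    have e2 := Finset.sum_card_bipartiteAbove_eq_sum_card_bipartiteBelow
      (s := (Finset.univ : Finset (SimpleGraph (Fin n))))
      (t := (Finset.univ : Finset (Matrix (Fin n) (Fin r) (ZMod (p ^ j)))))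
      (fun G F => Gd (p ^ j) r s G F)
    exact_mod_cast e2
  have d4 : ∑ F : Matrix (Fin n) (Fin r) (ZMod (p ^ j)), cg n (fun G => Gd (p ^ j) r s G F) =
      ∑ F ∈ Q, cg n (fun G => Gd (p ^ j) r s G F) := by
    symm
    apply Finset.sum_subset (Finset.subset_univ _)
    intro F _ hF
    apply exp_cg_false
    intro G hG
    apply hF
    rw [hQ, Finset.mem_filter]
    exact ⟨Finset.mem_univ _, hG.2.1⟩
  have d5 : ∑ F ∈ Q, cg n (fun G => Gd (p ^ j) r s G F) ≤ (Q.card : ℝ) * (N ^ (r ^ 2) * K) := by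
    rw [← nsmul_eq_mul, ← Finset.sum_const]
    apply Finset.sum_le_sum
    intro F _
    exact exp_one p j r s n F K (fun Y hd => h1 n hn1 s F Y hs hd) hK0
  have d6 : (Q.card : ℝ) ≤ 2 * (N ^ r) ^ n / N ^ ((r + 1).choose 2) := by
    have := h2 n hn2
    exact this
  have d7 : ((Anti (p ^ j) r).card : ℝ) ≤ 2 ^ r * N ^ (r.choose 2) := by
    rw [hNdef]
    exact_mod_cast card_anti_le (p ^ j) r
  have d8 : K ≤ 4 * (2 ^ r * N ^ (r.choose 2)) * ng n / N ^ (r * n) := by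
    rw [hK]
    apply div_le_div_of_nonneg_right _ (by positivity)
    apply mul_le_mul_of_nonneg_right _ hg.le
    exact mul_le_mul_of_nonneg_left d7 (by norm_num)
  have d9 : (B.card : ℝ) * (p ^ (j - 1)) ^ (r ^ 2) ≤
      2 * (N ^ r) ^ n / N ^ ((r + 1).choose 2) *
        (N ^ (r ^ 2) * (4 * (2 ^ r * N ^ (r.choose 2)) * ng n / N ^ (r * n))) := by
    refine (d1.trans (d2.trans (le_of_eq (d3.trans d4)))).trans (d5.trans ?_)
    apply mul_le_mul d6 _ (by positivity) (by positivity)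
    exact mul_le_mul_of_nonneg_left d8 (by positivity)
  have hch : (r + 1).choose 2 = r.choose 2 + r := by
    rw [Nat.choose_succ_succ' r 1, Nat.choose_one_right, add_comm]
  have hNp : N = p * p ^ (j - 1) := by
    rw [hNdef]
    push_cast
    conv_lhs => rw [show j = 1 + (j - 1) by omega]
    rw [pow_add, pow_one]
  have d10 : 2 * (N ^ r) ^ n / N ^ ((r + 1).choose 2) *
        (N ^ (r ^ 2) * (4 * (2 ^ r * N ^ (r.choose 2)) * ng n / N ^ (r * n))) =
      ((p : ℝ) ^ (r ^ 2) * 2 ^ (r + 3) / N ^ r * ng n) * (p ^ (j - 1)) ^ (r ^ 2) := by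
    rw [hch, pow_mul, pow_add]
    have e1 : N ^ (r ^ 2) = (p : ℝ) ^ (r ^ 2) * (p ^ (j - 1)) ^ (r ^ 2) := by
      conv_lhs => rw [hNp]
      rw [mul_pow]
    rw [e1, pow_add (2 : ℝ) r 3]
    have hNr : (N ^ r) ^ n ≠ 0 := by positivity
    have hNr2 : N ^ (r.choose 2) ≠ 0 := by positivity
    have hNr3 : N ^ r ≠ 0 := by positivity
    field_simp
    ring
  rw [d10] at d9
  exact le_of_mul_le_mul_right d9 (by positivity)

end Pool.Agent.H66.DG
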