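import Pool.Agent.H66.DG.Defs
import Pool.Agent.H71.DG.Kry3
import Pool.Agent.H66.SP.Rec

/-!
# A given vector is rarely in an invariant subspace of small dimension

From `kry_one` (`H71/DG/Kry3`): a vector of an invariant subspace of dimension at most `d` is killed
by the characteristic polynomial of the restriction of `A`.
-/

set_option autoImplicit false

namespace Pool.Agent.H66.DG

open Matrix Classical Pool.Agent.H66.SP Pool.Agent.H95.SQ Pool.Agent.H71.DG Polynomial

/-- small multiplicities, and `v` in an invariant subspace of dimension at most `d` -/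
def KP (p d m : ℕ) [Fact p.Prime] {V : Type*} [Fintype V] (G : SimpleGraph V)
    (v : V → ZMod p) : Prop :=
  (∀ μ : KK p, mult (adj (KK p) G) μ ≤ m) ∧
  ∃ U : Submodule (ZMod p) (V → ZMod p), (∀ x ∈ U, adj (ZMod p) G *ᵥ x ∈ U) ∧
    Module.finrank (ZMod p) U ≤ d ∧ v ∈ U

theorem KryC_aeval {K : Type*} [Field K] {V : Type*} [Fintype V] [DecidableEq V]
    (A : Matrix V V K) (U : Submodule K (V → K)) (hU : ∀ x ∈ U, A.mulVecLin x ∈ U) (h : K[X])
    (x : U) : (aeval A h) *ᵥ (x : V → K) =
      (((aeval (A.mulVecLin.restrict hU) h) x : U) : V → K) := by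
  have hpow : ∀ k : ℕ, (A ^ k) *ᵥ (x : V → K) =
      ((((A.mulVecLin.restrict hU) ^ k) x : U) : V → K) := by
    intro k
    induction k with
    | zero => rw [pow_zero, pow_zero, Matrix.one_mulVec]; rfl
    | succ k ih =>
      rw [pow_succ', ← Matrix.mulVec_mulVec, ih, pow_succ', Module.End.mul_apply,
        LinearMap.coe_restrict_apply, Matrix.mulVecLin_apply]
  induction h using Polynomial.induction_on' with
  | add p q hp hq =>
    rw [map_add, map_add, Matrix.add_mulVec, hp, hq, LinearMap.add_apply, Submodule.coe_add]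
  | monomial k a =>
    rw [aeval_monomial, aeval_monomial, ← Algebra.smul_def, ← Algebra.smul_def,
      Matrix.smul_mulVec, hpow, LinearMap.smul_apply, Submodule.coe_smul]

theorem KryC_poly {K : Type*} [Field K] {V : Type*} [Fintype V] [DecidableEq V]
    (A : Matrix V V K) (U : Submodule K (V → K)) (hU : ∀ x ∈ U, A *ᵥ x ∈ U) (x : V → K)
    (hx : x ∈ U) : ∃ h : K[X], h.Monic ∧ h.natDegree = Module.finrank K U ∧
      (aeval A h) *ᵥ x = 0 := by
  have hU' : ∀ x ∈ U, A.mulVecLin x ∈ U := hU
  refine ⟨(A.mulVecLin.restrict hU').charpoly, LinearMap.charpoly_monic _,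
    LinearMap.charpoly_natDegree _, ?_⟩
  have h1 := KryC_aeval A U hU' (A.mulVecLin.restrict hU').charpoly ⟨x, hx⟩
  rw [LinearMap.aeval_self_charpoly, LinearMap.zero_apply] at h1
  exact h1

theorem kry_count (p d m n : ℕ) [Fact p.Prime] (v : Fin (n + 1) → ZMod p) (hv : v ≠ 0) :
    ((Finset.univ : Finset (SimpleGraph (Fin (n + 1)))).filter (fun G => KP p d m G v)).card *
        2 ^ n ≤
      p ^ (3 * d) * 2 ^ ((d - 1) * (m + 1)) * Fintype.card (SimpleGraph (Fin (n + 1))) := by
  rcases Nat.eq_zero_or_pos d with hd | hd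
  · subst hd
    rw [Finset.filter_false_of_mem]
    · simp
    · rintro G - ⟨-, U, -, h2, h3⟩
      have h4 : U = ⊥ := Submodule.finrank_eq_zero.mp (by omega)
      rw [h4, Submodule.mem_bot] at h3
      exact hv h3
  · have h1 := kry_one p v hv m d hd
    rw [Fintype.card_fin, Nat.add_sub_cancel] at h1
    have h2 : ((Finset.univ : Finset (SimpleGraph (Fin (n + 1)))).filter
        (fun G => KP p d m G v)).card ≤
        ((Finset.univ : Finset (SimpleGraph (Fin (n + 1)))).filter (fun G =>
          (∀ μ : KK p, mult (adj (KK p) G) μ ≤ m) ∧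
          ∃ h : Polynomial (ZMod p), h.Monic ∧ h.natDegree ≤ d ∧
            Polynomial.aeval (adj (ZMod p) G) h *ᵥ v = 0)).card := by
      refine Finset.card_le_card fun G hG => ?_
      rw [Finset.mem_filter] at hG ⊢
      obtain ⟨h3, h4, U, hU, h5, h6⟩ := hG
      obtain ⟨h, h7, h8, h9⟩ := KryC_poly (adj (ZMod p) G) U hU v h6
      exact ⟨h3, h4, h, h7, by omega, h9⟩
    have h2' : (((Finset.univ : Finset (SimpleGraph (Fin (n + 1)))).filter
        (fun G => KP p d m G v)).card : ℝ) ≤ _ := (Nat.cast_le.2 h2).trans h1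
    have h3 : (0 : ℝ) < 2 ^ n := by positivity
    have h4 : (((Finset.univ : Finset (SimpleGraph (Fin (n + 1)))).filter
        (fun G => KP p d m G v)).card : ℝ) * 2 ^ n ≤
        (Fintype.card (SimpleGraph (Fin (n + 1))) : ℝ) *
          (d * (p : ℝ) ^ (2 * d) * 2 ^ ((d - 1) * (m + 1))) := by
      rw [← le_div_iff₀ h3]
      refine h2'.trans (le_of_eq ?_)
      ring
    have h5 : ((Finset.univ : Finset (SimpleGraph (Fin (n + 1)))).filter
        (fun G => KP p d m G v)).card * 2 ^ n ≤
        Fintype.card (SimpleGraph (Fin (n + 1))) *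
          (d * p ^ (2 * d) * 2 ^ ((d - 1) * (m + 1))) := by
      exact_mod_cast h4
    refine h5.trans ?_
    have h6 : d ≤ p ^ d := (Nat.lt_two_pow_self).le.trans
      (Nat.pow_le_pow_left (Fact.out : p.Prime).two_le d)
    have h7 : d * p ^ (2 * d) ≤ p ^ (3 * d) := by
      calc d * p ^ (2 * d) ≤ p ^ d * p ^ (2 * d) := Nat.mul_le_mul_right _ h6
        _ = p ^ (3 * d) := by rw [← pow_add]; congr 1; ring
    calc Fintype.card (SimpleGraph (Fin (n + 1))) * (d * p ^ (2 * d) * 2 ^ ((d - 1) * (m + 1)))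
        ≤ Fintype.card (SimpleGraph (Fin (n + 1))) * (p ^ (3 * d) * 2 ^ ((d - 1) * (m + 1))) :=
          Nat.mul_le_mul_left _ (Nat.mul_le_mul_right _ h7)
      _ = _ := by ring

end Pool.Agent.H66.DG
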