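import Pool.Agent.H66.DG.Str

/-!
# DG-S03 Sum: the sum over all `X`, and the number of antisymmetric matrices

`sum_kap_le`.  `N = p ^ j`, `F` is `DenseF` with parameter `s`, `2 (r (t + 1) + t) ≤ s`,
`0 ≤ κ ≤ 1`.  Then
`∑_X κ ^ (nbu X F) ≤ #Anti * (1 + N ^ r * κ ^ (s / 2)) ^ n + N ^ (r n) * κ ^ (t ^ 2 / 2)`.
PROOF.  For the `X` with `t ^ 2 ≤ nbo X F = 2 nbu X F` (`two_nbu`) we have
`κ ^ (nbu X F) ≤ κ ^ (t ^ 2 / 2)`, and there are at most `N ^ (r n)` matrices `X`.  For the other
`X` there is `L ∈ Anti` with `k := #{v | X v ≠ L *ᵥ F v} ≤ r (t + 1)`, so `2 k ≤ s` and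
`κ ^ (nbu X F) ≤ (κ ^ (s / 2)) ^ k` (`nbu_ge`).  So their sum is at most
`∑_{L ∈ Anti} ∑_{X} ∏_v (if X v = L *ᵥ F v then 1 else κ ^ (s / 2))` and for fixed `L` the inner sum
is `∏_v ∑_{x : Fin r → ZMod N} (if x = L *ᵥ F v then 1 else κ ^ (s / 2)) ≤
(1 + N ^ r κ ^ (s / 2)) ^ n` (`Finset.prod_univ_sum`/`Fintype.piFinset_univ`, a `Matrix` is a
function `V → Fin r → ZMod N`).
`card_anti_le`: an antisymmetric matrix is determined by its entries above the diagonal
(`r.choose 2` of them) and by the diagonal, where `2 L_aa = 0` leaves at most `2` values in `ZMod N`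
(`{x : ZMod N | 2 x = 0}` has at most two elements: `x.val ∈ {0, N / 2}`).
`one_le_card_anti`: `0 ∈ Anti`.
-/

set_option autoImplicit false

namespace Pool.Agent.H66.DG

open Matrix Classical Pool.Agent.H66.SP Pool.Agent.H95.SQ Pool.Agent.H71.DG

theorem one_le_card_anti (N r : ℕ) [NeZero N] : 1 ≤ (Anti N r).card := by
  refine Finset.card_pos.2 ⟨0, ?_⟩
  unfold Anti
  rw [Finset.mem_filter]
  exact ⟨Finset.mem_univ _, by rw [Matrix.transpose_zero, add_zero]⟩

theorem Sum_pairs (r : ℕ) : Fintype.card {e : Fin r × Fin r // e.1 < e.2} = r.choose 2 := by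
  rw [Fintype.card_subtype]
  have h : ((Finset.univ : Finset (Fin r × Fin r)).filter (fun e => e.1 < e.2)).card =
      ∑ j : Fin r, (Finset.Iio j).card := by
    rw [Finset.card_filter, Fintype.sum_prod_type_right]
    refine Finset.sum_congr rfl fun j _ => ?_
    rw [← Finset.card_filter]
    refine congrArg Finset.card ?_
    ext i
    simp
  rw [h]
  simp only [Fin.card_Iio]
  rw [Fin.sum_univ_eq_sum_range (fun i => i), Finset.sum_range_id, Nat.choose_two_right]

theorem Sum_two (N : ℕ) [NeZero N] :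
    ((Finset.univ : Finset (ZMod N)).filter (fun x => x + x = 0)).card ≤ 2 := by
  have h : (Finset.univ : Finset (ZMod N)).filter (fun x => x + x = 0) ⊆
      {0, ((N / 2 : ℕ) : ZMod N)} := by
    intro x hx
    rw [Finset.mem_filter] at hx
    have h1 : ((2 * x.val : ℕ) : ZMod N) = 0 := by
      rw [Nat.cast_mul, ZMod.natCast_zmod_val, Nat.cast_two, two_mul]
      exact hx.2
    have h2 : N ∣ 2 * x.val := (ZMod.natCast_eq_zero_iff _ _).1 h1
    have h3 : x.val < N := ZMod.val_lt x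
    obtain ⟨k, hk⟩ := h2
    have hN : 0 < N := Nat.pos_of_ne_zero (NeZero.ne N)
    have hk2 : k < 2 := by
      by_contra hc
      have h5 : N * 2 ≤ N * k := Nat.mul_le_mul_left N (by omega)
      omega
    rw [Finset.mem_insert, Finset.mem_singleton]
    interval_cases k
    · left
      rw [← ZMod.natCast_zmod_val x]
      have : x.val = 0 := by omega
      rw [this, Nat.cast_zero]
    · right
      rw [← ZMod.natCast_zmod_val x]
      have : x.val = N / 2 := by omega
      rw [this]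
  exact (Finset.card_le_card h).trans Finset.card_le_two

theorem card_anti_le (N r : ℕ) [NeZero N] : (Anti N r).card ≤ 2 ^ r * N ^ (r.choose 2) := by
  set S : Finset (ZMod N) := (Finset.univ : Finset (ZMod N)).filter (fun x => x + x = 0) with hS
  let φ : Matrix (Fin r) (Fin r) (ZMod N) →
      (Fin r → ZMod N) × ({e : Fin r × Fin r // e.1 < e.2} → ZMod N) :=
    fun L => (fun a => L a a, fun e => L e.1.1 e.1.2)
  have hmem : ∀ L, L ∈ Anti N r → ∀ a b, L a b + L b a = 0 := by
    intro L hL a b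
    unfold Anti at hL
    rw [Finset.mem_filter] at hL
    have h := congrFun (congrFun hL.2 a) b
    rw [Matrix.add_apply, Matrix.transpose_apply] at h
    exact h
  have h1 : (Anti N r).card ≤ ((Fintype.piFinset fun _ : Fin r => S) ×ˢ
      (Finset.univ : Finset ({e : Fin r × Fin r // e.1 < e.2} → ZMod N))).card := by
    refine Finset.card_le_card_of_injOn φ ?_ ?_
    · intro L hL
      have hL' : L ∈ Anti N r := hL
      rw [Finset.mem_coe, Finset.mem_product, Fintype.mem_piFinset]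
      refine ⟨fun a => ?_, Finset.mem_univ _⟩
      rw [hS, Finset.mem_filter]
      exact ⟨Finset.mem_univ _, hmem L hL' a a⟩
    · intro L hL L' hL' h
      have hA : L ∈ Anti N r := hL
      have hB : L' ∈ Anti N r := hL'
      have h2 : ∀ a, L a a = L' a a := fun a => congrFun (Prod.ext_iff.1 h).1 a
      have h3 : ∀ a b, a < b → L a b = L' a b := fun a b hab =>
        congrFun (Prod.ext_iff.1 h).2 ⟨(a, b), hab⟩
      ext a b
      rcases lt_trichotomy a b with hab | hab | hab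
      · exact h3 a b hab
      · rw [hab]
        exact h2 b
      · have h5 := hmem L hA a b
        have h6 := hmem L' hB a b
        rw [h3 b a hab] at h5
        exact add_right_cancel (h5.trans h6.symm)
  refine h1.trans ?_
  rw [Finset.card_product, Fintype.card_piFinset_const, Finset.card_univ, Fintype.card_fun,
    Sum_pairs, ZMod.card]
  exact Nat.mul_le_mul_right _ (Nat.pow_le_pow_left (Sum_two N) r)

theorem Sum_prod {n r N : ℕ} [NeZero N] (X : Matrix (Fin n) (Fin r) (ZMod N))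
    (Y : Fin n → Fin r → ZMod N) (c : ℝ) :
    ∏ v, (if X v = Y v then (1 : ℝ) else c) =
      c ^ ((Finset.univ : Finset (Fin n)).filter (fun v => X v ≠ Y v)).card := by
  rw [Finset.prod_ite, Finset.prod_const_one, one_mul, Finset.prod_const]

theorem Sum_inner {n r N : ℕ} [NeZero N] (Y : Fin n → Fin r → ZMod N) (c : ℝ) (hc : 0 ≤ c) :
    ∑ X : Matrix (Fin n) (Fin r) (ZMod N), ∏ v, (if X v = Y v then (1 : ℝ) else c) ≤
      (1 + (N : ℝ) ^ r * c) ^ n := by
  have h1 : ∑ X : Matrix (Fin n) (Fin r) (ZMod N), ∏ v, (if X v = Y v then (1 : ℝ) else c) =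
      ∏ v : Fin n, ∑ x : Fin r → ZMod N, (if x = Y v then (1 : ℝ) else c) := by
    rw [Finset.prod_univ_sum, Fintype.piFinset_univ]
    rfl
  rw [h1]
  have h2 : ∀ v : Fin n, ∑ x : Fin r → ZMod N, (if x = Y v then (1 : ℝ) else c) ≤
      1 + (N : ℝ) ^ r * c := by
    intro v
    calc ∑ x : Fin r → ZMod N, (if x = Y v then (1 : ℝ) else c)
        ≤ ∑ x : Fin r → ZMod N, ((if x = Y v then (1 : ℝ) else 0) + c) := by
          refine Finset.sum_le_sum fun x _ => ?_
          split_ifs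
          · linarith
          · linarith
      _ = 1 + (N : ℝ) ^ r * c := by
          rw [Finset.sum_add_distrib, Finset.sum_ite_eq', if_pos (Finset.mem_univ _),
            Finset.sum_const, Finset.card_univ, Fintype.card_fun, ZMod.card, Fintype.card_fin,
            nsmul_eq_mul, Nat.cast_pow]
  calc ∏ v : Fin n, ∑ x : Fin r → ZMod N, (if x = Y v then (1 : ℝ) else c)
      ≤ ∏ _v : Fin n, (1 + (N : ℝ) ^ r * c) := by
        refine Finset.prod_le_prod (fun v _ => ?_) fun v _ => h2 v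
        refine Finset.sum_nonneg fun x _ => ?_
        split_ifs
        · exact zero_le_one
        · exact hc
    _ = (1 + (N : ℝ) ^ r * c) ^ n := by
        rw [Finset.prod_const, Finset.card_univ, Fintype.card_fin]

theorem Sum_card (n r N : ℕ) [NeZero N] :
    ((Finset.univ : Finset (Matrix (Fin n) (Fin r) (ZMod N))).card : ℝ) = (N : ℝ) ^ (r * n) := by
  have h : Fintype.card (Matrix (Fin n) (Fin r) (ZMod N)) =
      Fintype.card (Fin n → Fin r → ZMod N) := rfl
  rw [Finset.card_univ, h, Fintype.card_fun, Fintype.card_fun, ZMod.card, Fintype.card_fin,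
    Fintype.card_fin, ← pow_mul, Nat.cast_pow]

theorem sum_kap_le (p j r s t n : ℕ) [Fact p.Prime] [NeZero (p ^ j)] (hj : 1 ≤ j)
    (F : Matrix (Fin n) (Fin r) (ZMod (p ^ j))) (hF : DenseF (p ^ j) r s F)
    (hst : 2 * (r * (t + 1) + t) ≤ s) (κ : ℝ) (h0 : 0 ≤ κ) (h1 : κ ≤ 1) :
    ∑ X : Matrix (Fin n) (Fin r) (ZMod (p ^ j)), κ ^ (nbu X F) ≤
      ((Anti (p ^ j) r).card : ℝ) * (1 + ((p ^ j : ℕ) : ℝ) ^ r * κ ^ (s / 2)) ^ n +
        ((p ^ j : ℕ) : ℝ) ^ (r * n) * κ ^ (t ^ 2 / 2) := by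
  have hpt : ∀ X : Matrix (Fin n) (Fin r) (ZMod (p ^ j)), κ ^ (nbu X F) ≤
      (∑ L ∈ Anti (p ^ j) r, ∏ v, (if X v = L *ᵥ F v then (1 : ℝ) else κ ^ (s / 2))) +
        κ ^ (t ^ 2 / 2) := by
    intro X
    have hnn : ∀ L ∈ Anti (p ^ j) r,
        0 ≤ ∏ v, (if X v = L *ᵥ F v then (1 : ℝ) else κ ^ (s / 2)) := by
      intro L _
      refine Finset.prod_nonneg fun v _ => ?_
      split_ifs
      · exact zero_le_one
      · exact pow_nonneg h0 _
    rcases lt_or_ge (nbo X F) (t ^ 2) with h | h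
    · obtain ⟨L, hL, hc⟩ := exists_anti p j r s t hj F X hF (by omega) h
      have hb := nbu_ge (p ^ j) r s F X hF L hL (by omega)
      have h2 : κ ^ (nbu X F) ≤ ∏ v, (if X v = L *ᵥ F v then (1 : ℝ) else κ ^ (s / 2)) := by
        rw [Sum_prod X (fun v => L *ᵥ F v), ← pow_mul, mul_comm]
        exact pow_le_pow_of_le_one h0 h1 hb
      have h3 := Finset.single_le_sum hnn hL
      have h5 : 0 ≤ κ ^ (t ^ 2 / 2) := pow_nonneg h0 _
      linarith
    · have h2 := two_nbu X F
      have h3 : κ ^ (nbu X F) ≤ κ ^ (t ^ 2 / 2) := pow_le_pow_of_le_one h0 h1 (by omega)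
      have h5 := Finset.sum_nonneg hnn
      linarith
  refine (Finset.sum_le_sum fun X _ => hpt X).trans ?_
  rw [Finset.sum_add_distrib, Finset.sum_const, nsmul_eq_mul, Sum_card, Finset.sum_comm]
  refine add_le_add ?_ le_rfl
  calc ∑ L ∈ Anti (p ^ j) r, ∑ X : Matrix (Fin n) (Fin r) (ZMod (p ^ j)),
        ∏ v, (if X v = L *ᵥ F v then (1 : ℝ) else κ ^ (s / 2))
      ≤ ∑ _L ∈ Anti (p ^ j) r, (1 + ((p ^ j : ℕ) : ℝ) ^ r * κ ^ (s / 2)) ^ n :=
        Finset.sum_le_sum fun L _ =>
          Sum_inner (N := p ^ j) (fun v => L *ᵥ F v) (κ ^ (s / 2)) (pow_nonneg h0 _)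
    _ = _ := by rw [Finset.sum_const, nsmul_eq_mul]

end Pool.Agent.H66.DG
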