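import Pool.Agent.H66.DG.Cos
import Pool.Agent.H66.DG.Sum

/-!
# DG-S04 Loc: local bound for dense `F`, fixed `p, j, r`

`loc_bound`: for fixed `p, j, r` and `δ > 0` and all `n ≥ n₀`: if `F` is `DenseF` with a parameter
`s ≥ δ n` then for every `Y` the number of graphs with `A F = Y` is at most
`4 * #Anti * ng n / N ^ (r n)`, `N = p ^ j`.
PROOF.  Weaken `s` (`DenseF` with parameter `s` implies `DenseF` with every smaller parameter) to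
`s = ⌊δ n⌋` and put `t = ⌊c n⌋`, `c = δ / (8 (r + 1))`, so that `2 (r (t + 1) + t) ≤ s` for large
`n`.  By `graph_kap` and `sum_kap_le` with `κ = kap N < 1` (fixed) it is enough that for large `n`
(`(1 + N ^ r κ ^ (s / 2)) ^ n ≤ 2`, as `n N ^ r κ ^ (δ n / 2 - 1) → 0` and `(1 + x / n) ^ n ≤ exp x`)
and (`N ^ (r n) κ ^ (t ^ 2 / 2) ≤ 1`, as `r n log N ≤ (t ^ 2 / 2) log (1 / κ)` for large `n`; note `κ > 0`).  Hint for the numerics: prove first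
`∃ n₀, ∀ n ≥ n₀, ∀ s, δ n ≤ s → ...` with the help of `tendsto_pow_const_mul_const_pow_of_abs_lt_one`
or with explicit estimates `κ ^ m ≤ C / m ^ 4`.
-/

set_option autoImplicit false

namespace Pool.Agent.H66.DG

open Matrix Classical Pool.Agent.H66.SP Pool.Agent.H95.SQ Pool.Agent.H71.DG

theorem DenseF.mono {N r s s' : ℕ} {V : Type*} [Fintype V] {F : Matrix V (Fin r) (ZMod N)}
    (h : DenseF N r s F) (hs : s' ≤ s) : DenseF N r s' F :=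
  fun c hc => lt_of_le_of_lt hs (h c hc)

theorem loc_num1 (κ C δ : ℝ) (hκ0 : 0 ≤ κ) (hκ1 : κ < 1) (hC : 0 ≤ C) (hδ : 0 < δ) :
    ∃ n₀ : ℕ, ∀ n : ℕ, n₀ ≤ n → (1 + C * κ ^ (⌊δ * n⌋₊ / 2)) ^ n ≤ 2 := by
  have habs : |κ| < 1 := by rwa [abs_of_nonneg hκ0]
  have h1 := tendsto_pow_const_mul_const_pow_of_abs_lt_one 1 habs
  have h2 := tendsto_pow_const_mul_const_pow_of_abs_lt_one 0 habs
  have h3 : Filter.Tendsto (fun m : ℕ => (2 / δ * C) * ((m : ℝ) ^ 1 * κ ^ m + (m : ℝ) ^ 0 * κ ^ m))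
      Filter.atTop (nhds ((2 / δ * C) * (0 + 0))) := (h1.add h2).const_mul _
  have hlog : (0 : ℝ) < Real.log 2 := Real.log_pos (by norm_num)
  have h4 := h3.eventually_le_const (v := 2 / δ * C * (0 + 0)) (u := Real.log 2)
    (by simpa using hlog)
  rw [Filter.eventually_atTop] at h4
  obtain ⟨m₀, hm₀⟩ := h4
  refine ⟨⌈(2 * m₀ + 2) / δ⌉₊, fun n hn => ?_⟩
  have hn' : (2 * m₀ + 2) / δ ≤ (n : ℝ) := (Nat.le_ceil _).trans (by exact_mod_cast hn)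
  rw [div_le_iff₀ hδ] at hn'
  obtain ⟨m, hm⟩ : ∃ m, m = ⌊δ * n⌋₊ / 2 := ⟨_, rfl⟩
  rw [← hm]
  have hfl : δ * n < (⌊δ * n⌋₊ : ℝ) + 1 := Nat.lt_floor_add_one _
  have hm1 : ⌊δ * n⌋₊ ≤ 2 * m + 1 := by omega
  have hm2 : (⌊δ * n⌋₊ : ℝ) ≤ 2 * m + 1 := by exact_mod_cast hm1
  have hm3 : m₀ ≤ m := by
    have h5 : (2 * m₀ : ℝ) < 2 * m := by nlinarith
    have h6 : (m₀ : ℝ) < m := by linarith
    exact_mod_cast h6.le
  have h5 := hm₀ m hm3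
  have h6 : (n : ℝ) ≤ 2 / δ * (m + 1) := by
    rw [div_mul_eq_mul_div, le_div_iff₀ hδ]
    nlinarith
  have hk : 0 ≤ κ ^ m := pow_nonneg hκ0 m
  have h7 : (n : ℝ) * (C * κ ^ m) ≤ Real.log 2 := by
    calc (n : ℝ) * (C * κ ^ m) ≤ (2 / δ * (m + 1)) * (C * κ ^ m) :=
          mul_le_mul_of_nonneg_right h6 (by positivity)
      _ = (2 / δ * C) * ((m : ℝ) ^ 1 * κ ^ m + (m : ℝ) ^ 0 * κ ^ m) := by ring
      _ ≤ _ := h5
  calc (1 + C * κ ^ m) ^ n ≤ (Real.exp (C * κ ^ m)) ^ n := by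
        apply pow_le_pow_left₀ (by positivity)
        linarith [Real.add_one_le_exp (C * κ ^ m)]
    _ = Real.exp (n * (C * κ ^ m)) := by rw [← Real.exp_nat_mul]
    _ ≤ Real.exp (Real.log 2) := Real.exp_le_exp.2 h7
    _ = 2 := Real.exp_log (by norm_num)

theorem loc_num2 (κ B c : ℝ) (hκ0 : 0 ≤ κ) (hκ1 : κ < 1) (hB : 1 ≤ B) (hc : 0 < c) :
    ∃ n₀ : ℕ, ∀ n : ℕ, n₀ ≤ n → B ^ n * κ ^ (⌊c * n⌋₊ ^ 2 / 2) ≤ 1 := by
  obtain ⟨K, hK⟩ := exists_nat_gt (1 / c)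
  rw [div_lt_iff₀ hc] at hK
  have hA : 1 ≤ B ^ K := one_le_pow₀ hB
  have hA0 : 0 < B ^ K := lt_of_lt_of_le one_pos hA
  obtain ⟨q, hq⟩ := exists_pow_lt_of_lt_one (show (0 : ℝ) < 1 / B ^ K by positivity) hκ1
  rw [lt_div_iff₀ hA0] at hq
  refine ⟨⌈(4 * q + 1 + 1) / c⌉₊, fun n hn => ?_⟩
  have hn' : (4 * q + 1 + 1) / c ≤ (n : ℝ) := (Nat.le_ceil _).trans (by exact_mod_cast hn)
  rw [div_le_iff₀ hc] at hn'
  obtain ⟨t, ht⟩ : ∃ t, t = ⌊c * n⌋₊ := ⟨_, rfl⟩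
  rw [← ht]
  have hfl : c * n < (t : ℝ) + 1 := by
    rw [ht]
    exact Nat.lt_floor_add_one _
  have ht1 : 4 * q + 1 ≤ t := by
    have h5 : (4 * q + 1 : ℝ) < t := by nlinarith
    exact_mod_cast h5.le
  have h1 : n ≤ K * (t + 1) := by
    have h2 : (n : ℝ) ≤ K * (t + 1) := by
      have h3 : (n : ℝ) * 1 ≤ n * (K * c) := by
        apply mul_le_mul_of_nonneg_left hK.le (Nat.cast_nonneg n)
      have h4 : (K : ℝ) * (c * n) ≤ K * (t + 1) :=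
        mul_le_mul_of_nonneg_left hfl.le (Nat.cast_nonneg K)
      nlinarith
    exact_mod_cast h2
  have h2 : q * (t + 1) ≤ t ^ 2 / 2 := by
    rw [Nat.le_div_iff_mul_le (by norm_num)]
    nlinarith [Nat.mul_le_mul_left t ht1]
  calc B ^ n * κ ^ (t ^ 2 / 2) ≤ B ^ (K * (t + 1)) * κ ^ (q * (t + 1)) := by
        apply mul_le_mul (pow_le_pow_right₀ hB h1) (pow_le_pow_of_le_one hκ0 hκ1.le h2)
          (pow_nonneg hκ0 _) (by positivity)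
    _ = (κ ^ q * B ^ K) ^ (t + 1) := by
        rw [pow_mul, pow_mul, mul_pow, mul_comm]
    _ ≤ 1 := by
        apply pow_le_one₀ _ hq.le
        exact mul_nonneg (pow_nonneg hκ0 _) hA0.le

theorem loc_bound (p j r : ℕ) [Fact p.Prime] [NeZero (p ^ j)] (hj : 1 ≤ j) (δ : ℝ) (hδ : 0 < δ) :
    ∃ n₀ : ℕ, ∀ n : ℕ, n₀ ≤ n → ∀ (s : ℕ) (F Y : Matrix (Fin n) (Fin r) (ZMod (p ^ j))),
      δ * n ≤ s → DenseF (p ^ j) r s F →
      cg n (fun G => adj (ZMod (p ^ j)) G * F = Y) ≤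
        4 * ((Anti (p ^ j) r).card : ℝ) * ng n / ((p ^ j : ℕ) : ℝ) ^ (r * n) := by
  obtain ⟨N, hN⟩ : ∃ N : ℝ, N = ((p ^ j : ℕ) : ℝ) := ⟨_, rfl⟩
  have hN1' : 1 ≤ p ^ j := Nat.one_le_iff_ne_zero.2 (NeZero.ne _)
  have hN1 : 1 ≤ N := by
    rw [hN]
    exact_mod_cast hN1'
  have hκ0 := kap_pos (p ^ j)
  have hκ1 := kap_lt_one (p ^ j) hN1'
  have hNr : 1 ≤ N ^ r := one_le_pow₀ hN1
  have hr0 : (0 : ℝ) < 8 * ((r : ℝ) + 1) := by positivity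
  obtain ⟨n₁, h1⟩ := loc_num1 (kap (p ^ j)) (N ^ r) δ hκ0.le hκ1 (by linarith) hδ
  obtain ⟨n₂, h2⟩ := loc_num2 (kap (p ^ j)) (N ^ r) (δ / (8 * ((r : ℝ) + 1))) hκ0.le hκ1 hNr
    (by positivity)
  refine ⟨max (max n₁ n₂) ⌈(4 * r + 4) / δ⌉₊, fun n hn s F Y hs hF => ?_⟩
  have hn1 : n₁ ≤ n := (le_max_left _ _).trans ((le_max_left _ _).trans hn)
  have hn2 : n₂ ≤ n := (le_max_right _ _).trans ((le_max_left _ _).trans hn)
  have hn3 : (4 * r + 4) / δ ≤ (n : ℝ) :=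
    (Nat.le_ceil _).trans (by exact_mod_cast (le_max_right _ _).trans hn)
  rw [div_le_iff₀ hδ] at hn3
  obtain ⟨s', hs'⟩ : ∃ s', s' = ⌊δ * n⌋₊ := ⟨_, rfl⟩
  obtain ⟨t, ht⟩ : ∃ t, t = ⌊δ / (8 * ((r : ℝ) + 1)) * n⌋₊ := ⟨_, rfl⟩
  have h3 : s' ≤ s := by
    rw [hs']
    exact Nat.floor_le_of_le hs
  have hfl : δ * n < (s' : ℝ) + 1 := by
    rw [hs']
    exact Nat.lt_floor_add_one _
  have htl : (t : ℝ) ≤ δ / (8 * ((r : ℝ) + 1)) * n := by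
    rw [ht]
    exact Nat.floor_le (by positivity)
  have hst : 2 * (r * (t + 1) + t) ≤ s' := by
    have h4 : (8 * ((r : ℝ) + 1)) * t ≤ δ * n := by
      have h5 := mul_le_mul_of_nonneg_left htl hr0.le
      have h6 : 8 * ((r : ℝ) + 1) * (δ / (8 * ((r : ℝ) + 1)) * n) = δ * n := by
        field_simp
      rw [h6] at h5
      exact h5
    have h5 : (2 * (r * (t + 1) + t) : ℝ) < s' + 1 := by nlinarith
    have h6 : 2 * (r * (t + 1) + t) < s' + 1 := by exact_mod_cast h5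
    omega
  have h4 := graph_kap (p ^ j) r n F Y
  have h5 := sum_kap_le p j r s' t n hj F (hF.mono h3) hst (kap (p ^ j)) hκ0.le hκ1.le
  have h6 := h1 n hn1
  have h7 := h2 n hn2
  rw [← hs'] at h6
  rw [← ht] at h7
  rw [← hN] at h5 ⊢
  have hN' : ((p ^ j : ℕ) : ℝ) = N := hN.symm
  rw [hN'] at h4
  have h8 : (1 : ℝ) ≤ ((Anti (p ^ j) r).card : ℝ) := by
    exact_mod_cast one_le_card_anti (p ^ j) r
  have h9 : ∑ X : Matrix (Fin n) (Fin r) (ZMod (p ^ j)), kap (p ^ j) ^ (nbu X F) ≤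
      4 * ((Anti (p ^ j) r).card : ℝ) := by
    rw [pow_mul] at h5
    nlinarith
  have hng : (0 : ℝ) ≤ ng n / N ^ (r * n) := by
    apply div_nonneg
    · exact Nat.cast_nonneg _
    · positivity
  calc cg n (fun G => adj (ZMod (p ^ j)) G * F = Y) ≤ _ := h4
    _ ≤ ng n / N ^ (r * n) * (4 * ((Anti (p ^ j) r).card : ℝ)) :=
        mul_le_mul_of_nonneg_left h9 hng
    _ = _ := by ring

end Pool.Agent.H66.DG
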