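import Pool.Agent.H66.DG.P2b

/-!
# DG-P3 P2c: the number of bases of doubly even isotropic subspaces

`DE n d`: the linearly independent `d`-tuples of mutually orthogonal vectors of `F_2^n` with numbers
of ones divisible by `4`.  `card_DE_le`: for `2 d ≤ n`, `#(DE n d) ≤ 15 * 2^(d n) /
2^((d + 1).choose 2 + d)`.
PROOF.  The case `n = 0` is trivial (`d = 0`).  Let `n ≥ 1`, `a_d` (`b_d`) the number of the
`x ∈ DE n d` whose span does not contain (contains) the all ones vector `e`.  Splitting off the last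
vector (`Fin.snoc`, `Fin.init`; the restriction of `x ∈ DE n (d+1)` to the first `d` vectors is in
`DE n d`, and the last one is orthogonal to them and has `4 ∣ nz`), `card_dev` gives
`a_(d+1) ≤ a_d T_d` and `b_(d+1) ≤ b_d (2 T_d) + a_d 2^d` with `T_d = 2^n / 2^(d + 2) + sqrt (2^n) / 2`
(for the second: if `e ∉ span (x_1..x_d)` but `e ∈ span (x_1..x_(d+1))` then
`x_(d+1) ∈ e + span (x_1..x_d)`, which has `2^d` elements; if `e` is in the span of the first `d`
then the number of `x_(d+1)` is at most `2 * 2^n / 2^(d+2) + sqrt (2^n) / 2 ≤ 2 T_d`).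
With `P_d = ∏_{k < d} T_k`: `a_d ≤ P_d` and `b_d ≤ P_d β_d`, `β_0 = 0`,
`β_(d+1) = 2 β_d + 2^d / T_d ≤ 2 β_d + 2^(2 d + 2) / 2^n`, so `β_d ≤ 2^(2 d + 1) / 2^n` by induction
(`2 * 2^(2d+1) + 2^(2d+2) = 2^(2d+3)`), `≤ 2` as `2 d ≤ n`.
So `#(DE n d) ≤ 3 P_d`.  Finally `P_d = 2^(d n) / 2^(∑_{k<d} (k + 2)) * ∏_{k < d} (1 + u_k)`,
`∑_{k<d} (k+2) = (d + 1).choose 2 + d`, `u_k = (sqrt (2^n) / 2) * 2^(k+2) / 2^n = 2^(k+1) / sqrt(2^n)
≤ 2^(k + 1 - d)` as `sqrt (2^n) ≥ 2^d`, and
`∏_{k < d} (1 + 2^(k+1-d)) = 2 ∏_{1 ≤ i < d} (1 + 2^(-i)) ≤ 5`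
(`(1 + 1/2)(1 + 1/4)(1 + 1/8) ∏_{i ≥ 4} (1 + 2^-i)`, and `∏_{i ≥ 4} (1 + 2^(-i)) ≤ exp (1/8) ≤ 1.14`;
e.g. prove by induction `∏_{1 ≤ i < m} (1 + 2^(-i)) ≤ 5/2 - 5/2^m` for `m ≥ 3`, hint: check
`(5/2 - 5/2^m)(1 + 2^(-m)) ≤ 5/2 - 5/2^(m+1)`, that is `5/2 2^-m ≤ 5/2 2^-m + 5 2^(-2m)`).
-/

set_option autoImplicit false

namespace Pool.Agent.H66.DG

open Matrix Classical Pool.Agent.H66.SP Pool.Agent.H95.SQ

/-- independent tuples of mutually orthogonal vectors with numbers of ones divisible by `4` -/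
noncomputable def DE (n d : ℕ) : Finset (Fin d → Fin n → ZMod 2) :=
  Finset.univ.filter (fun x => LinearIndependent (ZMod 2) x ∧ (∀ i j, x i ⬝ᵥ x j = 0) ∧
    ∀ i, 4 ∣ nz (x i))

/-- all ones -/
def P2c_e (n : ℕ) : Fin n → ZMod 2 := fun _ => 1

/-- the bound of `card_dev` if all ones is not in the span -/
noncomputable def P2c_T (n d : ℕ) : ℝ := (2 : ℝ) ^ n / 2 ^ (d + 2) + Real.sqrt (2 ^ n) / 2

/-- all ones not in the span -/
noncomputable def P2c_A (n d : ℕ) : Finset (Fin d → Fin n → ZMod 2) :=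
  (DE n d).filter (fun x => P2c_e n ∉ Submodule.span (ZMod 2) (Set.range x))

/-- all ones in the span -/
noncomputable def P2c_B (n d : ℕ) : Finset (Fin d → Fin n → ZMod 2) :=
  (DE n d).filter (fun x => P2c_e n ∈ Submodule.span (ZMod 2) (Set.range x))

theorem P2c_mem_DE {n d : ℕ} (x : Fin d → Fin n → ZMod 2) : x ∈ DE n d ↔
    LinearIndependent (ZMod 2) x ∧ (∀ i j, x i ⬝ᵥ x j = 0) ∧ ∀ i, 4 ∣ nz (x i) := by
  unfold DE
  simp only [Finset.mem_filter, Finset.mem_univ, true_and]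

theorem P2c_init {n d : ℕ} {x : Fin (d + 1) → Fin n → ZMod 2} (hx : x ∈ DE n (d + 1)) :
    Fin.init x ∈ DE n d := by
  rw [P2c_mem_DE] at hx ⊢
  refine ⟨?_, fun i j => hx.2.1 _ _, fun i => hx.2.2 _⟩
  exact hx.1.comp _ (Fin.castSucc_injective d)

theorem P2c_span_init {n d : ℕ} (x : Fin (d + 1) → Fin n → ZMod 2) :
    Submodule.span (ZMod 2) (Set.range (Fin.init x : Fin d → Fin n → ZMod 2)) ≤
      Submodule.span (ZMod 2) (Set.range x) := by
  refine Submodule.span_mono ?_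
  rintro y ⟨i, rfl⟩
  exact ⟨i.castSucc, rfl⟩

/-- the fibre of `Fin.init` -/
theorem P2c_fibre {n d : ℕ} (S : Finset (Fin (d + 1) → Fin n → ZMod 2)) (hS : S ⊆ DE n (d + 1))
    (x0 : Fin d → Fin n → ZMod 2) (hx0 : x0 ∈ DE n d) :
    ((S.filter (fun x => Fin.init x = x0)).card : ℝ) ≤ (2 : ℝ) ^ n / 2 ^ (d + 2) *
        (1 + (if P2c_e n ∈ Submodule.span (ZMod 2) (Set.range x0) then 1 else 0)) +
        Real.sqrt (2 ^ n) / 2 := by
  have h1 := card_dev n d x0 ((P2c_mem_DE x0).1 hx0).1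
  refine le_trans ?_ h1
  rw [Nat.cast_le]
  refine Finset.card_le_card_of_injOn (fun x => x (Fin.last d)) ?_ ?_
  · intro x hx
    have hx' := Finset.mem_filter.1 hx
    have hxD := (P2c_mem_DE x).1 (hS hx'.1)
    simp only [Finset.coe_filter, Finset.mem_univ, true_and, Set.mem_ofPred_eq]
    refine ⟨fun i => ?_, hxD.2.2 _⟩
    rw [← hx'.2]
    exact hxD.2.1 _ _
  · intro x hx y hy hxy
    have hx' := Finset.mem_filter.1 hx
    have hy' := Finset.mem_filter.1 hy
    rw [← Fin.snoc_init_self x, ← Fin.snoc_init_self y, hx'.2, hy'.2]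
    exact congrArg _ hxy

theorem P2c_fibre2 {n d : ℕ} (x0 : Fin d → Fin n → ZMod 2)
    (he : P2c_e n ∉ Submodule.span (ZMod 2) (Set.range x0)) :
    (((P2c_B n (d + 1)).filter (fun x => Fin.init x = x0)).card : ℝ) ≤ (2 : ℝ) ^ d := by
  have h0 : ((P2c_B n (d + 1)).filter (fun x => Fin.init x = x0)).card ≤
      ((Finset.univ : Finset (Fin d → ZMod 2)).image
        (fun c => P2c_e n - ∑ i, c i • x0 i)).card := by
    refine Finset.card_le_card_of_injOn (fun x => x (Fin.last d)) ?_ ?_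
    · intro x hx
      have hx' := Finset.mem_filter.1 hx
      have hxe := (Finset.mem_filter.1 hx'.1).2
      rw [Submodule.mem_span_range_iff_exists_fun] at hxe
      obtain ⟨c, hc⟩ := hxe
      rw [Fin.sum_univ_castSucc] at hc
      have hinit : ∀ i : Fin d, x i.castSucc = x0 i := fun i => by
        rw [← hx'.2]
        rfl
      simp only [hinit] at hc
      have hcl : c (Fin.last d) = 1 := by
        have h2 : ∀ a : ZMod 2, a = 0 ∨ a = 1 := by decide
        rcases h2 (c (Fin.last d)) with h | h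
        · exfalso
          apply he
          rw [h, zero_smul, add_zero] at hc
          rw [Submodule.mem_span_range_iff_exists_fun]
          exact ⟨_, hc⟩
        · exact h
      rw [hcl, one_smul] at hc
      simp only [Finset.coe_image, Finset.coe_univ, Set.image_univ, Set.mem_range]
      exact ⟨fun i => c i.castSucc, by rw [← hc]; abel⟩
    · intro x hx y hy hxy
      have hx' := Finset.mem_filter.1 hx
      have hy' := Finset.mem_filter.1 hy
      rw [← Fin.snoc_init_self x, ← Fin.snoc_init_self y, hx'.2, hy'.2]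
      exact congrArg _ hxy
  have h1 : ((Finset.univ : Finset (Fin d → ZMod 2)).image
        (fun c => P2c_e n - ∑ i, c i • x0 i)).card ≤ 2 ^ d := by
    refine Finset.card_image_le.trans (le_of_eq ?_)
    rw [Finset.card_univ, Fintype.card_fun, ZMod.card, Fintype.card_fin]
  exact_mod_cast h0.trans h1

theorem P2c_A_succ (n d : ℕ) :
    ((P2c_A n (d + 1)).card : ℝ) ≤ (P2c_A n d).card * P2c_T n d := by
  have hmap : ∀ x ∈ P2c_A n (d + 1), (Fin.init x : Fin d → Fin n → ZMod 2) ∈ P2c_A n d := by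
    intro x hx
    have hx' := Finset.mem_filter.1 hx
    exact Finset.mem_filter.2 ⟨P2c_init hx'.1, fun h => hx'.2 (P2c_span_init x h)⟩
  rw [Finset.card_eq_sum_card_fiberwise (s := P2c_A n (d + 1)) (t := P2c_A n d)
    (f := fun x => (Fin.init x : Fin d → Fin n → ZMod 2))
    (fun x hx => Finset.mem_coe.2 (hmap x (Finset.mem_coe.1 hx)))]
  push_cast
  rw [← nsmul_eq_mul]
  refine Finset.sum_le_card_nsmul _ _ _ fun x0 hx0 => ?_
  have hx0' := Finset.mem_filter.1 hx0
  have h1 := P2c_fibre (P2c_A n (d + 1)) (Finset.filter_subset _ _) x0 hx0'.1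
  rw [if_neg hx0'.2, add_zero, mul_one] at h1
  exact h1

theorem P2c_B_succ (n d : ℕ) :
    ((P2c_B n (d + 1)).card : ℝ) ≤
      (P2c_B n d).card * (2 * P2c_T n d) + (P2c_A n d).card * 2 ^ d := by
  have hmap : ∀ x ∈ P2c_B n (d + 1), (Fin.init x : Fin d → Fin n → ZMod 2) ∈
      P2c_B n d ∪ P2c_A n d := by
    intro x hx
    have hx' := Finset.mem_filter.1 hx
    rw [Finset.mem_union]
    by_cases h : P2c_e n ∈ Submodule.span (ZMod 2)
        (Set.range (Fin.init x : Fin d → Fin n → ZMod 2))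
    · exact Or.inl (Finset.mem_filter.2 ⟨P2c_init hx'.1, h⟩)
    · exact Or.inr (Finset.mem_filter.2 ⟨P2c_init hx'.1, h⟩)
  have hdisj : Disjoint (P2c_B n d) (P2c_A n d) := by
    rw [Finset.disjoint_left]
    intro x hx hx'
    exact (Finset.mem_filter.1 hx').2 (Finset.mem_filter.1 hx).2
  rw [Finset.card_eq_sum_card_fiberwise (s := P2c_B n (d + 1)) (t := P2c_B n d ∪ P2c_A n d)
    (f := fun x => (Fin.init x : Fin d → Fin n → ZMod 2))
    (fun x hx => Finset.mem_coe.2 (hmap x (Finset.mem_coe.1 hx))), Finset.sum_union hdisj]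
  push_cast
  refine add_le_add ?_ ?_
  · rw [← nsmul_eq_mul]
    refine Finset.sum_le_card_nsmul _ _ _ fun x0 hx0 => ?_
    have hx0' := Finset.mem_filter.1 hx0
    have h1 := P2c_fibre (P2c_B n (d + 1)) (Finset.filter_subset _ _) x0 hx0'.1
    rw [if_pos hx0'.2] at h1
    refine h1.trans ?_
    unfold P2c_T
    have := Real.sqrt_nonneg ((2 : ℝ) ^ n)
    linarith
  · rw [← nsmul_eq_mul]
    refine Finset.sum_le_card_nsmul _ _ _ fun x0 hx0 => ?_
    exact P2c_fibre2 x0 (Finset.mem_filter.1 hx0).2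

/-- the product of the bounds -/
noncomputable def P2c_P (n d : ℕ) : ℝ := ∏ k ∈ Finset.range d, P2c_T n k

theorem P2c_T_pos (n d : ℕ) : 0 < P2c_T n d := by
  unfold P2c_T
  have := Real.sqrt_nonneg ((2 : ℝ) ^ n)
  positivity

theorem P2c_P_pos (n d : ℕ) : 0 < P2c_P n d := Finset.prod_pos fun k _ => P2c_T_pos n k

theorem P2c_A_le (n d : ℕ) : ((P2c_A n d).card : ℝ) ≤ P2c_P n d := by
  induction d with
  | zero =>
    have h1 : (P2c_A n 0).card ≤ 1 := by
      refine (Finset.card_le_univ _).trans (le_of_eq ?_)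
      rw [Fintype.card_fun]
      simp
    unfold P2c_P
    rw [Finset.range_zero, Finset.prod_empty]
    exact_mod_cast h1
  | succ d ih =>
    refine (P2c_A_succ n d).trans ?_
    unfold P2c_P at ih ⊢
    rw [Finset.prod_range_succ]
    exact mul_le_mul_of_nonneg_right ih (P2c_T_pos n d).le

theorem P2c_B_le (n d : ℕ) (hn : 1 ≤ n) :
    ((P2c_B n d).card : ℝ) ≤ P2c_P n d * ((2 : ℝ) ^ (2 * d + 1) / 2 ^ n) := by
  induction d with
  | zero =>
    have h1 : P2c_B n 0 = ∅ := by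
      rw [Finset.eq_empty_iff_forall_notMem]
      intro x hx
      have hx' := (Finset.mem_filter.1 hx).2
      have h2 : Set.range x = ∅ := Set.range_eq_empty x
      rw [h2, Submodule.span_empty, Submodule.mem_bot] at hx'
      have h3 := congrFun hx' ⟨0, hn⟩
      simp [P2c_e] at h3
    rw [h1, Finset.card_empty, Nat.cast_zero]
    have := P2c_P_pos n 0
    positivity
  | succ d ih =>
    refine (P2c_B_succ n d).trans ?_
    have hA := P2c_A_le n d
    have hP := P2c_P_pos n d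
    have hT := P2c_T_pos n d
    have hPs : P2c_P n (d + 1) = P2c_P n d * P2c_T n d := by
      unfold P2c_P
      rw [Finset.prod_range_succ]
    rw [hPs]
    have h1 : ((P2c_B n d).card : ℝ) * (2 * P2c_T n d) ≤
        P2c_P n d * ((2 : ℝ) ^ (2 * d + 1) / 2 ^ n) * (2 * P2c_T n d) :=
      mul_le_mul_of_nonneg_right ih (by positivity)
    have h2 : ((P2c_A n d).card : ℝ) * 2 ^ d ≤ P2c_P n d * 2 ^ d :=
      mul_le_mul_of_nonneg_right hA (by positivity)
    have h3 : (2 : ℝ) ^ d ≤ P2c_T n d * ((2 : ℝ) ^ (2 * d + 2) / 2 ^ n) := by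
      have h4 : (2 : ℝ) ^ n / 2 ^ (d + 2) ≤ P2c_T n d := by
        unfold P2c_T
        have := Real.sqrt_nonneg ((2 : ℝ) ^ n)
        linarith
      have h5 : (2 : ℝ) ^ n / 2 ^ (d + 2) * ((2 : ℝ) ^ (2 * d + 2) / 2 ^ n) = 2 ^ d := by
        have h6 : (2 : ℝ) ^ (2 * d + 2) = 2 ^ (d + 2) * 2 ^ d := by
          rw [← pow_add]
          congr 1
          omega
        rw [h6]
        field_simp
      rw [← h5]
      exact mul_le_mul_of_nonneg_right h4 (by positivity)
    have h4 : P2c_P n d * 2 ^ d ≤ P2c_P n d * (P2c_T n d * ((2 : ℝ) ^ (2 * d + 2) / 2 ^ n)) :=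
      mul_le_mul_of_nonneg_left h3 hP.le
    refine (add_le_add h1 (h2.trans h4)).trans (le_of_eq ?_)
    have h5 : (2 : ℝ) ^ (2 * (d + 1) + 1) = 2 ^ (2 * d + 1) * 2 + 2 ^ (2 * d + 2) := by
      rw [show 2 * (d + 1) + 1 = 2 * d + 1 + 2 by ring, show 2 * d + 2 = 2 * d + 1 + 1 by ring,
        pow_add _ (2 * d + 1) 2, pow_succ _ (2 * d + 1)]
      ring
    rw [h5]
    ring

theorem P2c_prod_le (d : ℕ) : ∏ i ∈ Finset.range d, (1 + (1 / 2 : ℝ) ^ i) ≤ 5 := by
  have key : ∀ m : ℕ, 3 ≤ m →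
      ∏ i ∈ Finset.range m, (1 + (1 / 2 : ℝ) ^ i) ≤ 5 - 10 * (1 / 2 : ℝ) ^ m := by
    intro m hm
    induction m, hm using Nat.le_induction with
    | base =>
      simp only [Finset.prod_range_succ, Finset.prod_range_zero]
      norm_num
    | succ m hm ih =>
      rw [Finset.prod_range_succ]
      have hx : 0 ≤ (1 / 2 : ℝ) ^ m := by positivity
      refine (mul_le_mul_of_nonneg_right ih (by positivity)).trans ?_
      rw [pow_succ]
      nlinarith
  rcases Nat.lt_or_ge d 3 with h | h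
  · interval_cases d <;> simp only [Finset.prod_range_succ, Finset.prod_range_zero] <;> norm_num
  · refine (key d h).trans ?_
    have hx : 0 ≤ (1 / 2 : ℝ) ^ d := by positivity
    linarith

theorem P2c_prod_le2 (d : ℕ) : ∏ k ∈ Finset.range d, (1 + (2 : ℝ) ^ (k + 1) / 2 ^ d) ≤ 5 := by
  refine le_trans (le_of_eq ?_) (P2c_prod_le d)
  rw [← Finset.prod_range_reflect]
  refine Finset.prod_congr rfl fun i hi => ?_
  have hi' := Finset.mem_range.1 hi
  congr 1
  rw [one_div, inv_pow, div_eq_iff (by positivity)]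
  have h1 : (2 : ℝ) ^ d = 2 ^ i * 2 ^ (d - 1 - i + 1) := by
    rw [← pow_add]
    congr 1
    omega
  rw [h1]
  field_simp

theorem P2c_P_eq (n d : ℕ) : P2c_P n d = (2 : ℝ) ^ (d * n) / 2 ^ ((d + 1).choose 2 + d) *
    ∏ k ∈ Finset.range d, (1 + (2 : ℝ) ^ (k + 1) / Real.sqrt (2 ^ n)) := by
  induction d with
  | zero => simp [P2c_P]
  | succ d ih =>
    have hPs : P2c_P n (d + 1) = P2c_P n d * P2c_T n d := by
      unfold P2c_P
      rw [Finset.prod_range_succ]
    rw [hPs, ih, Finset.prod_range_succ]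
    have hs : 0 < Real.sqrt ((2 : ℝ) ^ n) := Real.sqrt_pos.2 (by positivity)
    have hss : Real.sqrt ((2 : ℝ) ^ n) * Real.sqrt ((2 : ℝ) ^ n) = 2 ^ n :=
      Real.mul_self_sqrt (by positivity)
    have hT : P2c_T n d = (2 : ℝ) ^ n / 2 ^ (d + 2) *
        (1 + (2 : ℝ) ^ (d + 1) / Real.sqrt (2 ^ n)) := by
      unfold P2c_T
      generalize Real.sqrt ((2 : ℝ) ^ n) = s at hs hss
      rw [mul_add, mul_one]
      congr 1
      rw [← hss, pow_succ _ (d + 1)]
      field_simp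
    have hc : (d + 1 + 1).choose 2 = (d + 1) + (d + 1).choose 2 := by
      rw [Nat.choose_succ_succ' (d + 1) 1, Nat.choose_one_right]
    have hpow : (2 : ℝ) ^ ((d + 1) * n) / 2 ^ ((d + 1 + 1).choose 2 + (d + 1)) =
        (2 : ℝ) ^ (d * n) / 2 ^ ((d + 1).choose 2 + d) * ((2 : ℝ) ^ n / 2 ^ (d + 2)) := by
      rw [hc, div_mul_div_comm, ← pow_add, ← pow_add]
      congr 2
      · ring
      · omega
    rw [hpow, hT]
    ring

theorem card_DE_le (n d : ℕ) (hd : 2 * d ≤ n) :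
    ((DE n d).card : ℝ) ≤ 15 * (2 : ℝ) ^ (d * n) / 2 ^ ((d + 1).choose 2 + d) := by
  rcases Nat.eq_zero_or_pos n with hn | hn
  · subst hn
    have hd0 : d = 0 := by omega
    subst hd0
    have h1 : (DE 0 0).card ≤ 1 := by
      refine (Finset.card_le_univ _).trans (le_of_eq ?_)
      rw [Fintype.card_fun]
      simp
    have h2 : ((DE 0 0).card : ℝ) ≤ 1 := by exact_mod_cast h1
    refine h2.trans ?_
    norm_num
  · have hsplit : (DE n d).card = (P2c_B n d).card + (P2c_A n d).card :=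
      (Finset.card_filter_add_card_filter_not _).symm
    have hA := P2c_A_le n d
    have hB := P2c_B_le n d hn
    have hP := P2c_P_pos n d
    have h1 : (2 : ℝ) ^ (2 * d + 1) / 2 ^ n ≤ 2 := by
      rw [div_le_iff₀ (by positivity), pow_succ, mul_comm]
      exact mul_le_mul_of_nonneg_left (pow_le_pow_right₀ (by norm_num) hd) (by norm_num)
    have h2 : ((DE n d).card : ℝ) ≤ 3 * P2c_P n d := by
      rw [hsplit]
      push_cast
      have h3 := mul_le_mul_of_nonneg_left h1 hP.le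
      linarith
    have hs : (2 : ℝ) ^ d ≤ Real.sqrt (2 ^ n) := by
      refine Real.le_sqrt_of_sq_le ?_
      rw [← pow_mul]
      exact pow_le_pow_right₀ (by norm_num) (by omega)
    have h3 : ∏ k ∈ Finset.range d, (1 + (2 : ℝ) ^ (k + 1) / Real.sqrt (2 ^ n)) ≤ 5 := by
      refine le_trans (Finset.prod_le_prod (fun k _ => by positivity) fun k _ => ?_)
        (P2c_prod_le2 d)
      have h4 : (2 : ℝ) ^ (k + 1) / Real.sqrt (2 ^ n) ≤ (2 : ℝ) ^ (k + 1) / 2 ^ d :=
        div_le_div_of_nonneg_left (by positivity) (by positivity) hs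
      linarith
    refine h2.trans ?_
    rw [P2c_P_eq]
    have h4 : 0 ≤ (2 : ℝ) ^ (d * n) / 2 ^ ((d + 1).choose 2 + d) := by positivity
    have h5 := mul_le_mul_of_nonneg_left h3 h4
    calc 3 * ((2 : ℝ) ^ (d * n) / 2 ^ ((d + 1).choose 2 + d) *
          ∏ k ∈ Finset.range d, (1 + (2 : ℝ) ^ (k + 1) / Real.sqrt (2 ^ n)))
        ≤ 3 * ((2 : ℝ) ^ (d * n) / 2 ^ ((d + 1).choose 2 + d) * 5) := by linarith
      _ = 15 * (2 : ℝ) ^ (d * n) / 2 ^ ((d + 1).choose 2 + d) := by ring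

end Pool.Agent.H66.DG
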