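import Pool.Agent.H66.DG.P2a
import Pool.Agent.H66.DG.P2c

/-!
# DG-P4 P2d: interface I-P2, the rank at the prime 2

`ip2`: the proportion of the graphs with a `d`-dimensional `U` with `Ob2 G U` is at most `60 / 2^d`,
for every `n` and every `d`.
PROOF.  `Ob2 G U` implies `x . y = 0` for `x, y ∈ U`: `nz (x + y) = nz x + nz y - 2 m`, `m` the
number of common ones, so `2 ∣ m` and `x . y = m = 0` in `ZMod 2`.  So `U` is contained in its
orthogonal complement and `2 d ≤ n` (`finrank U + finrank U^⊥ = n`, e.g. from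
`LinearMap.BilinForm`/`dotProduct` facts, or: a matrix `M` with rows a basis of `U` satisfies
`M Mᵀ = 0`, rank `M = d`, so `d ≤ dim ker M = n - d`).  If `n < 2 d` there is no such `U`.
Let `2 d ≤ n`.  Let `B` be the set of the bad graphs.  For `G ∈ B` (with `U`) every basis
`x : Fin d → U` of `U` gives an element of `DE n d` for which there is `θ` with
`A F = F * θ`, `F v i = x i v` (`U` is invariant); there are `∏_{i<d} (2^d - 2^i) ≥ 2^(d^2) / 4` of
them (`card_linearIndependent` with `V = U`, `k = d`).  So by double counting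
`#B * 2^(d^2) / 4 ≤ ∑_{x ∈ DE n d} ∑_θ #{G | A F = F θ} ≤ #(DE n d) * 2^(d^2) *
ng n / 2^(d n - (d + 1).choose 2)` (`card_mul_eq`), and with `card_DE_le`
`#B ≤ 60 * 2^(d n) / (2^((d+1).choose 2 + d) * 2^(d n - (d+1).choose 2)) * ng n = 60 / 2^d * ng n`.
`prod_ge`: `∏_{i<d} (2^d - 2^i) ≥ 2^(d^2) / 4`: equal to `2^(d^2) ∏_{1 ≤ i ≤ d} (1 - 2^(-i))`, and by
induction on `m ≥ 1` `∏_{1 ≤ i ≤ m} (1 - 2^(-i)) ≥ 1/4 + 1/2^(m+1)` (`m = 1`: `1/2`; step:
`(1/4 + 2^-(m+1))(1 - 2^-(m+1)) ≥ 1/4 + 2^-(m+2)`, as `2^-(m+1) (1 - 1/4) - 4^-(m+1) ≥ 2^-(m+2)`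
iff `1/4 ≥ 2^-(m+1)`).
`ip2_tail`: the sum over `R ≤ d ≤ n` is at most `120 / 2^R`.
-/

set_option autoImplicit false

namespace Pool.Agent.H66.DG

open Matrix Classical Pool.Agent.H66.SP Pool.Agent.H95.SQ Pool.Agent.H10.DG

theorem P2d_prod (m : ℕ) (hm : 1 ≤ m) :
    1 / 4 + (1 / 2 : ℝ) ^ (m + 1) ≤ ∏ i ∈ Finset.range m, (1 - (1 / 2 : ℝ) ^ (i + 1)) := by
  induction m, hm using Nat.le_induction with
  | base => norm_num
  | succ m hm ih =>
    rw [Finset.prod_range_succ]
    have hx : 0 ≤ (1 / 2 : ℝ) ^ (m + 1) := by positivity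
    have hx2 : (1 / 2 : ℝ) ^ (m + 1) ≤ 1 / 4 := by
      have h1 : (1 / 2 : ℝ) ^ (m + 1) ≤ (1 / 2 : ℝ) ^ 2 :=
        pow_le_pow_of_le_one (by norm_num) (by norm_num) (by omega)
      refine h1.trans (by norm_num)
    refine le_trans ?_ (mul_le_mul_of_nonneg_right ih (by linarith))
    rw [pow_succ _ (m + 1)]
    nlinarith

theorem prod_ge (d : ℕ) :
    (2 : ℝ) ^ (d ^ 2) / 4 ≤ ∏ i ∈ Finset.range d, ((2 : ℝ) ^ d - 2 ^ i) := by
  rcases Nat.eq_zero_or_pos d with h | h
  · subst h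
    norm_num
  · have h1 : ∏ i ∈ Finset.range d, ((2 : ℝ) ^ d - 2 ^ i) =
        (2 : ℝ) ^ (d ^ 2) * ∏ i ∈ Finset.range d, (1 - (1 / 2 : ℝ) ^ (i + 1)) := by
      rw [← Finset.prod_range_reflect]
      have h2 : (2 : ℝ) ^ (d ^ 2) = ∏ i ∈ Finset.range d, (2 : ℝ) ^ d := by
        rw [Finset.prod_const, Finset.card_range, ← pow_mul, sq]
      rw [h2, ← Finset.prod_mul_distrib]
      refine Finset.prod_congr rfl fun i hi => ?_
      have hi' := Finset.mem_range.1 hi
      rw [mul_sub, mul_one]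
      congr 1
      have h3 : (2 : ℝ) ^ d = 2 ^ (d - 1 - i) * 2 ^ (i + 1) := by
        rw [← pow_add]
        congr 1
        omega
      rw [h3, one_div, inv_pow]
      field_simp
    rw [h1]
    have h2 := P2d_prod d h
    have h3 : 0 ≤ (1 / 2 : ℝ) ^ (d + 1) := by positivity
    have h4 : (1 : ℝ) / 4 ≤ ∏ i ∈ Finset.range d, (1 - (1 / 2 : ℝ) ^ (i + 1)) := by linarith
    calc (2 : ℝ) ^ (d ^ 2) / 4 = (2 : ℝ) ^ (d ^ 2) * (1 / 4) := by ring
      _ ≤ _ := mul_le_mul_of_nonneg_left h4 (by positivity)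

theorem P2d_nz {n : ℕ} (x y : Fin n → ZMod 2) : nz (x + y) +
    2 * ((Finset.univ : Finset (Fin n)).filter (fun v => x v ≠ 0 ∧ y v ≠ 0)).card =
      nz x + nz y := by
  unfold nz
  rw [Finset.card_filter, Finset.card_filter, Finset.card_filter, Finset.card_filter,
    Finset.mul_sum, ← Finset.sum_add_distrib, ← Finset.sum_add_distrib]
  refine Finset.sum_congr rfl fun v _ => ?_
  rw [Pi.add_apply]
  generalize x v = a
  generalize y v = b
  have h2 : ∀ a : ZMod 2, a = 0 ∨ a = 1 := by decide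
  have h11 : (1 : ZMod 2) + 1 = 0 := by decide
  have h10 : (1 : ZMod 2) ≠ 0 := by decide
  rcases h2 a with rfl | rfl <;> rcases h2 b with rfl | rfl <;> simp [h11]

theorem P2d_dot {n : ℕ} (x y : Fin n → ZMod 2) : x ⬝ᵥ y =
    (((Finset.univ : Finset (Fin n)).filter (fun v => x v ≠ 0 ∧ y v ≠ 0)).card : ZMod 2) := by
  rw [Finset.card_filter, dotProduct]
  push_cast
  refine Finset.sum_congr rfl fun v _ => ?_
  generalize x v = a
  generalize y v = b
  have h2 : ∀ a : ZMod 2, a = 0 ∨ a = 1 := by decide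
  rcases h2 a with rfl | rfl <;> rcases h2 b with rfl | rfl <;> simp

theorem ob2_two_mul_le {n : ℕ} (G : SimpleGraph (Fin n))
    (U : Submodule (ZMod 2) (Fin n → ZMod 2)) (hU : Ob2 G U) :
    (∀ x ∈ U, ∀ y ∈ U, x ⬝ᵥ y = 0) ∧ 2 * Module.finrank (ZMod 2) U ≤ n := by
  have hdot : ∀ x ∈ U, ∀ y ∈ U, x ⬝ᵥ y = 0 := by
    intro x hx y hy
    have h1 := P2d_nz x y
    have h2 := hU.2 x hx
    have h3 := hU.2 y hy
    have h4 := hU.2 (x + y) (U.add_mem hx hy)
    rw [P2d_dot]
    rw [ZMod.natCast_eq_zero_iff]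
    omega
  refine ⟨hdot, ?_⟩
  have h1 := Subspace.finrank_add_finrank_dualAnnihilator_eq U
  rw [Module.finrank_fin_fun] at h1
  let φ : U →ₗ[ZMod 2] U.dualAnnihilator :=
    LinearMap.codRestrict _ ((dotProductEquiv (ZMod 2) (Fin n)).toLinearMap ∘ₗ U.subtype) (by
      intro x
      rw [Submodule.mem_dualAnnihilator]
      intro y hy
      exact hdot x x.2 y hy)
  have hφ : Function.Injective φ := by
    intro x y hxy
    have h2 := congrArg Subtype.val hxy
    exact Subtype.ext ((dotProductEquiv (ZMod 2) (Fin n)).injective h2)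
  have h2 := LinearMap.finrank_le_finrank_of_injective hφ
  omega

/-- the matrix with columns `x a` -/
def P2d_F {n d : ℕ} (x : Fin d → Fin n → ZMod 2) : Matrix (Fin n) (Fin d) (ZMod 2) :=
  Matrix.of fun v a => x a v

/-- a graph with an obstruction of dimension `d` gives many pairs `(x, θ)` -/
theorem P2d_lower {n d : ℕ} (G : SimpleGraph (Fin n))
    (hG : ∃ U : Submodule (ZMod 2) (Fin n → ZMod 2), Ob2 G U ∧
      Module.finrank (ZMod 2) U = d) :
    (2 : ℝ) ^ (d ^ 2) / 4 ≤ (((DE n d ×ˢ (Finset.univ : Finset (Matrix (Fin d) (Fin d) (ZMod 2)))).filter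
      (fun xt => adj (ZMod 2) G * P2d_F xt.1 = P2d_F xt.1 * xt.2)).card : ℝ) := by
  obtain ⟨U, hU, hd⟩ := hG
  have hdot := (ob2_two_mul_le G U hU).1
  have hcard := card_linearIndependent (K := ZMod 2) (V := U) (k := d) hd.ge
  rw [ZMod.card, hd] at hcard
  refine (prod_ge d).trans ?_
  have h1 : ∏ i ∈ Finset.range d, ((2 : ℝ) ^ d - 2 ^ i) =
      ((∏ i : Fin d, (2 ^ d - 2 ^ i.val) : ℕ) : ℝ) := by
    rw [Finset.prod_range]
    push_cast
    refine Finset.prod_congr rfl fun i _ => ?_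
    rw [Nat.cast_sub (Nat.pow_le_pow_right (by norm_num) i.2.le)]
    push_cast
    rfl
  rw [h1, ← hcard, Nat.card_eq_fintype_card, Nat.cast_le]
  have hth : ∀ x : {s : Fin d → U // LinearIndependent (ZMod 2) s},
      ∃ θ : Matrix (Fin d) (Fin d) (ZMod 2),
        adj (ZMod 2) G * P2d_F (fun a => (x.1 a : Fin n → ZMod 2)) =
          P2d_F (fun a => (x.1 a : Fin n → ZMod 2)) * θ := by
    intro x
    have hspan : Submodule.span (ZMod 2) (Set.range x.1) = ⊤ :=
      x.2.span_eq_top_of_card_eq_finrank' (by rw [Fintype.card_fin, hd])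
    have hex : ∀ a, ∃ c : Fin d → ZMod 2,
        ∑ b, c b • x.1 b = (⟨adj (ZMod 2) G *ᵥ (x.1 a : Fin n → ZMod 2), hU.1 _ (x.1 a).2⟩ : U) := by
      intro a
      rw [← Submodule.mem_span_range_iff_exists_fun, hspan]
      trivial
    choose c hc using hex
    refine ⟨Matrix.of fun b a => c a b, ?_⟩
    ext v a
    have h2 := congrFun (congrArg Subtype.val (hc a)) v
    rw [Submodule.coe_sum] at h2
    simp only [Finset.sum_apply, Submodule.coe_smul, Pi.smul_apply, smul_eq_mul, Matrix.mulVec,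
      dotProduct] at h2
    simp only [Matrix.mul_apply, P2d_F, Matrix.of_apply]
    rw [← h2]
    exact Finset.sum_congr rfl fun b _ => mul_comm _ _
  choose θ hθ using hth
  rw [← Finset.card_univ]
  refine Finset.card_le_card_of_injOn
    (fun x => ((fun a => (x.1 a : Fin n → ZMod 2)), θ x)) ?_ ?_
  · intro x _
    rw [Finset.mem_coe, Finset.mem_filter, Finset.mem_product]
    refine ⟨⟨?_, Finset.mem_univ _⟩, hθ x⟩
    rw [P2c_mem_DE]
    refine ⟨?_, fun i j => hdot _ (x.1 i).2 _ (x.1 j).2, fun i => hU.2 _ (x.1 i).2⟩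
    exact x.2.map' U.subtype (Submodule.ker_subtype _)
  · intro x _ y _ hxy
    have h2 := (Prod.mk.inj hxy).1
    apply Subtype.ext
    funext a
    exact Subtype.ext (congrFun h2 a)

theorem ip2 (n d : ℕ) :
    cg n (fun G => ∃ U : Submodule (ZMod 2) (Fin n → ZMod 2), Ob2 G U ∧
      Module.finrank (ZMod 2) U = d) ≤ 60 / 2 ^ d * ng n := by
  rcases Nat.lt_or_ge n (2 * d) with hnd | hnd
  · rw [cg_eq, Finset.filter_false_of_mem, Finset.card_empty, Nat.cast_zero]
    · have := ng_pos n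
      positivity
    · rintro G _ ⟨U, hU, hd⟩
      have := (ob2_two_mul_le G U hU).2
      omega
  · rw [cg_eq]
    set P : SimpleGraph (Fin n) → Prop := fun G =>
      ∃ U : Submodule (ZMod 2) (Fin n → ZMod 2), Ob2 G U ∧ Module.finrank (ZMod 2) U = d with hP
    set B := (Finset.univ : Finset (SimpleGraph (Fin n))).filter P with hB
    set X := DE n d ×ˢ (Finset.univ : Finset (Matrix (Fin d) (Fin d) (ZMod 2))) with hX
    set C := (d + 1).choose 2 with hC
    have hCle : C ≤ d * n := by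
      rw [hC, Nat.choose_two_right, Nat.add_sub_cancel]
      rcases Nat.eq_zero_or_pos d with h | h
      · subst h
        simp
      · refine Nat.div_le_of_le_mul ?_
        nlinarith
    -- double counting
    have h1 : (B.card : ℝ) * ((2 : ℝ) ^ (d ^ 2) / 4) ≤ ∑ G ∈ B, ((X.filter
        (fun xt => adj (ZMod 2) G * P2d_F xt.1 = P2d_F xt.1 * xt.2)).card : ℝ) := by
      rw [← nsmul_eq_mul]
      refine Finset.card_nsmul_le_sum _ _ _ fun G hG => ?_
      exact P2d_lower G (Finset.mem_filter.1 hG).2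
    have h2 : ∑ G ∈ B, ((X.filter
        (fun xt => adj (ZMod 2) G * P2d_F xt.1 = P2d_F xt.1 * xt.2)).card : ℝ) ≤
        ∑ xt ∈ X, ((((Finset.univ : Finset (SimpleGraph (Fin n))).filter
          (fun G => adj (ZMod 2) G * P2d_F xt.1 = P2d_F xt.1 * xt.2)).card : ℕ) : ℝ) := by
      have h3 : ∑ G ∈ B, (X.filter
        (fun xt => adj (ZMod 2) G * P2d_F xt.1 = P2d_F xt.1 * xt.2)).card ≤
        ∑ xt ∈ X, ((Finset.univ : Finset (SimpleGraph (Fin n))).filter
          (fun G => adj (ZMod 2) G * P2d_F xt.1 = P2d_F xt.1 * xt.2)).card := by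
        simp only [Finset.card_filter]
        rw [Finset.sum_comm]
        refine Finset.sum_le_sum fun xt _ => ?_
        exact Finset.sum_le_sum_of_subset (Finset.subset_univ _)
      exact_mod_cast h3
    have h3 : ∀ xt ∈ X, ((((Finset.univ : Finset (SimpleGraph (Fin n))).filter
          (fun G => adj (ZMod 2) G * P2d_F xt.1 = P2d_F xt.1 * xt.2)).card : ℕ) : ℝ) ≤
          ng n / 2 ^ (d * n - C) := by
      intro xt hxt
      have hx := (P2c_mem_DE xt.1).1 (Finset.mem_product.1 hxt).1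
      have h4 := card_mul_eq n d (P2d_F xt.1) (P2d_F xt.1 * xt.2) hx.1
      have h5 : ((Finset.univ : Finset (SimpleGraph (Fin n))).filter
          (fun G => adj (ZMod 2) G * P2d_F xt.1 = P2d_F xt.1 * xt.2)).card *
          2 ^ (d * n - C) ≤ Fintype.card (SimpleGraph (Fin n)) := by
        convert h4
      rw [le_div_iff₀ (by positivity)]
      unfold ng
      have h6 : ((((Finset.univ : Finset (SimpleGraph (Fin n))).filter
          (fun G => adj (ZMod 2) G * P2d_F xt.1 = P2d_F xt.1 * xt.2)).card *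
          2 ^ (d * n - C) : ℕ) : ℝ) ≤ ((Fintype.card (SimpleGraph (Fin n)) : ℕ) : ℝ) :=
        Nat.cast_le.2 h5
      rw [Nat.cast_mul, Nat.cast_pow, Nat.cast_ofNat] at h6
      exact h6
    have h4 := Finset.sum_le_card_nsmul _ _ _ h3
    have hXc : (X.card : ℝ) = (DE n d).card * 2 ^ (d ^ 2) := by
      rw [hX, Finset.card_product, Finset.card_univ]
      have : Fintype.card (Matrix (Fin d) (Fin d) (ZMod 2)) = 2 ^ (d ^ 2) := by
        rw [← Nat.card_eq_fintype_card,
          Nat.card_congr (Matrix.of (m := Fin d) (n := Fin d) (α := ZMod 2)).symm,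
          Nat.card_eq_fintype_card, Fintype.card_fun, Fintype.card_fun, ZMod.card,
          Fintype.card_fin, ← pow_mul, sq]
      rw [this]
      push_cast
      rfl
    rw [nsmul_eq_mul, hXc] at h4
    have h5 := (h1.trans h2).trans h4
    have h6 := card_DE_le n d hnd
    rw [← hC] at h6
    have hng := ng_pos n
    have h7 : (2 : ℝ) ^ (d * n) = 2 ^ C * 2 ^ (d * n - C) := by
      rw [← pow_add]
      congr 1
      omega
    have hY : (0 : ℝ) < 2 ^ (d ^ 2) := by positivity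
    have h8 : (B.card : ℝ) * ((2 : ℝ) ^ (d ^ 2) / 4) ≤
        15 * (2 : ℝ) ^ (d * n) / 2 ^ (C + d) * 2 ^ (d ^ 2) * (ng n / 2 ^ (d * n - C)) := by
      refine h5.trans ?_
      refine mul_le_mul_of_nonneg_right ?_ (by positivity)
      exact mul_le_mul_of_nonneg_right h6 (by positivity)
    have h9 : 15 * (2 : ℝ) ^ (d * n) / 2 ^ (C + d) * 2 ^ (d ^ 2) * (ng n / 2 ^ (d * n - C)) =
        60 / 2 ^ d * ng n * ((2 : ℝ) ^ (d ^ 2) / 4) := by
      rw [h7, pow_add]
      field_simp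
      ring
    rw [h9] at h8
    exact le_of_mul_le_mul_right h8 (by positivity)

theorem P2d_sum (R m : ℕ) (h : R ≤ m) :
    ∑ d ∈ Finset.Ico R m, 60 / (2 : ℝ) ^ d ≤ 120 / 2 ^ R - 120 / 2 ^ m := by
  induction m, h using Nat.le_induction with
  | base => simp
  | succ m hm ih =>
    rw [Finset.sum_Ico_succ_top hm]
    have h1 : 120 / (2 : ℝ) ^ (m + 1) = 60 / 2 ^ m := by
      rw [pow_succ]
      field_simp
      norm_num
    have h2 : 120 / (2 : ℝ) ^ m = 2 * (60 / 2 ^ m) := by ring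
    rw [h1]
    rw [h2] at ih
    linarith

theorem ip2_tail (n R : ℕ) :
    cg n (fun G => ∃ U : Submodule (ZMod 2) (Fin n → ZMod 2), Ob2 G U ∧
      R ≤ Module.finrank (ZMod 2) U) ≤ 120 / 2 ^ R * ng n := by
  have hng := ng_pos n
  have h1 : cg n (fun G => ∃ U : Submodule (ZMod 2) (Fin n → ZMod 2), Ob2 G U ∧
      R ≤ Module.finrank (ZMod 2) U) ≤
      cg n (fun G => ∃ d ∈ Finset.Ico R (max R (n + 1)),
        ∃ U : Submodule (ZMod 2) (Fin n → ZMod 2), Ob2 G U ∧
          Module.finrank (ZMod 2) U = d) := by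
    refine cg_mono n ?_
    rintro G ⟨U, hU, hR⟩
    refine ⟨Module.finrank (ZMod 2) U, ?_, U, hU, rfl⟩
    have h2 := Submodule.finrank_le U
    rw [Module.finrank_fin_fun] at h2
    rw [Finset.mem_Ico]
    exact ⟨hR, lt_of_lt_of_le (by omega) (le_max_right _ _)⟩
  refine h1.trans ((cg_exists n _ _).trans ?_)
  refine (Finset.sum_le_sum fun d _ => ip2 n d).trans ?_
  rw [← Finset.sum_mul]
  refine mul_le_mul_of_nonneg_right ?_ hng.le
  have h2 := P2d_sum R (max R (n + 1)) (le_max_left _ _)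
  have h3 : (0 : ℝ) ≤ 120 / 2 ^ (max R (n + 1)) := by positivity
  linarith

end Pool.Agent.H66.DG
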