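import Pool.Agent.H66.DG.StrA

/-!
# DG-S02b Str (exists_anti, nbu_ge): few bad pairs imply `X = L F` up to few vertices, with `L` antisymmetric

`N = p ^ j`, `F` is `DenseF` with parameter `s` and `X` has fewer than `t ^ 2` ordered bad pairs
(`nbo X F < t ^ 2`), `r (t + 1) + t ≤ s`.  Then there is `L ∈ Anti N r` with `X v = L *ᵥ F v` for
all but at most `r (t + 1)` vertices.

PROOF.  Write `B u v = X u ⬝ᵥ F v + X v ⬝ᵥ F u` (`= pr F X s(u, v)`, `pr_mk`; symmetric).
(1) `V' = {v | #{u ≠ v | B v u ≠ 0} ≤ t}`.  Each of the vertices outside of `V'` is in at least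
`t + 1` ordered bad pairs `(v, u)`, so `#(V \ V') (t + 1) ≤ nbo X F < t ^ 2` and `#(V \ V') < t ≤ s`.
(2) `exists_units`: for every set `Z` of at most `s` vertices there are `w_1, ..., w_r ∉ Z` such that
the `r × r` matrix `M` with rows `F w_i` is invertible over `ZMod (p ^ j)`.  Modulo `p`: let `Fb`
be the reduction of `F`, a matrix over the field `ZMod p`; every nontrivial combination of its
columns has more than `s` nonzero entries (a combination `c` mod `p` lifts to `c'`; then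
`p ^ (j-1) c' ≠ 0` and `F (p ^ (j-1) c')` is nonzero exactly where `Fb c` is).  So its columns are a
basis of a subspace `W` which is `Dense W s` and `exists_bases_step` (H95/SQ/HalA, with `U = Z`)
gives `w` with invertible `(Fb (w i) a)`; a matrix over `ZMod (p ^ j)` whose determinant is a unit
mod `p` is invertible (`ZMod.isUnit_iff_coprime` or: `x` is a unit iff its reduction mod `p` is not
zero).
(3) Apply (2) with `Z = V \ V'`.  Let `Z' = {w_i} ∪ ⋃_i {v ≠ w_i | B w_i v ≠ 0}`,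
`#Z' ≤ r (t + 1)`.  For `v ∉ Z'`: `X w_i . F v + X v . F w_i = 0` for all `i`, that is
`M (X v) = - (X w_i . F v)_i`, so `X v = L *ᵥ F v` with `L = - M⁻¹ * (matrix with rows X w_i)`.
(4) `L + Lᵀ = 0`.  Let `C = L + Lᵀ` (symmetric); for `u ≠ v` outside of `Z'`:
`B u v = (L F u) . F v + (L F v) . F u = F v . (C F u)`.  Suppose `C ≠ 0`.  There is `y` with
`c := C y ≠ 0` (`y` a unit vector), so `F u . c = (C F u) . y ≠ 0` for more than `s` vertices `u`,
hence `C F u ≠ 0` for more than `s - r (t + 1)` vertices `u ∉ Z'`, and for each of these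
`F v . (C F u) ≠ 0` for more than `s` vertices `v`, so for at least `s - r (t+1)` vertices `v ∉ Z'`,
`v ≠ u`.  This gives at least `(s + 1 - r (t + 1)) (s - r (t + 1)) ≥ (t + 1) t ≥ t ^ 2` ordered bad
pairs, a contradiction.
`nbu_ge`: if `L ∈ Anti N r` and `k = #{v | X v ≠ L *ᵥ F v}` satisfies `2 k ≤ s` then
`k (s / 2) ≤ nbu X F`.  Put `X' v = X v - L *ᵥ F v`; then `B_X u v = B_X' u v` for all `u, v`
(as `(L x) . y + (L y) . x = 0`).  For `u` with `X' u ≠ 0` there are more than `s` vertices `v` with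
`X' u . F v ≠ 0`, so at least `s + 1 - k ≥ s / 2` of them with `X' v = 0`, and for these
`B_X' u v = X' u . F v ≠ 0`; the unordered pairs `s(u, v)` are different (exactly one of the two
vertices has `X' ≠ 0`): `(u, v) ↦ s(u, v)` is injective on the set of these ordered pairs.
`two_nbu`: `nbo X F = 2 * nbu X F`: every unordered pair with two different elements comes from
exactly two ordered pairs (`Finset.card_eq_sum_card_fiberwise` for `(u, v) ↦ s(u, v)`; compare
`GrSum_pairs` in `H71/DG/GrSum`).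
-/

set_option autoImplicit false

namespace Pool.Agent.H66.DG

open Matrix Classical Pool.Agent.H66.SP Pool.Agent.H95.SQ Pool.Agent.H71.DG

/-- the bad pairs counted by the first vertex -/
theorem Str_nbo_sum {N r : ℕ} {V : Type*} [Fintype V] [DecidableEq V]
    (X F : Matrix V (Fin r) (ZMod N)) :
    nbo X F = ∑ u, ((Finset.univ : Finset V).filter
      (fun v => u ≠ v ∧ X u ⬝ᵥ F v + X v ⬝ᵥ F u ≠ 0)).card := by
  unfold nbo
  rw [Finset.card_filter, Fintype.sum_prod_type]
  refine Finset.sum_congr rfl fun u _ => ?_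
  rw [Finset.card_filter]
  refine Finset.sum_congr rfl fun v _ => ?_
  by_cases h : u ≠ v ∧ X u ⬝ᵥ F v + X v ⬝ᵥ F u ≠ 0
  · rw [if_pos h, if_pos h]
  · rw [if_neg h, if_neg h]

theorem Str_nz {N : ℕ} {V : Type*} [Fintype V] (x : V → ZMod N) :
    ((Finset.univ : Finset V).filter fun u => x u ≠ 0).card = nz x := by
  unfold nz
  congr

theorem Str_nbo_le {N r : ℕ} {V : Type*} [Fintype V] [DecidableEq V]
    (X F : Matrix V (Fin r) (ZMod N)) (S : Finset V) (m : ℕ)
    (h : ∀ u ∈ S, m ≤ ((Finset.univ : Finset V).filter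
      (fun v => u ≠ v ∧ X u ⬝ᵥ F v + X v ⬝ᵥ F u ≠ 0)).card) :
    S.card * m ≤ nbo X F := by
  rw [Str_nbo_sum]
  calc S.card * m = S.card • m := by rw [smul_eq_mul]
    _ ≤ ∑ u ∈ S, ((Finset.univ : Finset V).filter
      (fun v => u ≠ v ∧ X u ⬝ᵥ F v + X v ⬝ᵥ F u ≠ 0)).card :=
        Finset.card_nsmul_le_sum _ _ _ h
    _ ≤ _ := Finset.sum_le_sum_of_subset (Finset.subset_univ _)

theorem Str_cross {N r : ℕ} (L : Matrix (Fin r) (Fin r) (ZMod N)) (x y : Fin r → ZMod N) :
    (L *ᵥ x) ⬝ᵥ y + (L *ᵥ y) ⬝ᵥ x = y ⬝ᵥ ((L + Lᵀ) *ᵥ x) := by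
  rw [Matrix.add_mulVec, dotProduct_add, dotProduct_comm (L *ᵥ x) y]
  congr 1
  rw [Matrix.mulVec_transpose, dotProduct_comm (L *ᵥ y) x, dotProduct_comm y,
    Matrix.dotProduct_mulVec]

theorem Str_sdiff {V : Type*} [DecidableEq V] {A B : Finset V} {a b : ℕ}
    (hA : a ≤ A.card) (hB : B.card ≤ b) : a - b ≤ (A \ B).card := by
  have h := Finset.le_card_sdiff B A
  omega

theorem exists_anti (p j r s t : ℕ) [Fact p.Prime] [NeZero (p ^ j)] (hj : 1 ≤ j) {V : Type*}
    [Fintype V] [DecidableEq V] (F X : Matrix V (Fin r) (ZMod (p ^ j)))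
    (hF : DenseF (p ^ j) r s F) (hst : r * (t + 1) + t ≤ s) (hX : nbo X F < t ^ 2) :
    ∃ L ∈ Anti (p ^ j) r,
      ((Finset.univ : Finset V).filter (fun v => X v ≠ L *ᵥ F v)).card ≤ r * (t + 1) := by
  let dgr : V → Finset V := fun u => (Finset.univ : Finset V).filter
      (fun v => u ≠ v ∧ X u ⬝ᵥ F v + X v ⬝ᵥ F u ≠ 0)
  let Z : Finset V := (Finset.univ : Finset V).filter (fun v => t + 1 ≤ (dgr v).card)
  have hZ : Z.card ≤ s := by
    have h1 : Z.card * (t + 1) ≤ nbo X F := Str_nbo_le X F Z (t + 1) fun u hu =>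
      (Finset.mem_filter.mp hu).2
    have h2 : Z.card < t := by
      by_contra hcon
      push Not at hcon
      have h3 : t * (t + 1) ≤ Z.card * (t + 1) := Nat.mul_le_mul_right _ hcon
      nlinarith
    omega
  obtain ⟨w, _, hwZ, hM⟩ := exists_units p j r s hj F hF Z hZ
  set M : Matrix (Fin r) (Fin r) (ZMod (p ^ j)) := Matrix.of fun i a : Fin r => F (w i) a with hMdef
  let Y : Matrix (Fin r) (Fin r) (ZMod (p ^ j)) := Matrix.of fun i a : Fin r => X (w i) a
  have hdet : IsUnit M.det := (Matrix.isUnit_iff_isUnit_det M).mp hM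
  let L : Matrix (Fin r) (Fin r) (ZMod (p ^ j)) := -(M⁻¹ * Y)
  let Z' : Finset V := (Finset.univ : Finset (Fin r)).biUnion fun i => insert (w i) (dgr (w i))
  have hZ' : Z'.card ≤ r * (t + 1) := by
    have h1 : ∀ i ∈ (Finset.univ : Finset (Fin r)), (insert (w i) (dgr (w i))).card ≤ t + 1 := by
      intro i _
      have h2 : (dgr (w i)).card ≤ t := by
        by_contra hcon
        push Not at hcon
        exact hwZ i (Finset.mem_filter.mpr ⟨Finset.mem_univ _, hcon⟩)
      exact (Finset.card_insert_le _ _).trans (by omega)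
    have h3 := Finset.card_biUnion_le_card_mul (Finset.univ : Finset (Fin r))
      (fun i => insert (w i) (dgr (w i))) (t + 1) h1
    rw [Finset.card_univ, Fintype.card_fin] at h3
    exact h3
  have hXL : ∀ v, v ∉ Z' → X v = L *ᵥ F v := by
    intro v hv
    have h1 : ∀ i, X (w i) ⬝ᵥ F v + X v ⬝ᵥ F (w i) = 0 := by
      intro i
      by_contra hne
      apply hv
      refine Finset.mem_biUnion.mpr ⟨i, Finset.mem_univ _, ?_⟩
      rw [Finset.mem_insert]
      by_cases hvw : v = w i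
      · exact Or.inl hvw
      · exact Or.inr (Finset.mem_filter.mpr ⟨Finset.mem_univ _, fun h => hvw h.symm, hne⟩)
    have h2 : M *ᵥ X v = -(Y *ᵥ F v) := by
      funext i
      show F (w i) ⬝ᵥ X v = -(X (w i) ⬝ᵥ F v)
      rw [dotProduct_comm (F (w i))]
      exact eq_neg_of_add_eq_zero_right (h1 i)
    have h3 : M⁻¹ *ᵥ (M *ᵥ X v) = X v := by
      rw [Matrix.mulVec_mulVec, Matrix.nonsing_inv_mul M hdet, Matrix.one_mulVec]
    rw [← h3, h2]
    show _ = (-(M⁻¹ * Y)) *ᵥ F v
    rw [Matrix.mulVec_neg, Matrix.mulVec_mulVec, Matrix.neg_mulVec]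
  have hsub : ((Finset.univ : Finset V).filter (fun v => X v ≠ L *ᵥ F v)).card ≤
      r * (t + 1) := by
    refine (Finset.card_le_card fun v hv => ?_).trans hZ'
    by_contra hcon
    exact (Finset.mem_filter.mp hv).2 (hXL v hcon)
  refine ⟨L, ?_, hsub⟩
  refine Finset.mem_filter.mpr ⟨Finset.mem_univ _, ?_⟩
  by_contra hC
  set C : Matrix (Fin r) (Fin r) (ZMod (p ^ j)) := L + Lᵀ with hCdef
  have hCsymm : Cᵀ = C := by
    rw [hCdef, Matrix.transpose_add, Matrix.transpose_transpose, add_comm]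
  have hB : ∀ u v, u ∉ Z' → v ∉ Z' →
      X u ⬝ᵥ F v + X v ⬝ᵥ F u = F v ⬝ᵥ (C *ᵥ F u) := by
    intro u v hu hv
    rw [hXL u hu, hXL v hv]
    exact Str_cross L (F u) (F v)
  have hy : ∃ b : Fin r, C *ᵥ Pi.single b 1 ≠ 0 := by
    by_contra hcon
    push Not at hcon
    apply hC
    ext a b
    have h := congrFun (hcon b) a
    rw [Matrix.mulVec_single_one] at h
    exact h
  obtain ⟨b, hb⟩ := hy
  let U : Finset V := (Finset.univ : Finset V).filter fun u => (F *ᵥ (C *ᵥ Pi.single b 1)) u ≠ 0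
  have hU : s < U.card := (hF _ hb).trans_eq (Str_nz _).symm
  have hUC : ∀ u ∈ U, C *ᵥ F u ≠ 0 := by
    intro u hu h0
    apply (Finset.mem_filter.mp hu).2
    show F u ⬝ᵥ (C *ᵥ Pi.single b 1) = 0
    rw [Matrix.dotProduct_mulVec, ← Matrix.mulVec_transpose, hCsymm, h0, zero_dotProduct]
  have hU' : t + 1 ≤ (U \ Z').card := by
    have := Str_sdiff (a := s + 1) hU hZ'
    omega
  have hdeg : ∀ u ∈ U \ Z', t ≤ (dgr u).card := by
    intro u hu
    rw [Finset.mem_sdiff] at hu
    let T : Finset V := (Finset.univ : Finset V).filter fun v => (F *ᵥ (C *ᵥ F u)) v ≠ 0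
    have hT : s < T.card := (hF _ (hUC u hu.1)).trans_eq (Str_nz _).symm
    have h1 : t ≤ (T \ insert u Z').card := by
      have := Str_sdiff (a := s + 1) (b := r * (t + 1) + 1) hT
        ((Finset.card_insert_le u Z').trans (by omega))
      omega
    refine h1.trans (Finset.card_le_card fun v hv => ?_)
    rw [Finset.mem_sdiff, Finset.mem_insert, not_or] at hv
    refine Finset.mem_filter.mpr ⟨Finset.mem_univ _, fun h => hv.2.1 h.symm, ?_⟩
    rw [hB u v hu.2 hv.2.2]
    exact (Finset.mem_filter.mp hv.1).2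
  have h1 : (U \ Z').card * t ≤ nbo X F := Str_nbo_le X F (U \ Z') t hdeg
  have h2 : (t + 1) * t ≤ (U \ Z').card * t := Nat.mul_le_mul_right t hU'
  nlinarith

theorem nbu_ge (N r s : ℕ) [NeZero N] {V : Type*} [Fintype V] [DecidableEq V]
    (F X : Matrix V (Fin r) (ZMod N)) (hF : DenseF N r s F)
    (L : Matrix (Fin r) (Fin r) (ZMod N)) (hL : L ∈ Anti N r)
    (hk : 2 * ((Finset.univ : Finset V).filter (fun v => X v ≠ L *ᵥ F v)).card ≤ s) :
    ((Finset.univ : Finset V).filter (fun v => X v ≠ L *ᵥ F v)).card * (s / 2) ≤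
      nbu X F := by
  have hL0 : L + Lᵀ = 0 := (Finset.mem_filter.mp hL).2
  set K : Finset V := (Finset.univ : Finset V).filter (fun v => X v ≠ L *ᵥ F v) with hK
  have hB : ∀ u v, v ∉ K → X u ⬝ᵥ F v + X v ⬝ᵥ F u = F v ⬝ᵥ (X u - L *ᵥ F u) := by
    intro u v hv
    have h1 : X v = L *ᵥ F v := by
      by_contra hcon
      exact hv (Finset.mem_filter.mpr ⟨Finset.mem_univ _, hcon⟩)
    have h2 := Str_cross L (F u) (F v)
    rw [hL0, Matrix.zero_mulVec, dotProduct_zero] at h2
    rw [h1, dotProduct_sub, dotProduct_comm (F v) (X u), dotProduct_comm (F v) (L *ᵥ F u)]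
    have h3 : (L *ᵥ F v) ⬝ᵥ F u = -((L *ᵥ F u) ⬝ᵥ F v) := eq_neg_of_add_eq_zero_right h2
    rw [h3, sub_eq_add_neg]
  let P : Finset (V × V) := (Finset.univ : Finset (V × V)).filter
    (fun e => e.1 ∈ K ∧ e.2 ∉ K ∧ X e.1 ⬝ᵥ F e.2 + X e.2 ⬝ᵥ F e.1 ≠ 0)
  have hP1 : K.card * (s / 2) ≤ P.card := by
    have hsum : P.card = ∑ u, ((Finset.univ : Finset V).filter
        (fun v => u ∈ K ∧ v ∉ K ∧ X u ⬝ᵥ F v + X v ⬝ᵥ F u ≠ 0)).card := by
      show ((Finset.univ : Finset (V × V)).filter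
        (fun e => e.1 ∈ K ∧ e.2 ∉ K ∧ X e.1 ⬝ᵥ F e.2 + X e.2 ⬝ᵥ F e.1 ≠ 0)).card = _
      rw [Finset.card_filter, Fintype.sum_prod_type]
      refine Finset.sum_congr rfl fun u _ => ?_
      rw [Finset.card_filter]
    rw [hsum]
    calc K.card * (s / 2) = K.card • (s / 2) := by rw [smul_eq_mul]
      _ ≤ ∑ u ∈ K, ((Finset.univ : Finset V).filter
        (fun v => u ∈ K ∧ v ∉ K ∧ X u ⬝ᵥ F v + X v ⬝ᵥ F u ≠ 0)).card := by
          refine Finset.card_nsmul_le_sum _ _ _ fun u hu => ?_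
          have hne : X u - L *ᵥ F u ≠ 0 := sub_ne_zero.mpr (Finset.mem_filter.mp hu).2
          let T : Finset V := (Finset.univ : Finset V).filter fun v =>
            (F *ᵥ (X u - L *ᵥ F u)) v ≠ 0
          have hT : s < T.card := (hF _ hne).trans_eq (Str_nz _).symm
          have h1 : s / 2 ≤ (T \ K).card := by
            have := Str_sdiff (a := s + 1) (b := s / 2) (B := K) hT (by omega)
            omega
          refine h1.trans (Finset.card_le_card fun v hv => ?_)
          rw [Finset.mem_sdiff] at hv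
          refine Finset.mem_filter.mpr ⟨Finset.mem_univ _, hu, hv.2, ?_⟩
          rw [hB u v hv.2]
          exact (Finset.mem_filter.mp hv.1).2
      _ ≤ _ := Finset.sum_le_sum_of_subset (Finset.subset_univ _)
  refine hP1.trans ?_
  unfold nbu
  refine Finset.card_le_card_of_injOn (fun e => s(e.1, e.2)) ?_ ?_
  · intro e he
    have he' := (Finset.mem_filter.mp he).2
    refine Finset.mem_coe.mpr (Finset.mem_filter.mpr ⟨?_, ?_⟩)
    · simp only [nd, Finset.mem_filter, Finset.mem_univ, true_and, Sym2.mk_isDiag_iff]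
      intro h
      exact he'.2.1 (h ▸ he'.1)
    · rw [pr_mk]
      exact he'.2.2
  · intro e he f hf hef
    have he' := (Finset.mem_filter.mp he).2
    have hf' := (Finset.mem_filter.mp hf).2
    have h := Sym2.eq_iff.mp hef
    rcases h with h | h
    · exact Prod.ext h.1 h.2
    · exact absurd (h.1 ▸ he'.1) hf'.2.1

end Pool.Agent.H66.DG
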