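import Pool.Agent.H66.DG.Defs
import Pool.Agent.H95.SQ.HalA

/-!
# DG-S02a StrA (two_nbu, exists_units; the text is common to StrA and Str): few bad pairs imply `X = L F` up to few vertices, with `L` antisymmetric

`N = p ^ j`, `F` is `DenseF` with parameter `s` and `X` has fewer than `t ^ 2` ordered bad pairs
(`nbo X F < t ^ 2`), `r (t + 1) + t ≤ s`.  Then there is `L ∈ Anti N r` with `X v = L *ᵥ F v` for
all but at most `r (t + 1)` vertices.

PROOF.  Write `B u v = X u ⬝ᵥ F v + X v ⬝ᵥ F u` (`= pr F X s(u, v)`, `pr_mk`; symmetric).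
(1) `V' = {v | #{u ≠ v | B v u ≠ 0} ≤ t}`.  Each of the vertices outside of `V'` is in at least
`t + 1` ordered bad pairs `(v, u)`, so `#(V \ V') (t + 1) ≤ nbo X F < t ^ 2` and `#(V \ V') < t ≤ s`.
(2) `exists_units`: for every set `Z` of at most `s` vertices there are `w_1, ..., w_r ∉ Z` such that
the `r × r` matrix `M` with rows `F w_i` is invertible over `ZMod (p ^ j)`.  Modulo `p`: let `Fb`
be the reduction of `F`, a matrix over the field `ZMod p`; every nontrivial combination of its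
columns has more than `s` nonzero entries (a combination `c` mod `p` lifts to `c'`; then
`p ^ (j-1) c' ≠ 0` and `F (p ^ (j-1) c')` is nonzero exactly where `Fb c` is).  So its columns are a
basis of a subspace `W` which is `Dense W s` and `exists_bases_step` (H95/SQ/HalA, with `U = Z`)
gives `w` with invertible `(Fb (w i) a)`; a matrix over `ZMod (p ^ j)` whose determinant is a unit
mod `p` is invertible (`ZMod.isUnit_iff_coprime` or: `x` is a unit iff its reduction mod `p` is not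
zero).
(3) Apply (2) with `Z = V \ V'`.  Let `Z' = {w_i} ∪ ⋃_i {v ≠ w_i | B w_i v ≠ 0}`,
`#Z' ≤ r (t + 1)`.  For `v ∉ Z'`: `X w_i . F v + X v . F w_i = 0` for all `i`, that is
`M (X v) = - (X w_i . F v)_i`, so `X v = L *ᵥ F v` with `L = - M⁻¹ * (matrix with rows X w_i)`.
(4) `L + Lᵀ = 0`.  Let `C = L + Lᵀ` (symmetric); for `u ≠ v` outside of `Z'`:
`B u v = (L F u) . F v + (L F v) . F u = F v . (C F u)`.  Suppose `C ≠ 0`.  There is `y` with
`c := C y ≠ 0` (`y` a unit vector), so `F u . c = (C F u) . y ≠ 0` for more than `s` vertices `u`,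
hence `C F u ≠ 0` for more than `s - r (t + 1)` vertices `u ∉ Z'`, and for each of these
`F v . (C F u) ≠ 0` for more than `s` vertices `v`, so for at least `s - r (t+1)` vertices `v ∉ Z'`,
`v ≠ u`.  This gives at least `(s + 1 - r (t + 1)) (s - r (t + 1)) ≥ (t + 1) t ≥ t ^ 2` ordered bad
pairs, a contradiction.
`nbu_ge`: if `L ∈ Anti N r` and `k = #{v | X v ≠ L *ᵥ F v}` satisfies `2 k ≤ s` then
`k (s / 2) ≤ nbu X F`.  Put `X' v = X v - L *ᵥ F v`; then `B_X u v = B_X' u v` for all `u, v`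
(as `(L x) . y + (L y) . x = 0`).  For `u` with `X' u ≠ 0` there are more than `s` vertices `v` with
`X' u . F v ≠ 0`, so at least `s + 1 - k ≥ s / 2` of them with `X' v = 0`, and for these
`B_X' u v = X' u . F v ≠ 0`; the unordered pairs `s(u, v)` are different (exactly one of the two
vertices has `X' ≠ 0`): `(u, v) ↦ s(u, v)` is injective on the set of these ordered pairs.
`two_nbu`: `nbo X F = 2 * nbu X F`: every unordered pair with two different elements comes from
exactly two ordered pairs (`Finset.card_eq_sum_card_fiberwise` for `(u, v) ↦ s(u, v)`; compare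
`GrSum_pairs` in `H71/DG/GrSum`).
-/

set_option autoImplicit false
set_option linter.style.haveILetI false

namespace Pool.Agent.H66.DG

open Matrix Classical Pool.Agent.H66.SP Pool.Agent.H95.SQ Pool.Agent.H71.DG

theorem StrA_two {M : Type*} {V : Type*} [Fintype V] [Zero M] (h : V → V → M)
    (hs : ∀ u v, h u v = h v u) :
    ((Finset.univ : Finset (V × V)).filter (fun e => e.1 ≠ e.2 ∧ h e.1 e.2 ≠ 0)).card =
      2 * ((nd V).filter (fun e => Sym2.lift ⟨h, hs⟩ e ≠ 0)).card := by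
  rw [Finset.card_eq_sum_card_fiberwise (s := (Finset.univ : Finset (V × V)).filter
    (fun e => e.1 ≠ e.2 ∧ h e.1 e.2 ≠ 0))
    (t := (nd V).filter (fun e => Sym2.lift ⟨h, hs⟩ e ≠ 0)) (f := fun e => s(e.1, e.2))]
  · rw [Finset.sum_const_nat (m := 2)]
    · exact mul_comm _ _
    · intro e he
      rw [Finset.mem_filter] at he
      obtain ⟨he1, he2⟩ := he
      induction e using Sym2.ind with
      | _ a b =>
        rw [Sym2.lift_mk] at he2
        have hab : a ≠ b := by
          unfold nd at he1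
          rw [Finset.mem_filter, Sym2.mk_isDiag_iff] at he1
          exact he1.2
        have h1 : (((Finset.univ : Finset (V × V)).filter
            (fun e => e.1 ≠ e.2 ∧ h e.1 e.2 ≠ 0)).filter
            (fun e => s(e.1, e.2) = s(a, b))) = {(a, b), (b, a)} := by
          ext ⟨u, v⟩
          simp only [Finset.mem_filter, Finset.mem_univ, true_and, Finset.mem_insert,
            Finset.mem_singleton, Sym2.eq_iff, Prod.mk.injEq]
          constructor
          · rintro ⟨-, h2⟩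
            exact h2
          · rintro (⟨rfl, rfl⟩ | ⟨rfl, rfl⟩)
            · exact ⟨⟨hab, he2⟩, Or.inl ⟨rfl, rfl⟩⟩
            · refine ⟨⟨hab.symm, ?_⟩, Or.inr ⟨rfl, rfl⟩⟩
              rw [← hs]
              exact he2
        rw [h1, Finset.card_pair]
        intro h2
        exact hab (congrArg Prod.fst h2)
  · intro e he
    rw [Finset.mem_coe, Finset.mem_filter] at he
    rw [Finset.mem_coe, Finset.mem_filter]
    refine ⟨?_, ?_⟩
    · unfold nd
      rw [Finset.mem_filter, Sym2.mk_isDiag_iff]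
      exact ⟨Finset.mem_univ _, he.2.1⟩
    · rw [Sym2.lift_mk]
      exact he.2.2

theorem StrA_inst {T : Type*} (P : T → Prop) (i j : DecidablePred P) (s : Finset T) :
    (@Finset.filter T P i s).card = (@Finset.filter T P j s).card := by
  rw [Subsingleton.elim i j]

theorem StrA_two_inst {M : Type*} {V : Type*} [Fintype V] [Zero M] (h : V → V → M)
    (hs : ∀ u v, h u v = h v u)
    (d1 : DecidablePred (fun e : V × V => e.1 ≠ e.2 ∧ h e.1 e.2 ≠ 0))
    (d2 : DecidablePred (fun e : Sym2 V => Sym2.lift ⟨h, hs⟩ e ≠ 0)) :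
    (@Finset.filter _ (fun e : V × V => e.1 ≠ e.2 ∧ h e.1 e.2 ≠ 0) d1 Finset.univ).card =
      2 * (@Finset.filter _ (fun e : Sym2 V => Sym2.lift ⟨h, hs⟩ e ≠ 0) d2 (nd V)).card :=
  (StrA_inst _ d1 _ _).trans ((StrA_two h hs).trans
    (congrArg (fun k => 2 * k) (StrA_inst _ _ d2 _)))

theorem two_nbu {N r : ℕ} {V : Type*} [Fintype V] [DecidableEq V]
    (X F : Matrix V (Fin r) (ZMod N)) : nbo X F = 2 * nbu X F :=
  StrA_two_inst (fun u v => X u ⬝ᵥ F v + X v ⬝ᵥ F u) (fun _ _ => add_comm _ _) _ _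

theorem StrA_nz_le {K K' : Type*} {V : Type*} [Zero K] [Zero K'] [Fintype V] (x : V → K)
    (y : V → K') (h : ∀ v, x v ≠ 0 → y v ≠ 0) : nz x ≤ nz y := by
  refine Finset.card_le_card fun v hv => ?_
  rw [Finset.mem_filter] at hv ⊢
  exact ⟨hv.1, h v hv.2⟩

/-- the reduction modulo `p` -/
noncomputable def StrA_red (p j : ℕ) (hj : 1 ≤ j) : ZMod (p ^ j) →+* ZMod p :=
  ZMod.castHom (dvd_pow_self p (by omega)) (ZMod p)

theorem StrA_red_nat (p j : ℕ) (hj : 1 ≤ j) (k : ℕ) :
    StrA_red p j hj (k : ZMod (p ^ j)) = (k : ZMod p) := by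
  unfold StrA_red
  exact map_natCast _ k

theorem StrA_red_surj (p j : ℕ) (hj : 1 ≤ j) [Fact p.Prime] :
    Function.Surjective (StrA_red p j hj) := by
  intro x
  refine ⟨(x.val : ZMod (p ^ j)), ?_⟩
  rw [StrA_red_nat, ZMod.natCast_zmod_val]

theorem StrA_mul_zero (p j : ℕ) (hj : 1 ≤ j) [Fact p.Prime] (x : ZMod (p ^ j)) :
    (((p ^ (j - 1) : ℕ)) : ZMod (p ^ j)) * x = 0 ↔ StrA_red p j hj x = 0 := by
  haveI : NeZero (p ^ j) := ⟨pow_ne_zero _ (Fact.out : p.Prime).ne_zero⟩
  obtain ⟨k, rfl⟩ : ∃ k : ℕ, x = (k : ZMod (p ^ j)) := ⟨x.val, (ZMod.natCast_zmod_val x).symm⟩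
  rw [StrA_red_nat, ← Nat.cast_mul, ZMod.natCast_eq_zero_iff, ZMod.natCast_eq_zero_iff]
  have h1 : p ^ j = p ^ (j - 1) * p := by
    rw [← pow_succ]
    congr 1
    omega
  rw [h1]
  exact Nat.mul_dvd_mul_iff_left (pow_pos (Fact.out : p.Prime).pos _)

theorem StrA_isUnit (p j : ℕ) (hj : 1 ≤ j) [Fact p.Prime] (x : ZMod (p ^ j))
    (hx : StrA_red p j hj x ≠ 0) : IsUnit x := by
  haveI : NeZero (p ^ j) := ⟨pow_ne_zero _ (Fact.out : p.Prime).ne_zero⟩
  obtain ⟨k, rfl⟩ : ∃ k : ℕ, x = (k : ZMod (p ^ j)) := ⟨x.val, (ZMod.natCast_zmod_val x).symm⟩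
  rw [StrA_red_nat, Ne, ZMod.natCast_eq_zero_iff] at hx
  rw [ZMod.isUnit_iff_coprime]
  exact Nat.Coprime.pow_right _ (((Fact.out : p.Prime).coprime_iff_not_dvd.2 hx).symm)

theorem StrA_dense (p j r s : ℕ) [Fact p.Prime] (hj : 1 ≤ j) {V : Type*} [Fintype V]
    (F : Matrix V (Fin r) (ZMod (p ^ j))) (hF : DenseF (p ^ j) r s F)
    (c : Fin r → ZMod p) (hc : c ≠ 0) :
    s < nz ((F.map (StrA_red p j hj)) *ᵥ c) := by
  choose g hg using StrA_red_surj p j hj
  let c' : Fin r → ZMod (p ^ j) := fun i => g (c i)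
  have hc' : (StrA_red p j hj) ∘ c' = c := funext fun i => hg (c i)
  have h1 : (((p ^ (j - 1) : ℕ)) : ZMod (p ^ j)) • c' ≠ 0 := by
    intro h
    apply hc
    funext i
    have h2 := congrFun h i
    rw [Pi.smul_apply, smul_eq_mul, Pi.zero_apply, StrA_mul_zero p j hj] at h2
    rw [← hg (c i)]
    exact h2
  have h2 := hF _ h1
  refine h2.trans_le (StrA_nz_le _ _ fun v hv h3 => hv ?_)
  rw [Matrix.mulVec_smul, Pi.smul_apply, smul_eq_mul, StrA_mul_zero p j hj]
  rw [← h3, ← hc', RingHom.map_mulVec]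


theorem exists_units (p j r s : ℕ) [Fact p.Prime] (hj : 1 ≤ j) {V : Type*} [Fintype V]
    [DecidableEq V] (F : Matrix V (Fin r) (ZMod (p ^ j))) (hF : DenseF (p ^ j) r s F)
    (Z : Finset V) (hZ : Z.card ≤ s) :
    ∃ w : Fin r → V, Function.Injective w ∧ (∀ i, w i ∉ Z) ∧
      IsUnit (Matrix.of fun i a : Fin r => F (w i) a) := by
  set Fb : Matrix V (Fin r) (ZMod p) := F.map (StrA_red p j hj) with hFb
  have hd : ∀ c : Fin r → ZMod p, c ≠ 0 → s < nz (Fb *ᵥ c) :=
    fun c hc => StrA_dense p j r s hj F hF c hc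
  have hinj : Function.Injective (Fb.mulVecLin) := by
    rw [injective_iff_map_eq_zero]
    intro c hc
    by_contra h
    have h1 := hd c h
    rw [Matrix.mulVecLin_apply] at hc
    rw [hc, nz_zero] at h1
    exact Nat.not_lt_zero _ h1
  let e := LinearEquiv.ofInjective Fb.mulVecLin hinj
  let w := (Pi.basisFun (ZMod p) (Fin r)).map e
  have hw : ∀ a v, ((w a : LinearMap.range Fb.mulVecLin) : V → ZMod p) v = Fb v a := by
    intro a v
    show (Fb *ᵥ (Pi.basisFun (ZMod p) (Fin r) a)) v = Fb v a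
    rw [Pi.basisFun_apply, Matrix.mulVec_single_one]
    rfl
  have hW : Dense (LinearMap.range Fb.mulVecLin) s := by
    rintro x ⟨c, rfl⟩ hx
    rw [Matrix.mulVecLin_apply] at hx ⊢
    refine hd c ?_
    rintro rfl
    exact hx (Matrix.mulVec_zero _)
  obtain ⟨c, hc1, hc2, hc3⟩ := exists_bases_step (LinearMap.range Fb.mulVecLin) w s hW Z hZ
  refine ⟨c, hc1, hc2, ?_⟩
  rw [Matrix.isUnit_iff_isUnit_det]
  apply StrA_isUnit p j hj
  rw [RingHom.map_det]
  have h1 : (StrA_red p j hj).mapMatrix (Matrix.of fun i a : Fin r => F (c i) a) =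
      (Matrix.of fun a a' : Fin r =>
        ((w a : LinearMap.range Fb.mulVecLin) : V → ZMod p) (c a'))ᵀ := by
    ext i a
    rw [Matrix.transpose_apply, Matrix.of_apply, hw]
    rfl
  rw [h1, Matrix.det_transpose]
  exact hc3.ne_zero

end Pool.Agent.H66.DG
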